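import Mathlib

/-!
Definitions used in the statements about bounded versions of Hindman's theorem.
-/

namespace Pool.Agent.Work.MP_69fea5_lc

/-- The characteristic function of a set of natural numbers, as a function to compute or as an
oracle. -/
noncomputable def charFn (X : Set ℕ) : ℕ →. ℕ :=
  open Classical in fun n => Part.some (if n ∈ X then 1 else 0)

/-- A total function, as a function to compute or as an oracle. -/
def fn (g : ℕ → ℕ) : ℕ →. ℕ := fun n => Part.some (g n)

/-- `X` is a solution of the instance `c` of Hindman's theorem restricted to sums of at most `n`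
terms: `X` is an infinite set of positive integers and `c` is constant on the sums of at least one
and at most `n` distinct elements of `X`. -/
def IsSolution (c : ℕ → ℕ) (n : ℕ) (X : Set ℕ) : Prop :=
  X.Infinite ∧ (∀ x ∈ X, 0 < x) ∧
    ∃ i, ∀ F : Finset ℕ, (F : Set ℕ) ⊆ X → F.Nonempty → F.card ≤ n → c (∑ x ∈ F, x) = i

/-- The halting set: the codes `n` of partial recursive functions that are defined at `n`. -/
def haltingSet : Set ℕ := {n | ((Denumerable.ofNat Nat.Partrec.Code n).eval n).Dom}

end Pool.Agent.Work.MP_69fea5_lc
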