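import Mathlib
import Pool.Agent.Work.MP_69fea5_lc.Defs

/-! Basic facts on relative computability. -/

namespace Pool.Agent.Work.MP_69fea5_lc

/-- The code of the list `[g 0, ..., g (n - 1)]`. -/
def pre (g : ℕ → ℕ) (n : ℕ) : List ℕ := (List.range n).map g

theorem pre_getD (g : ℕ → ℕ) (n s : ℕ) (h : s < n) : (pre g n).getD s 0 = g s := by
  simp [pre, List.getD, h]

theorem comp_tot {O : Set (ℕ →. ℕ)} {f : ℕ → ℕ} {h : ℕ → ℕ}
    (hf : Nat.RecursiveIn O (fun n => Part.some (f n)))
    (hh : Nat.RecursiveIn O (fun n => Part.some (h n))) :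
    Nat.RecursiveIn O (fun n => Part.some (f (h n))) := by
  refine (Nat.RecursiveIn.comp hf hh).of_eq ?_
  intro n
  simp

theorem pair_tot {O : Set (ℕ →. ℕ)} {f : ℕ → ℕ} {h : ℕ → ℕ}
    (hf : Nat.RecursiveIn O (fun n => Part.some (f n)))
    (hh : Nat.RecursiveIn O (fun n => Part.some (h n))) :
    Nat.RecursiveIn O (fun n => Part.some (Nat.pair (f n) (h n))) := by
  refine (Nat.RecursiveIn.pair hf hh).of_eq ?_
  intro n
  simp [Seq.seq]

theorem comp_of {O : Set (ℕ →. ℕ)} {f : ℕ → ℕ} (hf : Computable f) :
    Nat.RecursiveIn O (fun n => Part.some (f n)) := by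
  have := hf.computableIn (O := O)
  exact (RecursiveIn.iff_nat (O := O)).1 this

theorem pre_rec {O : Set (ℕ →. ℕ)} {g : ℕ → ℕ}
    (hg : Nat.RecursiveIn O (fun n => Part.some (g n))) :
    Nat.RecursiveIn O (fun n => Part.some (Encodable.encode (pre g n))) := by
  let A : ℕ → ℕ := fun p => Encodable.encode
    (((Encodable.decode (α := List ℕ) p.unpair.1).getD []) ++ [p.unpair.2])
  have hA : Computable A := by
    apply Primrec.to_comp
    refine Primrec.encode.comp ?_
    refine Primrec.list_concat.comp ?_ (Primrec.snd.comp Primrec.unpair)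
    exact Primrec.option_getD.comp (Primrec.decode.comp (Primrec.fst.comp Primrec.unpair))
      (Primrec.const [])
  -- step function on `pair a (pair y i)`
  have hy : Computable (fun p : ℕ => p.unpair.2.unpair.1) :=
    (Primrec.fst.comp (Primrec.unpair.comp (Primrec.snd.comp Primrec.unpair))).to_comp
  have hi : Computable (fun p : ℕ => p.unpair.2.unpair.2) :=
    (Primrec.snd.comp (Primrec.unpair.comp (Primrec.snd.comp Primrec.unpair))).to_comp
  have hstep : Nat.RecursiveIn O (fun p : ℕ =>
      Part.some (A (Nat.pair p.unpair.2.unpair.2 (g p.unpair.2.unpair.1)))) :=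
    comp_tot (comp_of hA) (pair_tot (comp_of hi) (comp_tot hg (comp_of hy)))
  have hbase : Nat.RecursiveIn O (fun _ : ℕ => Part.some (Encodable.encode ([] : List ℕ))) :=
    comp_of (Computable.const _)
  have hp := Nat.RecursiveIn.prec hbase hstep
  have hq : Nat.RecursiveIn O (fun n : ℕ => Part.some (Nat.pair 0 n)) :=
    comp_of (Primrec₂.natPair.comp (Primrec.const 0) Primrec.id).to_comp
  refine (Nat.RecursiveIn.comp hp hq).of_eq ?_
  intro n
  simp only [Part.bind_eq_bind, Part.bind_some, Nat.unpair_pair]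
  induction n with
  | zero => simp [pre]
  | succ n ih =>
    simp only [ih, Part.bind_some]
    congr 1
    simp [A, pre, List.range_succ]

/-- The basic reduction: search in `X` for a witness `x` such that all values `g s` with
`s ≥ x` differ from `e`, then check the values below `x`. -/
theorem range_rec {O : Set (ℕ →. ℕ)} {g : ℕ → ℕ} {X : Set ℕ} {R : ℕ → ℕ → Prop}
    (hg : Nat.RecursiveIn O (fun n => Part.some (g n)))
    (hX : Nat.RecursiveIn O (charFn X))
    (hR : PrimrecRel R)
    (h1 : ∀ e, ∃ x ∈ X, R e x)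
    (h2 : ∀ e, ∀ x ∈ X, R e x → ∀ s, x ≤ s → g s ≠ e) :
    Nat.RecursiveIn O (charFn (Set.range g)) := by
  classical
  let χ : ℕ → ℕ := fun n => if n ∈ X then 1 else 0
  have hχ : Nat.RecursiveIn O (fun n => Part.some (χ n)) := hX.of_eq fun n => by
    simp [charFn, χ]
  let Q : ℕ → ℕ := fun p =>
    if p.unpair.2 = 1 ∧ R p.unpair.1.unpair.1 p.unpair.1.unpair.2 then 0 else 1
  have hQ : Computable Q := by
    apply Primrec.to_comp
    refine Primrec.ite ?_ (Primrec.const 0) (Primrec.const 1)
    refine PrimrecPred.and ?_ ?_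
    · exact Primrec.eq.comp (Primrec.snd.comp Primrec.unpair) (Primrec.const 1)
    · exact hR.comp
        (Primrec.fst.comp (Primrec.unpair.comp (Primrec.fst.comp Primrec.unpair)))
        (Primrec.snd.comp (Primrec.unpair.comp (Primrec.fst.comp Primrec.unpair)))
  have hf : Nat.RecursiveIn O (fun p : ℕ => Part.some (Q (Nat.pair p (χ p.unpair.2)))) :=
    comp_tot (comp_of hQ) (pair_tot (comp_of Computable.id)
      (comp_tot hχ (comp_of (Primrec.snd.comp Primrec.unpair).to_comp)))
  have hm := Nat.RecursiveIn.rfind hf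
  -- the search function is total
  let m : ℕ → ℕ := fun e => Nat.find (h1 e)
  have hm' : Nat.RecursiveIn O (fun e => Part.some (m e)) := by
    refine hm.of_eq ?_
    intro e
    apply Part.eq_some_iff.2
    rw [Nat.mem_rfind]
    have hspec := Nat.find_spec (h1 e)
    constructor
    · simp only [Part.map_eq_map, Part.map_some, Part.mem_some_iff]
      have h3 : Q (Nat.pair (Nat.pair e (m e)) (χ (Nat.pair e (m e)).unpair.2)) = 0 := by
        simp only [Q, χ, Nat.unpair_pair]
        rw [if_pos]
        exact ⟨if_pos hspec.1, hspec.2⟩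
      rw [h3]
      simp
    · intro k hk
      simp only [Part.map_eq_map, Part.map_some, Part.mem_some_iff]
      have h3 : Q (Nat.pair (Nat.pair e k) (χ (Nat.pair e k).unpair.2)) = 1 := by
        simp only [Q, χ, Nat.unpair_pair]
        rw [if_neg]
        rintro ⟨h4, h5⟩
        have h6 : k ∈ X := by
          by_contra hc
          rw [if_neg hc] at h4
          exact absurd h4 (by norm_num)
        exact Nat.find_min (h1 e) hk ⟨h6, h5⟩
      rw [h3]
      simp
  let D : ℕ → ℕ := fun p =>
    if ∃ a ∈ ((Encodable.decode (α := List ℕ) p.unpair.2).getD []), a = p.unpair.1 then 1 else 0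
  have hD : Computable D := by
    apply Primrec.to_comp
    refine Primrec.ite ?_ (Primrec.const 1) (Primrec.const 0)
    exact (PrimrecRel.exists_mem_list (R := fun a b : ℕ => a = b) Primrec.eq).comp
      (Primrec.option_getD.comp (Primrec.decode.comp (Primrec.snd.comp Primrec.unpair))
        (Primrec.const [])) (Primrec.fst.comp Primrec.unpair)
  have hfin : Nat.RecursiveIn O (fun e : ℕ =>
      Part.some (D (Nat.pair e (Encodable.encode (pre g (m e)))))) :=
    comp_tot (comp_of hD) (pair_tot (comp_of Computable.id) (comp_tot (pre_rec hg) hm'))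
  refine hfin.of_eq ?_
  intro e
  simp only [charFn, D, Nat.unpair_pair, Encodable.encodek, Option.getD_some]
  congr 1
  have hspec := Nat.find_spec (h1 e)
  have key : (∃ a ∈ pre g (m e), a = e) ↔ e ∈ Set.range g := by
    constructor
    · rintro ⟨a, ha, rfl⟩
      simp only [pre, List.mem_map, List.mem_range] at ha
      obtain ⟨s, -, hs⟩ := ha
      exact ⟨s, hs⟩
    · rintro ⟨s, hs⟩
      refine ⟨e, ?_, rfl⟩
      simp only [pre, List.mem_map, List.mem_range]
      refine ⟨s, ?_, hs⟩
      by_contra hc
      exact h2 e _ hspec.1 hspec.2 s (not_lt.1 hc) hs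
  by_cases h : e ∈ Set.range g
  · rw [if_pos h, if_pos (key.2 h)]
  · rw [if_neg h, if_neg (fun hh => h (key.1 hh))]

/-- A function computed from a finite part of `g` by a computable function is recursive in `g`. -/
theorem rec_of_pre {O : Set (ℕ →. ℕ)} {g c : ℕ → ℕ} {Φ : List ℕ → ℕ → ℕ}
    (hg : Nat.RecursiveIn O (fun n => Part.some (g n))) (hΦ : Primrec₂ Φ)
    (h : ∀ x, c x = Φ (pre g x) x) : Nat.RecursiveIn O (fun n => Part.some (c n)) := by
  let A : ℕ → ℕ := fun p => Φ ((Encodable.decode (α := List ℕ) p.unpair.1).getD []) p.unpair.2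
  have hA : Computable A := by
    apply Primrec.to_comp
    exact hΦ.comp (Primrec.option_getD.comp (Primrec.decode.comp (Primrec.fst.comp Primrec.unpair))
      (Primrec.const [])) (Primrec.snd.comp Primrec.unpair)
  refine (comp_tot (comp_of hA) (pair_tot (pre_rec hg) (comp_of Computable.id))).of_eq ?_
  intro n
  simp [A, h]

end Pool.Agent.Work.MP_69fea5_lc
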