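import Mathlib

/-! Digit gaps and the three-colouring. -/

namespace Pool.Agent.Work.MP_69fea5_lc

/-- Some value less than `r` is listed by `g` at a stage which is the position of a digit in the
top block of zeros of `w` in base `q` (just below the leading digit of `w`). -/
def ev (g : ℕ → ℕ) (q w r : ℕ) : Prop :=
  ∃ s < Nat.log q w, w % q ^ Nat.log q w < q ^ s ∧ g s < r

instance (g : ℕ → ℕ) (q w r : ℕ) : Decidable (ev g q w r) := by
  unfold ev; infer_instance

/-- Some value less than `r` is listed by `g` at a stage beyond the digits of `u` in base `q`. -/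
def EV (g : ℕ → ℕ) (q u r : ℕ) : Prop := ∃ s, u < q ^ s ∧ g s < r

theorem ev_mono {g : ℕ → ℕ} {q w r r' : ℕ} (h : ev g q w r) (hr : r ≤ r') : ev g q w r' := by
  obtain ⟨s, h1, h2, h3⟩ := h
  exact ⟨s, h1, h2, by omega⟩

theorem not_ev_zero {g : ℕ → ℕ} {q w : ℕ} : ¬ ev g q w 0 := by
  rintro ⟨s, h1, h2, h3⟩
  omega

theorem ev_lt {g : ℕ → ℕ} {q w r : ℕ} (h : ev g q w r) : 1 < q ∧ q ≤ w := by
  obtain ⟨s, h1, h2, h3⟩ := h
  by_contra hc
  have : Nat.log q w = 0 := by
    rw [Nat.log_eq_zero_iff]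
    omega
  omega

theorem strip_lt {q w : ℕ} (hw : 0 < w) : w % q ^ Nat.log q w < w := by
  by_cases hq : q = 0
  · subst hq
    simp [Nat.mod_one, hw]
  · calc w % q ^ Nat.log q w < q ^ Nat.log q w := Nat.mod_lt _ (Nat.pow_pos (Nat.pos_of_ne_zero hq))
      _ ≤ w := Nat.pow_log_le_self q hw.ne'

theorem log_add {q u M v : ℕ} (hq : 1 < q) (hu : u < q ^ M) (hv : 0 < v) :
    Nat.log q (u + q ^ M * v) = M + Nat.log q v := by
  have hpos : 0 < q ^ M := Nat.pow_pos (by omega)
  rw [Nat.log_eq_iff (Or.inr ⟨hq, by positivity⟩)]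
  constructor
  · rw [pow_add]
    have : q ^ Nat.log q v ≤ v := Nat.pow_log_le_self q hv.ne'
    calc q ^ M * q ^ Nat.log q v ≤ q ^ M * v := Nat.mul_le_mul_left _ this
      _ ≤ u + q ^ M * v := Nat.le_add_left _ _
  · have : v < q ^ (Nat.log q v + 1) := Nat.lt_pow_succ_log_self hq v
    calc u + q ^ M * v < q ^ M + q ^ M * v := by omega
      _ = q ^ M * (v + 1) := by ring
      _ ≤ q ^ M * q ^ (Nat.log q v + 1) := Nat.mul_le_mul_left _ this
      _ = q ^ (M + Nat.log q v + 1) := by rw [← pow_add]; rfl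

theorem strip_add {q u M v : ℕ} (hq : 1 < q) (hu : u < q ^ M) :
    (u + q ^ M * v) % q ^ (M + Nat.log q v) = u + q ^ M * (v % q ^ Nat.log q v) := by
  have h1 : u + q ^ M * v = (u + q ^ M * (v % q ^ Nat.log q v)) +
      q ^ (M + Nat.log q v) * (v / q ^ Nat.log q v) := by
    conv_lhs => rw [← Nat.mod_add_div v (q ^ Nat.log q v)]
    rw [pow_add]
    ring
  rw [h1, Nat.add_mul_mod_self_left, Nat.mod_eq_of_lt]
  have h2 : v % q ^ Nat.log q v < q ^ Nat.log q v := Nat.mod_lt _ (Nat.pow_pos (by omega))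
  calc u + q ^ M * (v % q ^ Nat.log q v) < q ^ M + q ^ M * (v % q ^ Nat.log q v) := by omega
    _ = q ^ M * (v % q ^ Nat.log q v + 1) := by ring
    _ ≤ q ^ M * q ^ Nat.log q v := Nat.mul_le_mul_left _ h2
    _ = q ^ (M + Nat.log q v) := by rw [← pow_add]

/-- If all stages listing a value less than `r` are less than `M`, the event at the top of
`u + q ^ M * v` is false when `v` has at least two nonzero digits. -/
theorem ev_add_false {g : ℕ → ℕ} {q u M v r : ℕ} (hq : 1 < q) (hu : u < q ^ M) (hv : 0 < v)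
    (hM : ∀ s, g s < r → s < M) (hv' : v % q ^ Nat.log q v ≠ 0) :
    ¬ ev g q (u + q ^ M * v) r := by
  rintro ⟨s, h1, h2, h3⟩
  rw [log_add hq hu hv, strip_add hq hu] at h2
  have h4 := hM s h3
  have h5 : q ^ s ≤ q ^ M := Nat.pow_le_pow_right (by omega) h4.le
  have h6 : q ^ M ≤ q ^ M * (v % q ^ Nat.log q v) :=
    Nat.le_mul_of_pos_right _ (Nat.pos_of_ne_zero hv')
  omega

theorem ev_add_iff {g : ℕ → ℕ} {q u M v r : ℕ} (hq : 1 < q) (hu : u < q ^ M) (hv : 0 < v)
    (hM : ∀ s, g s < r → s < M) (hv' : v % q ^ Nat.log q v = 0) :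
    ev g q (u + q ^ M * v) r ↔ EV g q u r := by
  unfold ev EV
  rw [log_add hq hu hv, strip_add hq hu, hv', mul_zero, add_zero]
  constructor
  · rintro ⟨s, -, h2, h3⟩
    exact ⟨s, h2, h3⟩
  · rintro ⟨s, h2, h3⟩
    exact ⟨s, by have := hM s h3; omega, h2, h3⟩

/-! ### Three colours -/

/-- The least colour different from `x` and `y`. -/
def third (x y : ℕ) : ℕ := if 0 ≠ x ∧ 0 ≠ y then 0 else if 1 ≠ x ∧ 1 ≠ y then 1 else 2

theorem third_ne_left (x y : ℕ) : third x y ≠ x := by
  unfold third; split_ifs <;> omega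

theorem third_ne_right (x y : ℕ) : third x y ≠ y := by
  unfold third; split_ifs <;> omega

theorem third_lt (x y : ℕ) : third x y < 3 := by
  unfold third; split_ifs <;> omega

/-- The three colours of `2 ^ b * w` for odd `w`. -/
def T (g : ℕ → ℕ) (w b : ℕ) : ℕ :=
  if h : ev g 2 w b then third (T g (w % 2 ^ Nat.log 2 w) b) (T g w (b - 1))
  else if h' : w < 2 then b % 2 else T g (w % 2 ^ Nat.log 2 w) b
termination_by (w, b)
decreasing_by
  · have := ev_lt h
    exact Prod.Lex.left _ _ (strip_lt (by omega))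
  · have hb : b ≠ 0 := by rintro rfl; exact not_ev_zero h
    exact Prod.Lex.right _ (by omega)
  · exact Prod.Lex.left _ _ (strip_lt (by omega))

theorem T_of_ev {g : ℕ → ℕ} {w b : ℕ} (h : ev g 2 w b) :
    T g w b = third (T g (w % 2 ^ Nat.log 2 w) b) (T g w (b - 1)) := by
  rw [T, dif_pos h]

theorem T_of_not_ev {g : ℕ → ℕ} {w b : ℕ} (h : ¬ ev g 2 w b) (hw : 2 ≤ w) :
    T g w b = T g (w % 2 ^ Nat.log 2 w) b := by
  rw [T, dif_neg h, dif_neg (by omega)]

theorem T_base {g : ℕ → ℕ} {w b : ℕ} (hw : w < 2) : T g w b = b % 2 := by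
  have h : ¬ ev g 2 w b := fun h => by have := ev_lt h; omega
  rw [T, dif_neg h, dif_pos hw]

theorem T_lt (g : ℕ → ℕ) (w : ℕ) : ∀ b, T g w b < 3 := by
  induction w using Nat.strong_induction_on with
  | _ w ih =>
    intro b
    by_cases hw : w < 2
    · rw [T_base hw]; omega
    · by_cases h : ev g 2 w b
      · rw [T_of_ev h]; exact third_lt _ _
      · rw [T_of_not_ev h (by omega)]
        exact ih _ (strip_lt (by omega)) b

theorem T_adj (g : ℕ → ℕ) (w : ℕ) : ∀ b, T g w b ≠ T g w (b + 1) := by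
  induction w using Nat.strong_induction_on with
  | _ w ih =>
    intro b
    by_cases hw : w < 2
    · rw [T_base hw, T_base hw]; omega
    · by_cases h : ev g 2 w (b + 1)
      · rw [T_of_ev h]
        exact (third_ne_right _ _).symm
      · have h' : ¬ ev g 2 w b := fun h' => h (ev_mono h' (by omega))
        rw [T_of_not_ev h (by omega), T_of_not_ev h' (by omega)]
        exact ih _ (strip_lt (by omega)) b

open Classical in
/-- The limit colour. -/
noncomputable def H (g : ℕ → ℕ) (u : ℕ) : ℕ → ℕ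
  | 0 => T g u 0
  | b + 1 => if EV g 2 u (b + 1) then third (T g u (b + 1)) (H g u b) else T g u (b + 1)

theorem not_EV_zero {g : ℕ → ℕ} {q u : ℕ} : ¬ EV g q u 0 := by
  rintro ⟨s, h1, h2⟩; omega

theorem T_add {g : ℕ → ℕ} {u M : ℕ} (hu : u < 2 ^ M) (hM1 : 1 ≤ M) : ∀ b : ℕ,
    (∀ s, g s < b → s < M) → ∀ v, 0 < v → T g (u + 2 ^ M * v) b = H g u b := by
  intro b
  induction b with
  | zero =>
    intro hM v
    induction v using Nat.strong_induction_on with
    | _ v ih =>
      intro hv
      have hge : 2 ≤ u + 2 ^ M * v := by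
        have : 2 ^ 1 ≤ 2 ^ M := Nat.pow_le_pow_right (by norm_num) hM1
        nlinarith
      rw [T_of_not_ev not_ev_zero hge, log_add (by norm_num) hu hv, strip_add (by norm_num) hu]
      by_cases hv' : v % 2 ^ Nat.log 2 v = 0
      · rw [hv', mul_zero, add_zero]; rfl
      · exact ih _ (strip_lt hv) (Nat.pos_of_ne_zero hv')
  | succ b ihb =>
    intro hM v
    induction v using Nat.strong_induction_on with
    | _ v ih =>
      intro hv
      have hge : 2 ≤ u + 2 ^ M * v := by
        have : 2 ^ 1 ≤ 2 ^ M := Nat.pow_le_pow_right (by norm_num) hM1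
        nlinarith
      by_cases hv' : v % 2 ^ Nat.log 2 v = 0
      · by_cases hE : EV g 2 u (b + 1)
        · have h := (ev_add_iff (by norm_num) hu hv hM hv').2 hE
          rw [T_of_ev h, log_add (by norm_num) hu hv, strip_add (by norm_num) hu, hv', mul_zero,
            add_zero, Nat.add_sub_cancel, ihb (fun s hs => hM s (by omega)) v hv]
          simp only [H]
          rw [if_pos hE]
        · have h : ¬ ev g 2 (u + 2 ^ M * v) (b + 1) :=
            fun h => hE ((ev_add_iff (by norm_num) hu hv hM hv').1 h)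
          rw [T_of_not_ev h hge, log_add (by norm_num) hu hv, strip_add (by norm_num) hu, hv',
            mul_zero, add_zero]
          simp only [H]
          rw [if_neg hE]
      · have h := ev_add_false (g := g) (r := b + 1) (by norm_num) hu hv hM hv'
        rw [T_of_not_ev h hge, log_add (by norm_num) hu hv, strip_add (by norm_num) hu]
        exact ih _ (strip_lt hv) (Nat.pos_of_ne_zero hv')

theorem H_ne {g : ℕ → ℕ} {u b : ℕ} (h : EV g 2 u b) : H g u b ≠ T g u b := by
  cases b with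
  | zero => exact absurd h not_EV_zero
  | succ b =>
    simp only [H]
    rw [if_pos h]
    exact third_ne_left _ _

end Pool.Agent.Work.MP_69fea5_lc
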