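import Mathlib
import Pool.Agent.Work.MP_69fea5_lc.Comp
import Pool.Agent.Work.MP_69fea5_lc.Core

/-! The three-colouring is computable in the oracle. -/

namespace Pool.Agent.Work.MP_69fea5_lc

open Primrec

theorem primrec_pow : Primrec₂ (fun a b : ℕ => a ^ b) := Primrec₂.unpaired'.1 Nat.Primrec.pow

theorem primrec_log (q : ℕ) (hq : 1 < q) : Primrec (Nat.log q) := by
  have h : Primrec (fun w : ℕ => Nat.findGreatest (fun i => q ^ i ≤ w) w) :=
    Primrec.nat_findGreatest Primrec.id
      (Primrec.nat_le.comp (primrec_pow.comp (Primrec.const q) Primrec.snd) Primrec.fst)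
  refine h.of_eq ?_
  intro w
  rcases Nat.eq_zero_or_pos w with rfl | hw
  · simp
  rw [Nat.findGreatest_eq_iff]
  refine ⟨Nat.log_le_self q w, fun _ => Nat.pow_log_le_self q hw.ne', ?_⟩
  intro n h1 h2 h3
  have := Nat.lt_pow_of_log_lt hq h1
  omega

/-- The largest `i` such that `q ^ i` divides `x` (for `x > 0`). -/
def val (q x : ℕ) : ℕ := Nat.findGreatest (fun i => x % q ^ i = 0) x

theorem primrec_val (q : ℕ) : Primrec (val q) :=
  Primrec.nat_findGreatest Primrec.id
    (Primrec.eq.comp (Primrec.nat_mod.comp Primrec.fst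
      (primrec_pow.comp (Primrec.const q) Primrec.snd)) (Primrec.const 0))

theorem val_mul {q b w : ℕ} (hq : 1 < q) (hw : ¬ q ∣ w) : val q (q ^ b * w) = b := by
  have hw0 : 0 < w := by
    rcases Nat.eq_zero_or_pos w with rfl | h
    · exact absurd (dvd_zero q) hw
    · exact h
  unfold val
  rw [Nat.findGreatest_eq_iff]
  refine ⟨?_, fun _ => Nat.mul_mod_right _ _, ?_⟩
  · calc b ≤ q ^ b := (Nat.lt_pow_self hq).le
      _ ≤ q ^ b * w := Nat.le_mul_of_pos_right _ hw0
  · intro n h1 h2 h3
    have h4 : q ^ n ∣ q ^ b * w := Nat.dvd_of_mod_eq_zero h3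
    have h5 : q ^ (b + 1) ∣ q ^ b * w := (pow_dvd_pow q h1).trans h4
    rw [pow_succ] at h5
    exact hw (Nat.dvd_of_mul_dvd_mul_left (Nat.pow_pos (by omega)) h5)

theorem primrec_ev (q : ℕ) (hq : 1 < q) :
    PrimrecPred (fun p : List ℕ × ℕ × ℕ => ev (fun s => p.1.getD s 0) q p.2.1 p.2.2) := by
  have hlog := primrec_log q hq
  have h1 : PrimrecRel (fun (s : ℕ) (p : List ℕ × ℕ × ℕ) =>
      p.2.1 % q ^ Nat.log q p.2.1 < q ^ s ∧ p.1.getD s 0 < p.2.2) := by
    refine PrimrecPred.and ?_ ?_
    · exact Primrec.nat_lt.comp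
        (Primrec.nat_mod.comp (fst.comp (snd.comp snd))
          (primrec_pow.comp (Primrec.const q) (hlog.comp (fst.comp (snd.comp snd)))))
        (primrec_pow.comp (Primrec.const q) fst)
    · exact Primrec.nat_lt.comp ((Primrec.list_getD 0).comp (fst.comp snd) fst)
        (snd.comp (snd.comp snd))
  have h2 := (PrimrecRel.exists_mem_list h1).comp
    (Primrec.list_range.comp (hlog.comp (fst.comp (Primrec.snd (α := List ℕ) (β := ℕ × ℕ)))))
    Primrec.id
  refine h2.of_eq ?_
  intro p
  simp only [List.mem_range, id]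
  rfl

theorem primrec_third : Primrec₂ third := by
  refine Primrec.ite ?_ (Primrec.const 0) (Primrec.ite ?_ (Primrec.const 1) (Primrec.const 2))
  · exact PrimrecPred.and (PrimrecPred.not (Primrec.eq.comp (Primrec.const 0) fst))
      (PrimrecPred.not (Primrec.eq.comp (Primrec.const 0) snd))
  · exact PrimrecPred.and (PrimrecPred.not (Primrec.eq.comp (Primrec.const 1) fst))
      (PrimrecPred.not (Primrec.eq.comp (Primrec.const 1) snd))

theorem T_local {g g' : ℕ → ℕ} {N : ℕ} (hN : ∀ s < N, g s = g' s) (w : ℕ) :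
    w ≤ N → ∀ b, T g w b = T g' w b := by
  have hev : ∀ w ≤ N, ∀ b, ev g 2 w b ↔ ev g' 2 w b := by
    intro w hw b
    unfold ev
    have hl := Nat.log_le_self 2 w
    constructor
    · rintro ⟨s, h1, h2, h3⟩
      exact ⟨s, h1, h2, by rw [← hN s (by omega)]; exact h3⟩
    · rintro ⟨s, h1, h2, h3⟩
      exact ⟨s, h1, h2, by rw [hN s (by omega)]; exact h3⟩
  induction w using Nat.strong_induction_on with
  | _ w ih =>
    intro hw b
    by_cases hw2 : w < 2
    · rw [T_base hw2, T_base hw2]
    · have hs := strip_lt (q := 2) (w := w) (by omega)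
      induction b with
      | zero =>
        rw [T_of_not_ev (g := g) (w := w) (b := 0) not_ev_zero (by omega),
          T_of_not_ev (g := g') (w := w) (b := 0) not_ev_zero (by omega)]
        exact ih _ hs (by omega) 0
      | succ b ihb =>
        by_cases h : ev g 2 w (b + 1)
        · rw [T_of_ev h, T_of_ev ((hev w hw _).1 h), Nat.add_sub_cancel, ihb,
            ih _ hs (by omega) (b + 1)]
        · rw [T_of_not_ev h (by omega), T_of_not_ev (fun h' => h ((hev w hw _).2 h')) (by omega)]
          exact ih _ hs (by omega) _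

theorem primrec_T : Primrec₂ (fun (L : List ℕ) (z : ℕ) =>
    T (fun s => L.getD s 0) z.unpair.1 z.unpair.2) := by
  have hlog := primrec_log 2 (by norm_num)
  -- course of values step
  let st : List ℕ → List ℕ → ℕ := fun L P =>
    if ev (fun s => L.getD s 0) 2 P.length.unpair.1 P.length.unpair.2 then
      third (P.getD (Nat.pair (P.length.unpair.1 % 2 ^ Nat.log 2 P.length.unpair.1)
          P.length.unpair.2) 0)
        (P.getD (Nat.pair P.length.unpair.1 (P.length.unpair.2 - 1)) 0)
    else if P.length.unpair.1 < 2 then P.length.unpair.2 % 2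
    else P.getD (Nat.pair (P.length.unpair.1 % 2 ^ Nat.log 2 P.length.unpair.1)
          P.length.unpair.2) 0
  have hl : Primrec (fun p : List ℕ × List ℕ => p.2.length) := Primrec.list_length.comp snd
  have hw : Primrec (fun p : List ℕ × List ℕ => p.2.length.unpair.1) :=
    fst.comp (Primrec.unpair.comp hl)
  have hb : Primrec (fun p : List ℕ × List ℕ => p.2.length.unpair.2) :=
    snd.comp (Primrec.unpair.comp hl)
  have hs : Primrec (fun p : List ℕ × List ℕ =>
      p.2.length.unpair.1 % 2 ^ Nat.log 2 p.2.length.unpair.1) :=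
    Primrec.nat_mod.comp hw (primrec_pow.comp (Primrec.const 2) (hlog.comp hw))
  have hA : Primrec (fun p : List ℕ × List ℕ =>
      p.2.getD (Nat.pair (p.2.length.unpair.1 % 2 ^ Nat.log 2 p.2.length.unpair.1)
          p.2.length.unpair.2) 0) :=
    (Primrec.list_getD 0).comp snd (Primrec₂.natPair.comp hs hb)
  have hB : Primrec (fun p : List ℕ × List ℕ =>
      p.2.getD (Nat.pair p.2.length.unpair.1 (p.2.length.unpair.2 - 1)) 0) :=
    (Primrec.list_getD 0).comp snd (Primrec₂.natPair.comp hw
      (Primrec.nat_sub.comp hb (Primrec.const 1)))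
  have hst : Primrec₂ st := by
    refine Primrec.ite ?_ (primrec_third.comp hA hB) (Primrec.ite ?_ ?_ hA)
    · exact (primrec_ev 2 (by norm_num)).comp (Primrec.pair fst (Primrec.pair hw hb))
    · exact Primrec.nat_lt.comp hw (Primrec.const 2)
    · exact Primrec.nat_mod.comp hb (Primrec.const 2)
  refine Primrec.nat_strong_rec _ (g := fun L P => some (st L P))
    (Primrec.option_some.comp hst) ?_
  intro L z
  simp only [Option.some.injEq]
  have hget : ∀ y < z, ((List.range z).map (fun z : ℕ =>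
      T (fun s => L.getD s 0) z.unpair.1 z.unpair.2)).getD y 0 =
      T (fun s => L.getD s 0) y.unpair.1 y.unpair.2 := by
    intro y hy
    simp [List.getD, hy]
  simp only [st, List.length_map, List.length_range]
  obtain ⟨w, b, rfl⟩ : ∃ w b, z = Nat.pair w b := ⟨z.unpair.1, z.unpair.2, by simp⟩
  simp only [Nat.unpair_pair]
  by_cases h : ev (fun s => L.getD s 0) 2 w b
  · have hw2 := (ev_lt h).2
    have hb0 : b ≠ 0 := by rintro rfl; exact not_ev_zero h
    rw [if_pos h, T_of_ev h, hget, hget]
    · simp only [Nat.unpair_pair]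
    · exact Nat.pair_lt_pair_right _ (by omega)
    · exact Nat.pair_lt_pair_left _ (strip_lt (by omega))
  · rw [if_neg h]
    by_cases hw2 : w < 2
    · rw [if_pos hw2, T_base hw2]
    · rw [if_neg hw2, T_of_not_ev h (by omega), hget]
      · simp only [Nat.unpair_pair]
      · exact Nat.pair_lt_pair_left _ (strip_lt (by omega))

/-- The three-colouring attached to `g`. -/
def c3 (g : ℕ → ℕ) (x : ℕ) : ℕ := T g (x / 2 ^ val 2 x) (val 2 x)

theorem c3_lt (g : ℕ → ℕ) (x : ℕ) : c3 g x < 3 := T_lt _ _ _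

theorem c3_mul {g : ℕ → ℕ} {b w : ℕ} (hw : ¬ 2 ∣ w) : c3 g (2 ^ b * w) = T g w b := by
  unfold c3
  rw [val_mul (by norm_num) hw, Nat.mul_div_cancel_left _ (by positivity)]

theorem c3_rec {O : Set (ℕ →. ℕ)} {g : ℕ → ℕ}
    (hg : Nat.RecursiveIn O (fun n => Part.some (g n))) :
    Nat.RecursiveIn O (fun n => Part.some (c3 g n)) := by
  have hv := primrec_val 2
  refine rec_of_pre (Φ := fun L x =>
    T (fun s => L.getD s 0) (Nat.pair (x / 2 ^ val 2 x) (val 2 x)).unpair.1
      (Nat.pair (x / 2 ^ val 2 x) (val 2 x)).unpair.2) hg ?_ ?_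
  · exact primrec_T.comp fst (Primrec₂.natPair.comp
      (Primrec.nat_div.comp snd (primrec_pow.comp (Primrec.const 2) (hv.comp snd)))
      (hv.comp snd))
  · intro x
    simp only [Nat.unpair_pair]
    unfold c3
    refine T_local (N := x) ?_ _ (Nat.div_le_self _ _) _
    intro s hs
    rw [pre_getD _ _ _ hs]

end Pool.Agent.Work.MP_69fea5_lc
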