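import Mathlib
import Pool.Agent.Work.MP_69fea5_lc.Prim

/-! Three colours, at most two terms. -/

namespace Pool.Agent.Work.MP_69fea5_lc

theorem exists_bound {g : ℕ → ℕ} (hg : Function.Injective g) (b : ℕ) :
    ∃ M, 1 ≤ M ∧ ∀ s, g s < b → s < M := by
  have hfin : {s | g s < b}.Finite := by
    have : {s | g s < b} = g ⁻¹' (Set.Iio b) := rfl
    rw [this]
    exact (Set.finite_Iio b).preimage hg.injOn
  obtain ⟨M, hM⟩ := hfin.bddAbove
  exact ⟨M + 1, by omega, fun s hs => by have := hM hs; omega⟩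

theorem exists_val_two {x : ℕ} (hx : 0 < x) : ∃ b w, ¬ 2 ∣ w ∧ x = 2 ^ b * w := by
  obtain ⟨b, w, hw, h⟩ := Nat.exists_eq_pow_mul_and_not_dvd hx.ne' 2 (by norm_num)
  exact ⟨b, w, hw, h⟩

theorem sol_one {c : ℕ → ℕ} {n : ℕ} {X : Set ℕ} {i : ℕ} (hn : 1 ≤ n)
    (h : ∀ F : Finset ℕ, (F : Set ℕ) ⊆ X → F.Nonempty → F.card ≤ n → c (∑ x ∈ F, x) = i)
    {x : ℕ} (hx : x ∈ X) : c x = i := by
  have := h {x} (by simpa using hx) ⟨x, by simp⟩ (by simpa using hn)
  simpa using this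

theorem sol_two {c : ℕ → ℕ} {n : ℕ} {X : Set ℕ} {i : ℕ} (hn : 2 ≤ n)
    (h : ∀ F : Finset ℕ, (F : Set ℕ) ⊆ X → F.Nonempty → F.card ≤ n → c (∑ x ∈ F, x) = i)
    {x y : ℕ} (hx : x ∈ X) (hy : y ∈ X) (hxy : x ≠ y) : c (x + y) = i := by
  have := h {x, y} (by
    intro z hz
    simp only [Finset.coe_insert, Finset.coe_singleton, Set.mem_insert_iff,
      Set.mem_singleton_iff] at hz
    rcases hz with rfl | rfl
    · exact hx
    · exact hy) ⟨x, by simp⟩ (by rw [Finset.card_pair hxy]; exact hn)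
  rwa [Finset.sum_pair hxy] at this

theorem c3_div {g : ℕ → ℕ} (hg : Function.Injective g) {X : Set ℕ}
    (hX : IsSolution (c3 g) 2 X) (e : ℕ) : ∃ x ∈ X, 2 ^ (e + 1) ∣ x := by
  obtain ⟨hinf, hpos, i, hi⟩ := hX
  by_contra hcon
  push Not at hcon
  obtain ⟨M, hM1, hM⟩ := exists_bound hg (e + 1)
  have hS : (X \ Set.Iio (2 ^ (M + 1 + e))).Infinite := hinf.sdiff (Set.finite_Iio _)
  obtain ⟨x, hx, y, hy, hxy, hf⟩ := hS.exists_ne_map_eq_of_mapsTo
    (f := fun x => (val 2 x, (x / 2 ^ val 2 x) % 2 ^ (M + 1)))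
    (t := Set.Iic e ×ˢ Set.Iio (2 ^ (M + 1))) (by
      rintro x ⟨hx, -⟩
      obtain ⟨b, w, hw, rfl⟩ := exists_val_two (hpos x hx)
      simp only [Set.mem_prod, Set.mem_Iic, Set.mem_Iio]
      rw [val_mul (by norm_num) hw]
      refine ⟨?_, Nat.mod_lt _ (by positivity)⟩
      by_contra hc
      exact hcon _ hx (Dvd.dvd.mul_right (pow_dvd_pow 2 (by omega)) w))
    ((Set.finite_Iic e).prod (Set.finite_Iio _))
  obtain ⟨hxX, hx1⟩ := hx
  obtain ⟨hyX, hy1⟩ := hy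
  have hbe : val 2 x ≤ e := by
    obtain ⟨b, w, hw, hxe⟩ := exists_val_two (hpos x hxX)
    rw [hxe, val_mul (by norm_num) hw]
    by_contra hc
    exact hcon _ hxX (hxe ▸ Dvd.dvd.mul_right (pow_dvd_pow 2 (by omega)) w)
  obtain ⟨b, w, hw, hxe⟩ := exists_val_two (hpos x hxX)
  obtain ⟨b', w', hw', hye⟩ := exists_val_two (hpos y hyX)
  have hvx : val 2 x = b := by rw [hxe, val_mul (by norm_num) hw]
  have hvy : val 2 y = b' := by rw [hye, val_mul (by norm_num) hw']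
  simp only [Prod.mk.injEq] at hf
  obtain ⟨hf1, hf2⟩ := hf
  rw [hvx, hvy] at hf1 hf2
  subst hf1
  rw [hvx] at hbe
  have hdx : x / 2 ^ b = w := by rw [hxe, Nat.mul_div_cancel_left _ (by positivity)]
  have hdy : y / 2 ^ b = w' := by rw [hye, Nat.mul_div_cancel_left _ (by positivity)]
  rw [hdx, hdy] at hf2
  -- sizes
  have hwM : 2 ^ (M + 1) ≤ w := by
    by_contra hc
    apply hx1
    rw [Set.mem_Iio, hxe]
    calc 2 ^ b * w < 2 ^ b * 2 ^ (M + 1) := Nat.mul_lt_mul_of_pos_left (by omega) (by positivity)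
      _ = 2 ^ (b + (M + 1)) := by rw [← pow_add]
      _ ≤ 2 ^ (M + 1 + e) := Nat.pow_le_pow_right (by norm_num) (by omega)
  -- decompositions
  set v := w / 2 ^ (M + 1) with hv
  set v' := w' / 2 ^ (M + 1) with hv'
  set u' := w % 2 ^ (M + 1) with hu'
  have hwe : w = u' + 2 ^ (M + 1) * v := (Nat.mod_add_div _ _).symm
  have hwe' : w' = u' + 2 ^ (M + 1) * v' := by rw [hf2]; exact (Nat.mod_add_div _ _).symm
  have hv1 : 0 < v := Nat.div_pos hwM (by positivity)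
  set u := u' % 2 ^ M with hu
  set ε := u' / 2 ^ M with hε
  have hue : u' = u + 2 ^ M * ε := (Nat.mod_add_div _ _).symm
  have hult : u < 2 ^ M := Nat.mod_lt _ (by positivity)
  have hW : w = u + 2 ^ M * (ε + 2 * v) := by rw [hwe, hue, pow_succ]; ring
  have hsum : x + y = 2 ^ (b + 1) * (u + 2 ^ M * (ε + v + v')) := by
    rw [hxe, hye, hwe, hwe', hue, pow_succ, pow_succ]; ring
  have h2M : ∀ t, 2 ∣ 2 ^ M * t := fun t => Dvd.dvd.mul_right (dvd_pow_self 2 (by omega)) t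
  have hodd : ¬ 2 ∣ (u + 2 ^ M * (ε + v + v')) := by
    rw [hW] at hw
    intro hd
    exact hw (dvd_add ((Nat.dvd_add_left (h2M _)).1 hd) (h2M _))
  have h1 : c3 g x = T g w b := by rw [hxe, c3_mul hw]
  have h2 : c3 g (x + y) = T g (u + 2 ^ M * (ε + v + v')) (b + 1) := by rw [hsum, c3_mul hodd]
  have hM' : ∀ s, g s < b + 1 → s < M := fun s hs => hM s (by omega)
  rw [T_add hult hM1 (b + 1) hM' _ (Nat.add_pos_left (Nat.add_pos_right _ hv1) _)] at h2
  have h3 : T g w (b + 1) = H g u (b + 1) := by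
    rw [hW]
    exact T_add hult hM1 (b + 1) hM' _ (Nat.add_pos_right _ (Nat.mul_pos (by norm_num) hv1))
  have h4 : c3 g x = c3 g (x + y) := by
    rw [sol_one (by norm_num) hi hxX, sol_two le_rfl hi hxX hyX hxy]
  exact T_adj g w b (by rw [← h1, h4, h2, ← h3])

theorem c3_settled {g : ℕ → ℕ} (hg : Function.Injective g) {X : Set ℕ}
    (hX : IsSolution (c3 g) 2 X) (e x : ℕ) (hx : x ∈ X) (hd : 2 ^ (e + 1) ∣ x) (s : ℕ)
    (hs : x ≤ s) : g s ≠ e := by
  have hX' := hX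
  obtain ⟨hinf, hpos, i, hi⟩ := hX
  obtain ⟨b, w, hw, hxe⟩ := exists_val_two (hpos x hx)
  have hw0 : 0 < w := Nat.pos_of_ne_zero (by rintro rfl; exact hw (dvd_zero 2))
  have hb : e + 1 ≤ b := by
    by_contra hc
    apply hw
    obtain ⟨k, hk⟩ := hd
    have h2 : 2 ^ (e + 1) = 2 ^ b * 2 ^ (e + 1 - b) := by rw [← pow_add]; congr 1; omega
    rw [hxe, h2, mul_assoc] at hk
    have h3 := Nat.eq_of_mul_eq_mul_left (by positivity) hk
    rw [h3]
    exact Dvd.dvd.mul_right (dvd_pow_self 2 (by omega)) k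
  obtain ⟨M0, hM1, hM0⟩ := exists_bound hg b
  obtain ⟨M, hMM, hwM⟩ : ∃ M, M0 ≤ M ∧ w < 2 ^ M :=
    ⟨max M0 w, le_max_left _ _, lt_of_lt_of_le (Nat.lt_pow_self (by norm_num))
      (Nat.pow_le_pow_right (by norm_num) (le_max_right M0 w))⟩
  have hM : ∀ s, g s < b → s < M := fun s hs => by have := hM0 s hs; omega
  obtain ⟨y, hy, hyd⟩ := c3_div hg hX' (b + M)
  obtain ⟨k, hk⟩ := hyd
  have hk0 : 0 < k := Nat.pos_of_ne_zero (by
    rintro rfl; have := hpos y hy; omega)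
  have hsum : x + y = 2 ^ b * (w + 2 ^ M * (2 * k)) := by
    rw [hxe, hk, pow_succ, pow_add]; ring
  have hodd : ¬ 2 ∣ (w + 2 ^ M * (2 * k)) := by
    intro h
    apply hw
    have : 2 ∣ 2 ^ M * (2 * k) := ⟨2 ^ M * k, by ring⟩
    exact (Nat.dvd_add_left this).1 h
  have hxy : x ≠ y := by
    intro h
    apply hw
    have h1 : 2 ^ b * w = 2 ^ b * (2 * (2 ^ M * k)) := by
      rw [← hxe, h, hk, pow_succ, pow_add]; ring
    have := Nat.eq_of_mul_eq_mul_left (by positivity) h1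
    exact ⟨_, this⟩
  have h1 : c3 g x = T g w b := by rw [hxe, c3_mul hw]
  have h2 : c3 g (x + y) = T g (w + 2 ^ M * (2 * k)) b := by rw [hsum, c3_mul hodd]
  rw [T_add hwM (by omega) b hM _ (by omega)] at h2
  have h4 : c3 g x = c3 g (x + y) := by
    rw [sol_one (by norm_num) hi hx, sol_two le_rfl hi hx hy hxy]
  have hE : ¬ EV g 2 w b := fun hE => H_ne hE (by rw [← h2, ← h4, h1])
  intro hgs
  apply hE
  refine ⟨s, ?_, by omega⟩
  calc w ≤ 2 ^ b * w := Nat.le_mul_of_pos_left _ (by positivity)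
    _ = x := hxe.symm
    _ ≤ s := hs
    _ < 2 ^ s := Nat.lt_pow_self (by norm_num)

theorem three_colours {O : Set (ℕ →. ℕ)} {g : ℕ → ℕ} (hg : Function.Injective g) {X : Set ℕ}
    (hX : IsSolution (c3 g) 2 X) (hO : Nat.RecursiveIn O (fun n => Part.some (g n)))
    (hXO : Nat.RecursiveIn O (charFn X)) : Nat.RecursiveIn O (charFn (Set.range g)) := by
  refine range_rec (R := fun e x => x % 2 ^ (e + 1) = 0) hO hXO ?_ ?_ ?_
  · exact Primrec.eq.comp (Primrec.nat_mod.comp Primrec.snd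
      (primrec_pow.comp (Primrec.const 2) (Primrec.succ.comp Primrec.fst))) (Primrec.const 0)
  · intro e
    obtain ⟨x, hx, hd⟩ := c3_div hg hX e
    exact ⟨x, hx, Nat.mod_eq_zero_of_dvd hd⟩
  · intro e x hx hR s hs
    exact c3_settled hg hX e x hx (Nat.dvd_of_mod_eq_zero hR) s hs

end Pool.Agent.Work.MP_69fea5_lc
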