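import Pool.Agent.Work.MP_69fea5_lc.DJOracle

set_option autoImplicit false

/-! The algorithm computing `K` from a solution. -/

namespace Pool.Agent.Work.MP_69fea5_lc.DJ

open Primrec

/-- A level above the block `f`. -/
def lv (f : ℕ) : ℕ := f + S f + 1

/-- `f` and `S f` have no digits below `k`. -/
def Above (k f : ℕ) : Prop := f % 2 ^ k = 0 ∧ S f % 2 ^ k = 0

/-- `f` is the mask of a nonempty subset of the set with mask `σ`. -/
def Good (σ f : ℕ) : Prop := f ≠ 0 ∧ ∀ i < f, f.testBit i = true → σ.testBit i = true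

lemma Good.V {X : Set ℕ} {N f : ℕ} (h : Good (seg X N) f) : V X f := by
  refine ⟨Nat.pos_of_ne_zero h.1, fun i hi => ?_⟩
  rw [mem_bits] at hi
  have hlt : i < f := by
    by_contra hc
    rw [testBit_false_of_le (not_lt.mp hc)] at hi
    exact Bool.noConfusion hi
  exact ((testBit_seg X N i).mp (h.2 i hlt hi)).2

lemma V.good {X : Set ℕ} {N f : ℕ} (h : V X f) (hN : f ≤ N) : Good (seg X N) f := by
  refine ⟨by have := h.1; omega, fun i hi hb => ?_⟩
  rw [testBit_seg]
  exact ⟨by omega, h.2 i (mem_bits.mpr hb)⟩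

lemma Bl.above {X : Set ℕ} {k k' f : ℕ} (h : Bl X k k' f) : Above k f :=
  ⟨Nat.mod_eq_zero_of_dvd h.2.1, Nat.mod_eq_zero_of_dvd h.2.2.1⟩

lemma Above.mono {k k' f : ℕ} (h : Above k f) (hk : k' ≤ k) : Above k' f :=
  ⟨Nat.mod_eq_zero_of_dvd ((pow_dvd_pow 2 hk).trans (Nat.dvd_of_mod_eq_zero h.1)),
    Nat.mod_eq_zero_of_dvd ((pow_dvd_pow 2 hk).trans (Nat.dvd_of_mod_eq_zero h.2))⟩

lemma V.bl {X : Set ℕ} {k f : ℕ} (h : V X f) (hk : Above k f) : Bl X k (lv f) f := by
  refine ⟨h, Nat.dvd_of_mod_eq_zero hk.1, Nat.dvd_of_mod_eq_zero hk.2, ?_, ?_⟩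
  · exact lt_of_lt_of_le Nat.lt_two_pow_self
      (Nat.pow_le_pow_right (by norm_num) (by unfold lv; omega))
  · exact lt_of_lt_of_le Nat.lt_two_pow_self
      (Nat.pow_le_pow_right (by norm_num) (by unfold lv; omega))

lemma pr_lv : Primrec lv := succ.comp (nat_add.comp Primrec.id pr_S)

lemma pr_above : PrimrecRel Above := by
  have h1 : PrimrecPred fun t : ℕ × ℕ => t.2 % 2 ^ t.1 = 0 :=
    Primrec.eq.comp (nat_mod.comp snd (pr_pow.comp (const 2) fst)) (const 0)
  have h2 : PrimrecPred fun t : ℕ × ℕ => S t.2 % 2 ^ t.1 = 0 :=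
    Primrec.eq.comp (nat_mod.comp (pr_S.comp snd) (pr_pow.comp (const 2) fst)) (const 0)
  exact h1.and h2

lemma pr_good : PrimrecRel Good := by
  have h1 : PrimrecPred fun t : ℕ × ℕ => t.2 ≠ 0 := (Primrec.eq.comp snd (const 0)).not
  have h2 : PrimrecPred fun t : ℕ × ℕ => ∀ i < t.2, t.2.testBit i = true → t.1.testBit i = true := by
    refine pp_forall (R := fun (t : ℕ × ℕ) i => t.2.testBit i = true → t.1.testBit i = true)
      (pp_imp ?_ ?_) snd
    · exact pp_bool (pr_testBit.comp (snd.comp fst) snd)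
    · exact pp_bool (pr_testBit.comp (fst.comp fst) snd)
  exact h1.and h2

variable {A : Approx} {X : Set ℕ}

/-- In the first case the initial guess is right. -/
def CondA (A : Approx) (k a f g g' σ : ℕ) : Prop :=
  Good σ f ∧ Good σ g ∧ Good σ g' ∧ Above (k + a + 1) f ∧ Above (lv f) g ∧ Above (lv g) g' ∧
    ∀ s < mu f, A.ix a s < mu g

/-- In the second case we search for a change followed by a junction without a change. -/
def CondB (A : Approx) (k a x y₁ y₂ g g' σ : ℕ) : Prop :=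
  (Good σ x ∧ Good σ y₁ ∧ Good σ y₂ ∧ Good σ g ∧ Good σ g') ∧
  (Above (k + a + 1) x ∧ Above (lv x) y₁ ∧ Above (lv y₁) y₂ ∧ Above (lv y₂) g ∧ Above (lv g) g') ∧
  (∀ p < lam x, ∀ s < lam y₂, A.ix p s < mu g) ∧
  (∃ p < lam x, A.Kst (mu y₁) (lam g') p = true ∧ ¬ A.Kst (mu x) (lam g') p = true) ∧
  (∀ p < lam x, A.Kst (lam y₂) (lam g') p = true → A.Kst (mu y₁) (lam g') p = true)

/-- The next block, as far as we like. -/
lemma next (hX : X.Infinite) (h0 : 0 ∉ X) (k : ℕ) : ∃ f, V X f ∧ Above k f ∧ k ≤ mu f := by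
  obtain ⟨k', f, hf⟩ := exists_Bl hX k
  exact ⟨f, hf.1, hf.above, hf.le_hi h0⟩

section primrec

variable {γ : Type*} [Primcodable γ]

lemma pr_condA (hA : PrimApprox A) (k : ℕ) {a f g g' σ : γ → ℕ} (ha : Primrec a) (hf : Primrec f)
    (hg : Primrec g) (hg' : Primrec g') (hσ : Primrec σ) :
    PrimrecPred fun t => CondA A k (a t) (f t) (g t) (g' t) (σ t) := by
  have p1 : PrimrecPred fun t => Good (σ t) (f t) := pr_good.comp hσ hf
  have p2 : PrimrecPred fun t => Good (σ t) (g t) := pr_good.comp hσ hg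
  have p3 : PrimrecPred fun t => Good (σ t) (g' t) := pr_good.comp hσ hg'
  have p4 : PrimrecPred fun t => Above (k + a t + 1) (f t) :=
    pr_above.comp (succ.comp (nat_add.comp (const k) ha)) hf
  have p5 : PrimrecPred fun t => Above (lv (f t)) (g t) := pr_above.comp (pr_lv.comp hf) hg
  have p6 : PrimrecPred fun t => Above (lv (g t)) (g' t) := pr_above.comp (pr_lv.comp hg) hg'
  have p7 : PrimrecPred fun t => ∀ s < mu (f t), A.ix (a t) s < mu (g t) := by
    refine pp_forall (R := fun t s => A.ix (a t) s < mu (g t)) ?_ (pr_mu.comp hf)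
    exact nat_lt.comp (hA.ix.comp (ha.comp fst) snd) (pr_mu.comp (hg.comp fst))
  exact p1.and (p2.and (p3.and (p4.and (p5.and (p6.and p7)))))

lemma pr_kst (hA : PrimApprox A) {b m p : γ → ℕ} (hb : Primrec b) (hm : Primrec m)
    (hp : Primrec p) : PrimrecPred fun t => A.Kst (b t) (m t) (p t) = true :=
  pp_bool (hA.Kst.comp (hb.pair (hm.pair hp)))

lemma pr_condB₁ {x y₁ y₂ g g' σ : γ → ℕ} (hx : Primrec x)
    (hy₁ : Primrec y₁) (hy₂ : Primrec y₂) (hg : Primrec g) (hg' : Primrec g') (hσ : Primrec σ) :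
    PrimrecPred fun t => Good (σ t) (x t) ∧ Good (σ t) (y₁ t) ∧ Good (σ t) (y₂ t) ∧
      Good (σ t) (g t) ∧ Good (σ t) (g' t) := by
  have p1 : PrimrecPred fun t => Good (σ t) (x t) := pr_good.comp hσ hx
  have p2 : PrimrecPred fun t => Good (σ t) (y₁ t) := pr_good.comp hσ hy₁
  have p3 : PrimrecPred fun t => Good (σ t) (y₂ t) := pr_good.comp hσ hy₂
  have p4 : PrimrecPred fun t => Good (σ t) (g t) := pr_good.comp hσ hg
  have p5 : PrimrecPred fun t => Good (σ t) (g' t) := pr_good.comp hσ hg'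
  exact p1.and (p2.and (p3.and (p4.and p5)))

lemma pr_condB₂ (k : ℕ) {a x y₁ y₂ g g' : γ → ℕ} (ha : Primrec a) (hx : Primrec x)
    (hy₁ : Primrec y₁) (hy₂ : Primrec y₂) (hg : Primrec g) (hg' : Primrec g') :
    PrimrecPred fun t => Above (k + a t + 1) (x t) ∧ Above (lv (x t)) (y₁ t) ∧
      Above (lv (y₁ t)) (y₂ t) ∧ Above (lv (y₂ t)) (g t) ∧ Above (lv (g t)) (g' t) := by
  have p1 : PrimrecPred fun t => Above (k + a t + 1) (x t) :=
    pr_above.comp (succ.comp (nat_add.comp (const k) ha)) hx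
  have p2 : PrimrecPred fun t => Above (lv (x t)) (y₁ t) := pr_above.comp (pr_lv.comp hx) hy₁
  have p3 : PrimrecPred fun t => Above (lv (y₁ t)) (y₂ t) := pr_above.comp (pr_lv.comp hy₁) hy₂
  have p4 : PrimrecPred fun t => Above (lv (y₂ t)) (g t) := pr_above.comp (pr_lv.comp hy₂) hg
  have p5 : PrimrecPred fun t => Above (lv (g t)) (g' t) := pr_above.comp (pr_lv.comp hg) hg'
  exact p1.and (p2.and (p3.and (p4.and p5)))

lemma pr_condB₃ (hA : PrimApprox A) {x y₂ g : γ → ℕ} (hx : Primrec x) (hy₂ : Primrec y₂)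
    (hg : Primrec g) :
    PrimrecPred fun t => ∀ p < lam (x t), ∀ s < lam (y₂ t), A.ix p s < mu (g t) := by
  refine pp_forall (R := fun t p => ∀ s < lam (y₂ t), A.ix p s < mu (g t)) ?_ (pr_lam.comp hx)
  refine pp_forall (R := fun (t : γ × ℕ) s => A.ix t.2 s < mu (g t.1)) ?_
    (pr_lam.comp (hy₂.comp fst))
  exact nat_lt.comp (hA.ix.comp (snd.comp fst) snd) (pr_mu.comp (hg.comp (fst.comp fst)))

lemma pr_condB₄ (hA : PrimApprox A) {x y₁ g' : γ → ℕ} (hx : Primrec x) (hy₁ : Primrec y₁)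
    (hg' : Primrec g') :
    PrimrecPred fun t => ∃ p < lam (x t), A.Kst (mu (y₁ t)) (lam (g' t)) p = true ∧
      ¬ A.Kst (mu (x t)) (lam (g' t)) p = true := by
  refine pp_exists (R := fun t p => A.Kst (mu (y₁ t)) (lam (g' t)) p = true ∧
      ¬ A.Kst (mu (x t)) (lam (g' t)) p = true) ?_ (pr_lam.comp hx)
  have p1 : PrimrecPred fun t : γ × ℕ => A.Kst (mu (y₁ t.1)) (lam (g' t.1)) t.2 = true :=
    pr_kst hA (pr_mu.comp (hy₁.comp fst)) (pr_lam.comp (hg'.comp fst)) snd
  have p2 : PrimrecPred fun t : γ × ℕ => A.Kst (mu (x t.1)) (lam (g' t.1)) t.2 = true :=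
    pr_kst hA (pr_mu.comp (hx.comp fst)) (pr_lam.comp (hg'.comp fst)) snd
  exact p1.and p2.not

lemma pr_condB₅ (hA : PrimApprox A) {x y₁ y₂ g' : γ → ℕ} (hx : Primrec x) (hy₁ : Primrec y₁)
    (hy₂ : Primrec y₂) (hg' : Primrec g') :
    PrimrecPred fun t => ∀ p < lam (x t), A.Kst (lam (y₂ t)) (lam (g' t)) p = true →
      A.Kst (mu (y₁ t)) (lam (g' t)) p = true := by
  refine pp_forall (R := fun t p => A.Kst (lam (y₂ t)) (lam (g' t)) p = true →
      A.Kst (mu (y₁ t)) (lam (g' t)) p = true) ?_ (pr_lam.comp hx)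
  have p1 : PrimrecPred fun t : γ × ℕ => A.Kst (lam (y₂ t.1)) (lam (g' t.1)) t.2 = true :=
    pr_kst hA (pr_lam.comp (hy₂.comp fst)) (pr_lam.comp (hg'.comp fst)) snd
  have p2 : PrimrecPred fun t : γ × ℕ => A.Kst (mu (y₁ t.1)) (lam (g' t.1)) t.2 = true :=
    pr_kst hA (pr_mu.comp (hy₁.comp fst)) (pr_lam.comp (hg'.comp fst)) snd
  exact pp_imp p1 p2

lemma pr_condB (hA : PrimApprox A) (k : ℕ) {a x y₁ y₂ g g' σ : γ → ℕ} (ha : Primrec a)
    (hx : Primrec x) (hy₁ : Primrec y₁) (hy₂ : Primrec y₂) (hg : Primrec g) (hg' : Primrec g')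
    (hσ : Primrec σ) :
    PrimrecPred fun t => CondB A k (a t) (x t) (y₁ t) (y₂ t) (g t) (g' t) (σ t) :=
  (pr_condB₁ hx hy₁ hy₂ hg hg' hσ).and ((pr_condB₂ k ha hx hy₁ hy₂ hg hg').and
    ((pr_condB₃ hA hx hy₂ hg).and ((pr_condB₄ hA hx hy₁ hg').and
      (pr_condB₅ hA hx hy₁ hy₂ hg'))))

end primrec

open Classical in
/-- The test of the first case. -/
noncomputable def PA (A : Approx) (k a u σ : ℕ) : Bool :=
  decide (CondA A k a u.unpair.1.unpair.1 u.unpair.1.unpair.2.unpair.1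
    u.unpair.1.unpair.2.unpair.2 σ)

/-- The output of the first case. -/
def outA (A : Approx) (a u : ℕ) : ℕ :=
  if A.Kst (mu u.unpair.1.unpair.1) (lam u.unpair.1.unpair.2.unpair.2) a = true then 1 else 0

open Classical in
/-- The test of the second case. -/
noncomputable def PB (A : Approx) (k a u σ : ℕ) : Bool :=
  decide (CondB A k a u.unpair.1.unpair.1 u.unpair.1.unpair.2.unpair.1
    u.unpair.1.unpair.2.unpair.2.unpair.1 u.unpair.1.unpair.2.unpair.2.unpair.2.unpair.1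
    u.unpair.1.unpair.2.unpair.2.unpair.2.unpair.2 σ)

/-- The output of the second case. -/
def outB (A : Approx) (a u : ℕ) : ℕ :=
  if A.Kst (mu u.unpair.1.unpair.2.unpair.1)
    (lam u.unpair.1.unpair.2.unpair.2.unpair.2.unpair.2) a = true then 1 else 0

lemma pr_u1 : Primrec fun t : ℕ => t.unpair.1 := fst.comp Primrec.unpair

lemma pr_u2 : Primrec fun t : ℕ => t.unpair.2 := snd.comp Primrec.unpair

lemma pr_PA (hA : PrimApprox A) (k : ℕ) :
    Primrec fun t : ℕ × ℕ × ℕ => PA A k t.1 t.2.1 t.2.2 := by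
  classical
  have v : Primrec fun t : ℕ × ℕ × ℕ => t.2.1.unpair.1 := pr_u1.comp (fst.comp snd)
  have v2 : Primrec fun t : ℕ × ℕ × ℕ => t.2.1.unpair.1.unpair.2 := pr_u2.comp v
  exact PrimrecPred.decide (pr_condA hA k (a := fun t : ℕ × ℕ × ℕ => t.1) fst
    (pr_u1.comp v) (pr_u1.comp v2) (pr_u2.comp v2) (snd.comp snd))

lemma pr_outA (hA : PrimApprox A) : Primrec₂ (outA A) := by
  have v : Primrec fun t : ℕ × ℕ => t.2.unpair.1 := pr_u1.comp snd
  have v2 : Primrec fun t : ℕ × ℕ => t.2.unpair.1.unpair.2 := pr_u2.comp v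
  exact Primrec.ite (pr_kst hA (pr_mu.comp (pr_u1.comp v)) (pr_lam.comp (pr_u2.comp v2)) fst)
    (const 1) (const 0)

lemma pr_PB (hA : PrimApprox A) (k : ℕ) :
    Primrec fun t : ℕ × ℕ × ℕ => PB A k t.1 t.2.1 t.2.2 := by
  classical
  have v : Primrec fun t : ℕ × ℕ × ℕ => t.2.1.unpair.1 := pr_u1.comp (fst.comp snd)
  have v2 : Primrec fun t : ℕ × ℕ × ℕ => t.2.1.unpair.1.unpair.2 := pr_u2.comp v
  have v3 : Primrec fun t : ℕ × ℕ × ℕ => t.2.1.unpair.1.unpair.2.unpair.2 := pr_u2.comp v2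
  have v4 : Primrec fun t : ℕ × ℕ × ℕ => t.2.1.unpair.1.unpair.2.unpair.2.unpair.2 :=
    pr_u2.comp v3
  exact PrimrecPred.decide (pr_condB hA k (a := fun t : ℕ × ℕ × ℕ => t.1) fst
    (pr_u1.comp v) (pr_u1.comp v2) (pr_u1.comp v3) (pr_u1.comp v4) (pr_u2.comp v4)
    (snd.comp snd))

lemma pr_outB (hA : PrimApprox A) : Primrec₂ (outB A) := by
  have v : Primrec fun t : ℕ × ℕ => t.2.unpair.1 := pr_u1.comp snd
  have v2 : Primrec fun t : ℕ × ℕ => t.2.unpair.1.unpair.2 := pr_u2.comp v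
  have v3 : Primrec fun t : ℕ × ℕ => t.2.unpair.1.unpair.2.unpair.2 := pr_u2.comp v2
  have v4 : Primrec fun t : ℕ × ℕ => t.2.unpair.1.unpair.2.unpair.2.unpair.2 :=
    pr_u2.comp v3
  exact Primrec.ite (pr_kst hA (pr_mu.comp (pr_u1.comp v2)) (pr_lam.comp (pr_u2.comp v4)) fst)
    (const 1) (const 0)

/-- Every solution computes `K`. -/
theorem Sol.computes (hA : PrimApprox A) (hS : Sol A X) [DecidablePred A.K] :
    Nat.RecursiveIn {chi X} (fun a => Part.some (if A.K a then 1 else 0)) := by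
  classical
  obtain ⟨κ, hκ⟩ := hS.claimA
  by_cases hcase : ∃ L, ∀ k k' f, κ ≤ k → L ≤ k → Bl X k k' f →
      ∀ p < lam f, A.K p → A.Ka (mu f) p
  · -- first case
    obtain ⟨L, hL⟩ := hcase
    refine search X (PA A (κ + L)) (pr_PA hA _) (outA A) (pr_outA hA)
      (fun a => if A.K a then 1 else 0) ?_ ?_
    · intro a
      obtain ⟨f, f1, f2, -⟩ := next hS.inf hS.pos (κ + L + a + 1)
      obtain ⟨N, hN⟩ := A.ix_bound (a + 1) (mu f)
      obtain ⟨g, g1, g2, g3⟩ := next hS.inf hS.pos (max (lv f) N)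
      obtain ⟨g', g1', g2', -⟩ := next hS.inf hS.pos (lv g)
      refine ⟨Nat.pair (Nat.pair f (Nat.pair g g')) (f + g + g'), ?_⟩
      simp only [PA, Nat.unpair_pair, decide_eq_true_eq]
      refine ⟨f1.good (by omega), g1.good (by omega), g1'.good (by omega), f2,
        g2.mono (le_max_left _ _), g2', fun s hs => ?_⟩
      have := hN a (by omega) s hs
      have := le_max_right (lv f) N
      omega
    · intro a u hu
      simp only [PA, decide_eq_true_eq] at hu
      simp only [outA]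
      generalize u.unpair.1.unpair.1 = f at hu ⊢
      generalize u.unpair.1.unpair.2.unpair.1 = g at hu ⊢
      generalize u.unpair.1.unpair.2.unpair.2 = g' at hu ⊢
      obtain ⟨c1, c2, c3, c4, c5, c6, c7⟩ := hu
      have bf : Bl X (κ + L + a + 1) (lv f) f := c1.V.bl c4
      have bg : Bl X (lv f) (lv g) g := c2.V.bl c5
      have bg' : Bl X (lv g) (lv g') g' := c3.V.bl c6
      have hlt := bf.lt
      have hh : A.h (mu g) (lam g') := hκ _ _ _ _ _ (by omega) bg bg'
      have hal : a < lam f := by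
        have : κ + L + a + 1 ≤ lam f := bf.le_lo hS.pos
        omega
      have e1 : A.K a ↔ A.Ka (mu f) a :=
        ⟨hL _ _ _ (by omega) (by omega) bf a hal, A.K_of_Ka⟩
      have e2 : A.Kst (mu f) (lam g') a = true ↔ A.Ka (mu f) a := by
        unfold Approx.Kst Approx.Ka
        rw [decide_eq_true_eq]
        constructor
        · rintro ⟨s, hs, h⟩
          exact ⟨s, hs, fun hH => h (hh _ (c7 s hs) hH)⟩
        · rintro ⟨s, hs, h⟩
          exact ⟨s, hs, fun hH => h ⟨_, hH⟩⟩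
      simp only [e1, e2]
  · -- second case
    push Not at hcase
    refine search X (PB A κ) (pr_PB hA _) (outB A) (pr_outB hA)
      (fun a => if A.K a then 1 else 0) ?_ ?_
    · intro a
      obtain ⟨k₀, k₁, x, c1, c2, bx, p, hp, hK, hKn⟩ := hcase (κ + a + 1)
      -- a stage by which `K` below `lam x` has been found
      have hs₀ : ∃ s₀, ∀ p < lam x, A.K p → A.Ka s₀ p := by
        have : ∀ l, ∃ s₀, ∀ p < l, A.K p → A.Ka s₀ p := by
          intro l
          induction l with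
          | zero => exact ⟨0, fun p hp => by omega⟩
          | succ l ih =>
            obtain ⟨b, h⟩ := ih
            by_cases hl : A.K l
            · obtain ⟨s, hs⟩ := hl
              refine ⟨max b (s + 1), fun p hp hK => ?_⟩
              rcases Nat.lt_succ_iff_lt_or_eq.mp hp with hp | rfl
              · exact A.Ka_mono (le_max_left _ _) (h p hp hK)
              · exact ⟨s, lt_of_lt_of_le (Nat.lt_succ_self s) (le_max_right _ _), hs⟩
            · refine ⟨b, fun p hp hK => ?_⟩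
              rcases Nat.lt_succ_iff_lt_or_eq.mp hp with hp | rfl
              · exact h p hp hK
              · exact absurd hK hl
        exact this _
      obtain ⟨s₀, hs₀⟩ := hs₀
      have vx := bx.1
      have ax : Above (κ + a + 1) x := bx.above.mono c2
      obtain ⟨y₁, y11, y12, y13⟩ := next hS.inf hS.pos (max (lv x) s₀)
      obtain ⟨y₂, y21, y22, -⟩ := next hS.inf hS.pos (lv y₁)
      obtain ⟨N, hN⟩ := A.ix_bound (lam x) (lam y₂)
      obtain ⟨g, g1, g2, g3⟩ := next hS.inf hS.pos (max (lv y₂) N)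
      obtain ⟨g', g1', g2', -⟩ := next hS.inf hS.pos (lv g)
      have by1 : Bl X (lv x) (lv y₁) y₁ := y11.bl (y12.mono (le_max_left _ _))
      have by2 : Bl X (lv y₁) (lv y₂) y₂ := y21.bl y22
      have bg : Bl X (lv y₂) (lv g) g := g1.bl (g2.mono (le_max_left _ _))
      have bg' : Bl X (lv g) (lv g') g' := g1'.bl g2'
      have bx' : Bl X (κ + a + 1) (lv x) x := vx.bl ax
      have l1 := bx'.lt
      have l2 := by1.lt
      have l3 := by2.lt
      have l4 := bg.lt
      have hh : A.h (mu g) (lam g') := hκ _ _ _ _ _ (by omega) bg bg'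
      have hNg : ∀ p < lam x, ∀ s < lam y₂, A.ix p s < mu g := by
        intro p hp s hs
        have := hN p hp s hs
        have := le_max_right (lv y₂) N
        omega
      have kst : ∀ b ≤ lam y₂, ∀ p < lam x, (A.Kst b (lam g') p = true ↔ A.Ka b p) :=
        fun b hb p hp => A.Kst_iff
          (fun p hp s hs => hNg p hp s (by omega)) hh hp
      have m1 : mu x < lv x := bx'.hi_lt hS.pos
      have m2 : mu y₁ < lv y₁ := by1.hi_lt hS.pos
      have m3 : lv y₁ ≤ lam y₂ := by2.le_lo hS.pos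
      have m4 : s₀ ≤ mu y₁ := le_trans (le_max_right _ _) y13
      refine ⟨Nat.pair (Nat.pair x (Nat.pair y₁ (Nat.pair y₂ (Nat.pair g g'))))
        (x + y₁ + y₂ + g + g'), ?_⟩
      simp only [PB, Nat.unpair_pair, decide_eq_true_eq]
      refine ⟨⟨vx.good (by omega), y11.good (by omega), y21.good (by omega), g1.good (by omega),
        g1'.good (by omega)⟩, ⟨ax, y12.mono (le_max_left _ _), y22, g2.mono (le_max_left _ _),
        g2'⟩, hNg, ⟨p, hp, ?_, ?_⟩, ?_⟩
      · rw [kst _ (by omega) p hp]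
        exact A.Ka_mono m4 (hs₀ p hp hK)
      · rw [kst _ (by omega) p hp]
        exact hKn
      · intro p hp h
        rw [kst _ (by omega) p hp]
        exact A.Ka_mono m4 (hs₀ p hp (A.K_of_Ka ((kst _ le_rfl p hp).mp h)))
    · intro a u hu
      simp only [PB, decide_eq_true_eq] at hu
      simp only [outB]
      generalize u.unpair.1.unpair.1 = x at hu ⊢
      generalize u.unpair.1.unpair.2.unpair.1 = y₁ at hu ⊢
      generalize u.unpair.1.unpair.2.unpair.2.unpair.1 = y₂ at hu ⊢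
      generalize u.unpair.1.unpair.2.unpair.2.unpair.2.unpair.1 = g at hu ⊢
      generalize u.unpair.1.unpair.2.unpair.2.unpair.2.unpair.2 = g' at hu ⊢
      obtain ⟨⟨v1, v2, v3, v4, v5⟩, ⟨a1, a2, a3, a4, a5⟩, hNg, hch, hst⟩ := hu
      have bx : Bl X (κ + a + 1) (lv x) x := v1.V.bl a1
      have by1 : Bl X (lv x) (lv y₁) y₁ := v2.V.bl a2
      have by2 : Bl X (lv y₁) (lv y₂) y₂ := v3.V.bl a3
      have bg : Bl X (lv y₂) (lv g) g := v4.V.bl a4
      have bg' : Bl X (lv g) (lv g') g' := v5.V.bl a5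
      have l1 := bx.lt
      have l2 := by1.lt
      have l3 := by2.lt
      have l4 := bg.lt
      have hh : A.h (mu g) (lam g') := hκ _ _ _ _ _ (by omega) bg bg'
      have kst : ∀ b ≤ lam y₂, ∀ p < lam x, (A.Kst b (lam g') p = true ↔ A.Ka b p) :=
        fun b hb p hp => A.Kst_iff
          (fun p hp s hs => hNg p hp s (by omega)) hh hp
      have m1 : mu x < lv x := bx.hi_lt hS.pos
      have m2 : mu y₁ < lv y₁ := by1.hi_lt hS.pos
      have m3 : lv y₁ ≤ lam y₂ := by2.le_lo hS.pos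
      have m5 : κ + a + 1 ≤ lam x := bx.le_lo hS.pos
      have fin := hS.claimC hκ (by omega) bx by1 by2 ?_ ?_ a (by omega)
      · have e1 : A.K a ↔ A.Ka (mu y₁) a := ⟨fin, A.K_of_Ka⟩
        have e2 := kst (mu y₁) (by omega) a (by omega)
        simp only [e1, e2]
      · obtain ⟨p, hp, h1, h2⟩ := hch
        rw [kst _ (by omega) p hp] at h1 h2
        exact ⟨p, hp, h1, h2⟩
      · intro p hp h
        have := hst p hp ((kst _ le_rfl p hp).mpr h)
        rwa [kst _ (by omega) p hp] at this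

end Pool.Agent.Work.MP_69fea5_lc.DJ
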