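import Mathlib

set_option autoImplicit false

/-! Binary positions, gap sums and the double difference identity. -/

namespace Pool.Agent.Work.MP_69fea5_lc.DJ

/-- The increasing list of the positions of the binary digits `1` of `n`. -/
def bits (n : ℕ) : List ℕ := (List.range n).filter (fun i => n.testBit i)

/-- The lowest position of a list (`0` for the empty list). -/
def lo (L : List ℕ) : ℕ := L.headD 0

/-- The highest position of a list (`0` for the empty list). -/
def hi (L : List ℕ) : ℕ := L.getLastD 0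

/-- The parity of the number of gaps (pairs of consecutive elements) `(a, b)` of the list with
`w a b = true`. -/
def gsum (w : ℕ → ℕ → Bool) : List ℕ → Bool
  | [] => false
  | [_] => false
  | a :: b :: L => xor (w a b) (gsum w (b :: L))

lemma filter_range_ext (p : ℕ → Bool) (N k : ℕ) (h : ∀ i, N ≤ i → p i = false) :
    (List.range (N + k)).filter p = (List.range N).filter p := by
  induction k with
  | zero => rfl
  | succ k ih =>
    rw [← Nat.add_assoc, List.range_succ, List.filter_append, ih]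
    simp [h (N + k) (by omega)]

lemma testBit_false_of_le {n i : ℕ} (h : n ≤ i) : n.testBit i = false :=
  Nat.testBit_lt_two_pow (lt_of_le_of_lt h Nat.lt_two_pow_self)

lemma bits_eq (n M : ℕ) (h : n ≤ M) :
    bits n = (List.range M).filter (fun i => n.testBit i) := by
  obtain ⟨k, rfl⟩ := Nat.exists_eq_add_of_le h
  rw [filter_range_ext _ _ _ (fun i hi => testBit_false_of_le hi)]
  rfl

lemma mem_bits {n i : ℕ} : i ∈ bits n ↔ n.testBit i = true := by
  unfold bits
  rw [List.mem_filter]
  constructor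
  · exact fun h => h.2
  · intro h
    refine ⟨?_, h⟩
    rw [List.mem_range]
    by_contra hc
    rw [testBit_false_of_le (not_lt.mp hc)] at h
    exact Bool.noConfusion h

lemma bits_add {x y k : ℕ} (hx : x < 2 ^ k) (hy : 2 ^ k ∣ y) :
    bits (x + y) = bits x ++ bits y := by
  obtain ⟨z, rfl⟩ := hy
  set M := x + 2 ^ k * z with hM
  have h1 : bits (x + 2 ^ k * z) = (List.range (k + M)).filter
      (fun i => (x + 2 ^ k * z).testBit i) := bits_eq _ _ (by omega)
  have h2 : bits x = (List.range k).filter (fun i => x.testBit i) := by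
    rw [bits_eq x (k + x) (by omega)]
    exact filter_range_ext _ _ _ (fun i hi => Nat.testBit_lt_two_pow
      (lt_of_lt_of_le hx (Nat.pow_le_pow_right (by norm_num) hi)))
  have h3 : bits (2 ^ k * z) = (List.range (k + M)).filter (fun i => (2 ^ k * z).testBit i) :=
    bits_eq _ _ (by omega)
  have hb : ∀ i, (x + 2 ^ k * z).testBit i = if i < k then x.testBit i else z.testBit (i - k) := by
    intro i
    rw [Nat.add_comm, Nat.testBit_two_pow_mul_add _ hx]
  have hb' : ∀ i, (2 ^ k * z).testBit i = if i < k then false else z.testBit (i - k) := by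
    intro i
    rw [Nat.testBit_two_pow_mul]
    by_cases h : i < k
    · simp [h]
    · simp [h, not_lt.mp h]
  rw [h1, h2, h3, List.range_add, List.filter_append, List.filter_append]
  have e1 : (List.range k).filter (fun i => (2 ^ k * z).testBit i) = [] := by
    rw [List.filter_eq_nil_iff]
    intro i hi
    rw [List.mem_range] at hi
    rw [hb' i, if_pos hi]
    simp
  rw [e1, List.nil_append]
  congr 1
  · apply List.filter_congr
    intro i hi
    rw [List.mem_range] at hi
    rw [hb i, if_pos hi]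
  · apply List.filter_congr
    intro i hi
    rw [List.mem_map] at hi
    obtain ⟨j, -, rfl⟩ := hi
    rw [hb, hb', if_neg (by omega), if_neg (by omega)]

lemma bits_ne_nil {n : ℕ} (h : 0 < n) : bits n ≠ [] := by
  intro hc
  have : ∀ i, n.testBit i = false := by
    intro i
    by_contra h'
    have : i ∈ bits n := mem_bits.mpr (by simpa using h')
    rw [hc] at this
    exact List.not_mem_nil this
  have h0 : n = 0 := Nat.eq_of_testBit_eq (fun i => by rw [this i]; simp)
  omega

lemma lo_mem {L : List ℕ} (h : L ≠ []) : lo L ∈ L := by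
  cases L with
  | nil => exact absurd rfl h
  | cons a L => simp [lo]

lemma hi_mem {L : List ℕ} (h : L ≠ []) : hi L ∈ L := by
  unfold hi
  rw [List.getLastD_eq_getLast?, List.getLast?_eq_some_getLast h]
  exact List.getLast_mem h

lemma lo_append {L M : List ℕ} (h : L ≠ []) : lo (L ++ M) = lo L := by
  cases L with
  | nil => exact absurd rfl h
  | cons a L => rfl

lemma hi_append {L M : List ℕ} (h : M ≠ []) : hi (L ++ M) = hi M := by
  unfold hi
  rw [List.getLastD_eq_getLast?, List.getLastD_eq_getLast?,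
    List.getLast?_append, List.getLast?_eq_some_getLast h]
  rfl

lemma gsum_append (w : ℕ → ℕ → Bool) {L M : List ℕ} (hL : L ≠ []) (hM : M ≠ []) :
    gsum w (L ++ M) = xor (xor (gsum w L) (w (hi L) (lo M))) (gsum w M) := by
  induction L with
  | nil => exact absurd rfl hL
  | cons a L ih =>
    cases L with
    | nil =>
      cases M with
      | nil => exact absurd rfl hM
      | cons b M => simp [gsum, hi, lo]
    | cons b L =>
      have h1 : hi (a :: b :: L) = hi (b :: L) := by
        simp [hi]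
      have := ih (by simp)
      rw [List.cons_append] at this
      rw [List.cons_append, List.cons_append, gsum, this, gsum, h1]
      cases w a b <;> cases gsum w (b :: L) <;> cases w (hi (b :: L)) (lo M) <;>
        cases gsum w M <;> rfl

lemma le_of_mem_bits {x k i : ℕ} (h : 2 ^ k ∣ x) (hi : i ∈ bits x) : k ≤ i := by
  rw [mem_bits] at hi
  obtain ⟨z, rfl⟩ := h
  rw [Nat.testBit_two_pow_mul] at hi
  simp only [Bool.and_eq_true, decide_eq_true_eq] at hi
  exact hi.1

lemma lt_of_mem_bits {x k i : ℕ} (h : x < 2 ^ k) (hi : i ∈ bits x) : i < k := by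
  rw [mem_bits] at hi
  by_contra hc
  rw [Nat.testBit_lt_two_pow (lt_of_lt_of_le h
    (Nat.pow_le_pow_right (by norm_num) (not_lt.mp hc)))] at hi
  exact Bool.noConfusion hi

/-- The colour of `n` associated with the weight function `W`: the parity of the number of gaps
`(a, b)` of `n` with `W (lo) a b (hi) = true`. -/
def col (W : ℕ → ℕ → ℕ → ℕ → Bool) (n : ℕ) : Bool :=
  gsum (fun a b => W (lo (bits n)) a b (hi (bits n))) (bits n)

/-- The double difference identity. -/
lemma col_identity (W : ℕ → ℕ → ℕ → ℕ → Bool) {x y₁ y₂ z w k₁ k₂ k₃ k₄ : ℕ}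
    (hx : 0 < x) (hy₁ : 0 < y₁) (hy₂ : 0 < y₂) (hz : 0 < z) (hw : 0 < w)
    (x1 : x < 2 ^ k₁) (y1 : 2 ^ k₁ ∣ y₁) (y1' : y₁ < 2 ^ k₂) (y2 : 2 ^ k₂ ∣ y₂)
    (y2' : y₂ < 2 ^ k₃) (z1 : 2 ^ k₃ ∣ z) (z2 : z < 2 ^ k₄) (w1 : 2 ^ k₄ ∣ w)
    (k12 : k₁ ≤ k₂) (k23 : k₂ ≤ k₃) (k34 : k₃ ≤ k₄) :
    xor (xor (col W (x + y₁ + y₂ + z + w)) (col W (x + y₁ + z + w)))
      (xor (col W (x + y₂ + z + w)) (col W (x + z + w))) =
    xor (xor (W (lo (bits x)) (hi (bits y₁)) (lo (bits y₂)) (hi (bits w)))
          (W (lo (bits x)) (hi (bits x)) (lo (bits y₂)) (hi (bits w))))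
        (xor (W (lo (bits x)) (hi (bits y₁)) (lo (bits z)) (hi (bits w)))
          (W (lo (bits x)) (hi (bits x)) (lo (bits z)) (hi (bits w)))) := by
  have p12 : (2 : ℕ) ^ k₁ ∣ 2 ^ k₂ := pow_dvd_pow 2 k12
  have p23 : (2 : ℕ) ^ k₂ ∣ 2 ^ k₃ := pow_dvd_pow 2 k23
  have p34 : (2 : ℕ) ^ k₃ ∣ 2 ^ k₄ := pow_dvd_pow 2 k34
  have nx := bits_ne_nil hx
  have ny₁ := bits_ne_nil hy₁
  have ny₂ := bits_ne_nil hy₂
  have nz := bits_ne_nil hz
  have nw := bits_ne_nil hw
  have b_zw : bits (z + w) = bits z ++ bits w := bits_add z2 w1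
  have b1 : bits (x + y₁ + y₂ + z + w) = bits x ++ (bits y₁ ++ (bits y₂ ++ (bits z ++ bits w))) := by
    rw [← b_zw, ← bits_add y2' (dvd_add z1 (p34.trans w1)),
      ← bits_add y1' (dvd_add y2 (p23.trans (dvd_add z1 (p34.trans w1)))),
      ← bits_add x1 (dvd_add y1 (p12.trans (dvd_add y2 (p23.trans (dvd_add z1 (p34.trans w1))))))]
    congr 1
    omega
  have b2 : bits (x + y₁ + z + w) = bits x ++ (bits y₁ ++ (bits z ++ bits w)) := by
    rw [← b_zw, ← bits_add y1' ((p23.trans (dvd_add z1 (p34.trans w1)))),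
      ← bits_add x1 (dvd_add y1 (p12.trans (p23.trans (dvd_add z1 (p34.trans w1)))))]
    congr 1
    omega
  have b3 : bits (x + y₂ + z + w) = bits x ++ (bits y₂ ++ (bits z ++ bits w)) := by
    rw [← b_zw, ← bits_add y2' (dvd_add z1 (p34.trans w1)),
      ← bits_add x1 (p12.trans (dvd_add y2 (p23.trans (dvd_add z1 (p34.trans w1)))))]
    congr 1
    omega
  have b4 : bits (x + z + w) = bits x ++ (bits z ++ bits w) := by
    rw [← b_zw, ← bits_add x1 (p12.trans (p23.trans (dvd_add z1 (p34.trans w1))))]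
    congr 1
    omega
  have m1 : bits z ++ bits w ≠ [] := by simp [nz]
  have m2 : bits y₂ ++ (bits z ++ bits w) ≠ [] := by simp [ny₂]
  have m3 : bits y₁ ++ (bits z ++ bits w) ≠ [] := by simp [ny₁]
  have m4 : bits y₁ ++ (bits y₂ ++ (bits z ++ bits w)) ≠ [] := by simp [ny₁]
  have hi1 : hi (bits z ++ bits w) = hi (bits w) := hi_append nw
  have hi2 : hi (bits y₂ ++ (bits z ++ bits w)) = hi (bits w) := by rw [hi_append m1, hi1]
  have hi3 : hi (bits y₁ ++ (bits z ++ bits w)) = hi (bits w) := by rw [hi_append m1, hi1]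
  have hi4 : hi (bits y₁ ++ (bits y₂ ++ (bits z ++ bits w))) = hi (bits w) := by
    rw [hi_append m2, hi2]
  have c1 : col W (x + y₁ + y₂ + z + w) = gsum (fun a b => W (lo (bits x)) a b (hi (bits w)))
      (bits x ++ (bits y₁ ++ (bits y₂ ++ (bits z ++ bits w)))) := by
    unfold col
    rw [b1, lo_append nx, hi_append m4, hi4]
  have c2 : col W (x + y₁ + z + w) = gsum (fun a b => W (lo (bits x)) a b (hi (bits w)))
      (bits x ++ (bits y₁ ++ (bits z ++ bits w))) := by
    unfold col
    rw [b2, lo_append nx, hi_append m3, hi3]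
  have c3 : col W (x + y₂ + z + w) = gsum (fun a b => W (lo (bits x)) a b (hi (bits w)))
      (bits x ++ (bits y₂ ++ (bits z ++ bits w))) := by
    unfold col
    rw [b3, lo_append nx, hi_append m2, hi2]
  have c4 : col W (x + z + w) = gsum (fun a b => W (lo (bits x)) a b (hi (bits w)))
      (bits x ++ (bits z ++ bits w)) := by
    unfold col
    rw [b4, lo_append nx, hi_append m1, hi1]
  rw [c1, c2, c3, c4]
  rw [gsum_append _ nx m4, gsum_append _ ny₁ m2, gsum_append _ ny₂ m1, gsum_append _ nz nw,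
    gsum_append _ nx m3, gsum_append _ ny₁ m1, gsum_append _ nx m2, gsum_append _ ny₂ m1,
    gsum_append _ nx m1, gsum_append _ nz nw]
  rw [lo_append ny₁, lo_append ny₂, lo_append nz, lo_append ny₁]
  generalize gsum _ (bits x) = A
  generalize gsum _ (bits y₁) = B
  generalize gsum _ (bits y₂) = C
  generalize gsum _ (bits z) = D
  generalize gsum _ (bits w) = E
  generalize W (lo (bits x)) (hi (bits x)) (lo (bits y₁)) (hi (bits w)) = q1
  generalize W (lo (bits x)) (hi (bits y₁)) (lo (bits y₂)) (hi (bits w)) = q2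
  generalize W (lo (bits x)) (hi (bits y₂)) (lo (bits z)) (hi (bits w)) = q3
  generalize W (lo (bits x)) (hi (bits z)) (lo (bits w)) (hi (bits w)) = q4
  generalize W (lo (bits x)) (hi (bits y₁)) (lo (bits z)) (hi (bits w)) = q5
  generalize W (lo (bits x)) (hi (bits x)) (lo (bits y₂)) (hi (bits w)) = q6
  generalize W (lo (bits x)) (hi (bits x)) (lo (bits z)) (hi (bits w)) = q7
  clear c1 c2 c3 c4
  revert A B C D E q1 q2 q3 q4 q5 q6 q7
  decide

end Pool.Agent.Work.MP_69fea5_lc.DJ
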