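import Pool.Agent.Work.MP_69fea5_lc.DJBits

set_option autoImplicit false

/-! Blocks of a solution. -/

namespace Pool.Agent.Work.MP_69fea5_lc.DJ

/-- The sum of the positions of the binary digits of `f`: if `f` is the mask of a finite set of
numbers, this is the sum of the elements of the set. -/
def S (f : ℕ) : ℕ := (bits f).sum

/-- `f` is the mask of a finite nonempty subset of `X`. -/
def V (X : Set ℕ) (f : ℕ) : Prop := 0 < f ∧ ∀ i ∈ bits f, i ∈ X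

/-- `f` is the mask of a finite nonempty subset of `X`, and both `f` and the sum `S f` have all
their binary digits in `[k, k')`. -/
def Bl (X : Set ℕ) (k k' f : ℕ) : Prop :=
  V X f ∧ 2 ^ k ∣ f ∧ 2 ^ k ∣ S f ∧ f < 2 ^ k' ∧ S f < 2 ^ k'

lemma S_add {f g k : ℕ} (hf : f < 2 ^ k) (hg : 2 ^ k ∣ g) : S (f + g) = S f + S g := by
  unfold S
  rw [bits_add hf hg, List.sum_append]

lemma le_S_of_mem {f i : ℕ} (h : i ∈ bits f) : i ≤ S f := by
  unfold S
  exact List.single_le_sum (by simp) i h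

lemma S_pos {X : Set ℕ} (h0 : 0 ∉ X) {f : ℕ} (h : V X f) : 0 < S f := by
  obtain ⟨h1, h2⟩ := h
  have hne := bits_ne_nil h1
  have hm := lo_mem hne
  have hX := h2 _ hm
  have : lo (bits f) ≠ 0 := fun h => h0 (h ▸ hX)
  have := le_S_of_mem hm
  omega

lemma V_add {X : Set ℕ} {f g k : ℕ} (hf : V X f) (hg : V X g) (h1 : f < 2 ^ k) (h2 : 2 ^ k ∣ g) :
    V X (f + g) := by
  refine ⟨by have := hf.1; omega, fun i hi => ?_⟩
  rw [bits_add h1 h2, List.mem_append] at hi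
  rcases hi with hi | hi
  · exact hf.2 i hi
  · exact hg.2 i hi

lemma Bl.lt {X : Set ℕ} {k k' f : ℕ} (h : Bl X k k' f) : k < k' := by
  have h1 : 2 ^ k ≤ f := Nat.le_of_dvd h.1.1 h.2.1
  exact (Nat.pow_lt_pow_iff_right (by norm_num : 1 < 2)).mp (lt_of_le_of_lt h1 h.2.2.2.1)

lemma Bl.mono {X : Set ℕ} {k k' j j' f : ℕ} (h : Bl X k k' f) (h1 : j ≤ k) (h2 : k' ≤ j') :
    Bl X j j' f :=
  ⟨h.1, (pow_dvd_pow 2 h1).trans h.2.1, (pow_dvd_pow 2 h1).trans h.2.2.1,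
    lt_of_lt_of_le h.2.2.2.1 (Nat.pow_le_pow_right (by norm_num) h2),
    lt_of_lt_of_le h.2.2.2.2 (Nat.pow_le_pow_right (by norm_num) h2)⟩

lemma add_lt_two_pow {a b k k' : ℕ} (ha : a < 2 ^ k) (hb : 2 ^ k ∣ b) (hb' : b < 2 ^ k')
    (hk : k ≤ k') : a + b < 2 ^ k' := by
  obtain ⟨c, rfl⟩ := hb
  have e : (2 : ℕ) ^ k' = 2 ^ k * 2 ^ (k' - k) := by
    rw [← pow_add]; congr 1; omega
  rw [e] at hb' ⊢
  have hc : c < 2 ^ (k' - k) := lt_of_mul_lt_mul_left hb' (Nat.zero_le _)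
  have : 2 ^ k * (c + 1) ≤ 2 ^ k * 2 ^ (k' - k) := Nat.mul_le_mul_left _ hc
  rw [Nat.mul_add] at this
  omega

lemma Bl.add {X : Set ℕ} {k k' k'' f g : ℕ} (hf : Bl X k k' f) (hg : Bl X k' k'' g) :
    Bl X k k'' (f + g) := by
  have e : S (f + g) = S f + S g := S_add hf.2.2.2.1 hg.2.1
  have p : (2 : ℕ) ^ k ∣ 2 ^ k' := pow_dvd_pow 2 hf.lt.le
  refine ⟨V_add hf.1 hg.1 hf.2.2.2.1 hg.2.1, dvd_add hf.2.1 (p.trans hg.2.1), ?_, ?_, ?_⟩
  · rw [e]; exact dvd_add hf.2.2.1 (p.trans hg.2.2.1)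
  · exact add_lt_two_pow hf.2.2.2.1 hg.2.1 hg.2.2.2.1 hg.lt.le
  · rw [e]; exact add_lt_two_pow hf.2.2.2.2 hg.2.2.1 hg.2.2.2.2 hg.lt.le

lemma Bl.S_add {X : Set ℕ} {k k' k'' f g : ℕ} (hf : Bl X k k' f) (hg : Bl X k' k'' g) :
    S (f + g) = S f + S g := DJ.S_add hf.2.2.2.1 hg.2.1

lemma Bl.le_lo {X : Set ℕ} (h0 : 0 ∉ X) {k k' f : ℕ} (h : Bl X k k' f) :
    k ≤ lo (bits (S f)) :=
  le_of_mem_bits h.2.2.1 (lo_mem (bits_ne_nil (S_pos h0 h.1)))

lemma Bl.le_hi {X : Set ℕ} (h0 : 0 ∉ X) {k k' f : ℕ} (h : Bl X k k' f) :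
    k ≤ hi (bits (S f)) :=
  le_of_mem_bits h.2.2.1 (hi_mem (bits_ne_nil (S_pos h0 h.1)))

lemma Bl.hi_lt {X : Set ℕ} (h0 : 0 ∉ X) {k k' f : ℕ} (h : Bl X k k' f) :
    hi (bits (S f)) < k' :=
  lt_of_mem_bits h.2.2.2.2 (hi_mem (bits_ne_nil (S_pos h0 h.1)))

lemma bits_two_pow (x : ℕ) : bits (2 ^ x) = [x] := by
  have h1 : bits (2 ^ x) = (List.range (x + 1 + 2 ^ x)).filter (fun i => (2 ^ x).testBit i) :=
    bits_eq _ _ (by omega)
  rw [h1, filter_range_ext, List.range_succ, List.filter_append]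
  · have : (List.range x).filter (fun i => (2 ^ x).testBit i) = [] := by
      rw [List.filter_eq_nil_iff]
      intro i hi
      rw [List.mem_range] at hi
      rw [Nat.testBit_two_pow_of_ne (by omega)]
      simp
    rw [this]
    simp
  · intro i hi
    rw [Nat.testBit_two_pow_of_ne (by omega)]

lemma exists_mask (Y : Set ℕ) (hY : Y.Infinite) (k : ℕ) (hk : ∀ x ∈ Y, k ≤ x) (N : ℕ) :
    ∃ f, (bits f).length = N ∧ (∀ i ∈ bits f, i ∈ Y) ∧ 2 ^ k ∣ f := by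
  induction N with
  | zero => exact ⟨0, rfl, by intro i hi; simp [bits] at hi, dvd_zero _⟩
  | succ N ih =>
    obtain ⟨f, h1, h2, h3⟩ := ih
    obtain ⟨x, hx, hfx⟩ := hY.exists_gt f
    have hlt : f < 2 ^ x := lt_trans Nat.lt_two_pow_self (Nat.pow_lt_pow_right (by norm_num) hfx)
    have e : bits (f + 2 ^ x) = bits f ++ [x] := by
      rw [bits_add hlt dvd_rfl, bits_two_pow]
    refine ⟨f + 2 ^ x, ?_, ?_, ?_⟩
    · rw [e]; simp [h1]
    · intro i hi
      rw [e, List.mem_append, List.mem_singleton] at hi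
      rcases hi with hi | rfl
      · exact h2 i hi
      · exact hx
    · exact dvd_add h3 (pow_dvd_pow 2 (hk x hx))

lemma sum_modEq (L : List ℕ) (M r : ℕ) (h : ∀ i ∈ L, i % M = r) :
    L.sum ≡ L.length * r [MOD M] := by
  induction L with
  | nil => simp [Nat.ModEq]
  | cons a L ih =>
    rw [List.sum_cons, List.length_cons, Nat.add_mul, Nat.one_mul, Nat.add_comm]
    refine Nat.ModEq.add (ih (fun i hi => h i (List.mem_cons_of_mem _ hi))) ?_
    have := h a List.mem_cons_self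
    unfold Nat.ModEq
    rw [← this, Nat.mod_mod]

lemma exists_Bl {X : Set ℕ} (hX : X.Infinite) (k : ℕ) : ∃ k' f, Bl X k k' f := by
  have h1 : (X ∩ Set.Ici k).Infinite := by
    have : X ∩ Set.Ici k = X \ Set.Iio k := by
      ext x; simp [not_lt]
    rw [this]
    exact hX.sdiff (Set.finite_Iio k)
  have h2 : ∃ r, {x ∈ X ∩ Set.Ici k | x % 2 ^ k = r}.Infinite := by
    by_contra hc
    push Not at hc
    have hu : X ∩ Set.Ici k ⊆ ⋃ r ∈ Finset.range (2 ^ k), {x ∈ X ∩ Set.Ici k | x % 2 ^ k = r} := by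
      intro x hx
      rw [Set.mem_iUnion₂]
      exact ⟨x % 2 ^ k, by simpa using Nat.mod_lt _ (by positivity), hx, rfl⟩
    exact h1 (Set.Finite.subset (Set.Finite.biUnion (Finset.finite_toSet _)
      (fun r _ => hc r)) hu)
  obtain ⟨r, hr⟩ := h2
  obtain ⟨f, f1, f2, f3⟩ := exists_mask _ hr k (fun x hx => hx.1.2) (2 ^ k)
  have hf0 : f ≠ 0 := by
    rintro rfl
    have : 2 ^ k = 0 := by rw [← f1]; rfl
    exact absurd this (by positivity)
  refine ⟨f + S f, f, ⟨by omega, fun i hi => (f2 i hi).1.1⟩, f3, ?_, ?_, ?_⟩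
  · have := sum_modEq (bits f) (2 ^ k) r (fun i hi => (f2 i hi).2)
    rw [f1] at this
    exact (Nat.modEq_zero_iff_dvd.mp (this.trans (Nat.modEq_zero_iff_dvd.mpr (dvd_mul_right _ _))))
  · exact lt_of_lt_of_le Nat.lt_two_pow_self (Nat.pow_le_pow_right (by norm_num) (by omega))
  · exact lt_of_lt_of_le Nat.lt_two_pow_self (Nat.pow_le_pow_right (by norm_num) (by omega))

lemma nodup_bits (n : ℕ) : (bits n).Nodup := List.Nodup.filter _ List.nodup_range

/-- The colour is constant on the sums of the blocks. -/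
lemma color_S {X : Set ℕ} {c : ℕ → Bool} {t : Bool}
    (h : ∀ F : Finset ℕ, F.Nonempty → (↑F : Set ℕ) ⊆ X → c (∑ x ∈ F, x) = t)
    {f : ℕ} (hf : V X f) : c (S f) = t := by
  have e : ∑ x ∈ (bits f).toFinset, x = S f := by
    rw [List.sum_toFinset _ (nodup_bits f)]
    simp [S]
  rw [← e]
  apply h
  · rw [List.toFinset_nonempty_iff]
    exact bits_ne_nil hf.1
  · intro i hi
    rw [List.coe_toFinset] at hi
    exact hf.2 i hi

end Pool.Agent.Work.MP_69fea5_lc.DJ
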