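import Pool.Agent.Work.MP_69fea5_lc.DJBlocks

set_option autoImplicit false

/-! The combinatorial core: what a monochromatic `FS` set knows. -/

namespace Pool.Agent.Work.MP_69fea5_lc.DJ

open Classical in
/-- The data of the argument: `H = {q | ∃ m, Hs m q}` is approximated from below, and
`K p ↔ ∃ s, ¬ H (ix p s)`. -/
structure Approx where
  Hs : ℕ → ℕ → Bool
  mono : ∀ m m' q, m ≤ m' → Hs m q = true → Hs m' q = true
  ix : ℕ → ℕ → ℕ

namespace Approx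

variable (A : Approx)

/-- The limit of the approximation `Hs`. -/
def H (q : ℕ) : Prop := ∃ m, A.Hs m q = true

/-- `p` is in `K` with a witness below `a`. -/
def Ka (a p : ℕ) : Prop := ∃ s < a, ¬ A.H (A.ix p s)

/-- The set `K`. -/
def K (p : ℕ) : Prop := ∃ s, ¬ A.H (A.ix p s)

/-- The guess at stage `m` for `Ka`. -/
def Kst (a m p : ℕ) : Bool := decide (∃ s < a, ¬ (A.Hs m (A.ix p s) = true))

/-- The weight function of the colouring. -/
def W (l a b m : ℕ) : Bool :=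
  xor (decide (∀ q < a, A.Hs m q = true → A.Hs b q = true))
    (decide (∀ p < l, A.Kst b m p = true → A.Kst a m p = true))

/-- `H` below `a` has settled by stage `b`. -/
def h (a b : ℕ) : Prop := ∀ q < a, A.H q → A.Hs b q = true

/-- `K` below `l` does not change between `a` and `b`. -/
def d (l a b : ℕ) : Prop := ∀ p < l, A.Ka b p → A.Ka a p

lemma Ka_mono {a b p : ℕ} (hab : a ≤ b) (h : A.Ka a p) : A.Ka b p := by
  obtain ⟨s, hs, h⟩ := h
  exact ⟨s, by omega, h⟩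

lemma K_of_Ka {a p : ℕ} (h : A.Ka a p) : A.K p := by
  obtain ⟨s, -, h⟩ := h
  exact ⟨s, h⟩

lemma settle (N : ℕ) : ∃ M, ∀ m, M ≤ m → ∀ q < N, A.H q → A.Hs m q = true := by
  induction N with
  | zero => exact ⟨0, fun _ _ q hq => by omega⟩
  | succ N ih =>
    obtain ⟨M, hM⟩ := ih
    by_cases hN : A.H N
    · obtain ⟨m0, hm0⟩ := hN
      refine ⟨max M m0, fun m hm q hq hH => ?_⟩
      rcases Nat.lt_succ_iff_lt_or_eq.mp hq with hq | rfl
      · exact hM m (le_trans (le_max_left _ _) hm) q hq hH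
      · exact A.mono m0 m _ (le_trans (le_max_right _ _) hm) hm0
    · refine ⟨M, fun m hm q hq hH => ?_⟩
      rcases Nat.lt_succ_iff_lt_or_eq.mp hq with hq | rfl
      · exact hM m hm q hq hH
      · exact absurd hH hN

lemma ix_bound (l a : ℕ) : ∃ N, ∀ p < l, ∀ s < a, A.ix p s < N := by
  refine ⟨∑ p ∈ Finset.range l, ∑ s ∈ Finset.range a, A.ix p s + 1, fun p hp s hs => ?_⟩
  have h1 : A.ix p s ≤ ∑ s ∈ Finset.range a, A.ix p s :=
    Finset.single_le_sum (f := fun s => A.ix p s) (fun _ _ => Nat.zero_le _)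
      (Finset.mem_range.mpr hs)
  have h2 : ∑ s ∈ Finset.range a, A.ix p s ≤
      ∑ p ∈ Finset.range l, ∑ s ∈ Finset.range a, A.ix p s :=
    Finset.single_le_sum (f := fun p => ∑ s ∈ Finset.range a, A.ix p s)
      (fun _ _ => Nat.zero_le _) (Finset.mem_range.mpr hp)
  omega

lemma Kst_iff {l a m N p : ℕ} (hN : ∀ p < l, ∀ s < a, A.ix p s < N)
    (hm : ∀ q < N, A.H q → A.Hs m q = true) (hp : p < l) :
    A.Kst a m p = true ↔ A.Ka a p := by
  unfold Kst Ka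
  rw [decide_eq_true_eq]
  constructor
  · rintro ⟨s, hs, h⟩
    exact ⟨s, hs, fun hH => h (hm _ (hN p hp s hs) hH)⟩
  · rintro ⟨s, hs, h⟩
    exact ⟨s, hs, fun hH => h ⟨m, hH⟩⟩

open Classical in
/-- The limit of the weight function. -/
noncomputable def W' (l a b : ℕ) : Bool := xor (decide (A.h a b)) (decide (A.d l a b))

lemma W_limit (l a b : ℕ) : ∃ M, ∀ m, M ≤ m → A.W l a b m = A.W' l a b := by
  classical
  obtain ⟨M₁, hM₁⟩ := A.settle a
  obtain ⟨N, hN⟩ := A.ix_bound l (max a b)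
  obtain ⟨M₂, hM₂⟩ := A.settle N
  refine ⟨max M₁ M₂, fun m hm => ?_⟩
  have e1 := hM₁ m (le_trans (le_max_left _ _) hm)
  have e2 := hM₂ m (le_trans (le_max_right _ _) hm)
  have ka : ∀ p < l, (A.Kst a m p = true ↔ A.Ka a p) := fun p hp =>
    A.Kst_iff (fun p hp s hs => hN p hp s (lt_of_lt_of_le hs (le_max_left _ _))) e2 hp
  have kb : ∀ p < l, (A.Kst b m p = true ↔ A.Ka b p) := fun p hp =>
    A.Kst_iff (fun p hp s hs => hN p hp s (lt_of_lt_of_le hs (le_max_right _ _))) e2 hp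
  unfold W W' h d
  congr 1
  · rw [decide_eq_decide]
    constructor
    · intro h q hq hH
      exact h q hq (e1 q hq hH)
    · intro h q hq hH
      exact h q hq ⟨m, hH⟩
  · rw [decide_eq_decide]
    constructor
    · intro h p hp hK
      exact (ka p hp).mp (h p hp ((kb p hp).mpr hK))
    · intro h p hp hK
      exact (ka p hp).mpr (h p hp ((kb p hp).mp hK))

end Approx

/-- A solution of the colouring `col A.W`. -/
structure Sol (A : Approx) (X : Set ℕ) : Prop where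
  inf : X.Infinite
  pos : 0 ∉ X
  mono : ∃ t, ∀ f, V X f → col A.W (S f) = t

variable {A : Approx} {X : Set ℕ}

/-- The lowest position of the sum of the block `f`. -/
def lam (f : ℕ) : ℕ := lo (bits (S f))

/-- The highest position of the sum of the block `f`. -/
def mu (f : ℕ) : ℕ := hi (bits (S f))

lemma Sol.identity (hS : Sol A X) {k₀ k₁ k₂ k₃ k₄ f₀ f₁ f₂ f₃ : ℕ}
    (h₀ : Bl X k₀ k₁ f₀) (h₁ : Bl X k₁ k₂ f₁) (h₂ : Bl X k₂ k₃ f₂) (h₃ : Bl X k₃ k₄ f₃) :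
    xor (xor (A.W' (lam f₀) (mu f₁) (lam f₂)) (A.W' (lam f₀) (mu f₀) (lam f₂)))
      (xor (A.W' (lam f₀) (mu f₁) (lam f₃)) (A.W' (lam f₀) (mu f₀) (lam f₃))) = false := by
  obtain ⟨M₁, hM₁⟩ := A.W_limit (lam f₀) (mu f₁) (lam f₂)
  obtain ⟨M₂, hM₂⟩ := A.W_limit (lam f₀) (mu f₀) (lam f₂)
  obtain ⟨M₃, hM₃⟩ := A.W_limit (lam f₀) (mu f₁) (lam f₃)
  obtain ⟨M₄, hM₄⟩ := A.W_limit (lam f₀) (mu f₀) (lam f₃)
  set k₄' := max k₄ (max (max M₁ M₂) (max M₃ M₄)) with hk₄'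
  have h₃' : Bl X k₃ k₄' f₃ := h₃.mono le_rfl (le_max_left _ _)
  obtain ⟨k₅, f₄, h₄⟩ := exists_Bl hS.inf k₄'
  have hm : k₄' ≤ mu f₄ := h₄.le_hi hS.pos
  obtain ⟨t, ht⟩ := hS.mono
  have p0 := S_pos hS.pos h₀.1
  have p1 := S_pos hS.pos h₁.1
  have p2 := S_pos hS.pos h₂.1
  have p3 := S_pos hS.pos h₃.1
  have p4 := S_pos hS.pos h₄.1
  have key := col_identity A.W p0 p1 p2 p3 p4 h₀.2.2.2.2 h₁.2.2.1 h₁.2.2.2.2 h₂.2.2.1 h₂.2.2.2.2
    h₃'.2.2.1 h₃'.2.2.2.2 h₄.2.2.1 h₁.lt.le h₂.lt.le h₃'.lt.le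
  -- the four sums
  have b34 : Bl X k₃ k₅ (f₃ + f₄) := h₃'.add h₄
  have s34 : S (f₃ + f₄) = S f₃ + S f₄ := h₃'.S_add h₄
  have b234 : Bl X k₂ k₅ (f₂ + (f₃ + f₄)) := h₂.add b34
  have s234 : S (f₂ + (f₃ + f₄)) = S f₂ + (S f₃ + S f₄) := by rw [h₂.S_add b34, s34]
  have g1 : S (f₀ + (f₁ + (f₂ + (f₃ + f₄)))) = S f₀ + S f₁ + S f₂ + S f₃ + S f₄ := by
    rw [h₀.S_add (h₁.add b234), h₁.S_add b234, s234]; omega
  have g2 : S (f₀ + (f₁ + (f₃ + f₄))) = S f₀ + S f₁ + S f₃ + S f₄ := by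
    have b34' := b34.mono h₂.lt.le le_rfl
    rw [h₀.S_add (h₁.add b34'), h₁.S_add b34', s34]; omega
  have g3 : S (f₀ + (f₂ + (f₃ + f₄))) = S f₀ + S f₂ + S f₃ + S f₄ := by
    rw [h₀.S_add (b234.mono h₁.lt.le le_rfl), s234]; omega
  have g4 : S (f₀ + (f₃ + f₄)) = S f₀ + S f₃ + S f₄ := by
    rw [h₀.S_add (b34.mono (h₁.lt.le.trans h₂.lt.le) le_rfl), s34]; omega
  have c1 := ht _ (h₀.add (h₁.add b234)).1
  have c2 := ht _ (h₀.add (h₁.add (b34.mono h₂.lt.le le_rfl))).1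
  have c3 := ht _ (h₀.add (b234.mono h₁.lt.le le_rfl)).1
  have c4 := ht _ (h₀.add (b34.mono (h₁.lt.le.trans h₂.lt.le) le_rfl)).1
  rw [g1] at c1
  rw [g2] at c2
  rw [g3] at c3
  rw [g4] at c4
  rw [c1, c2, c3, c4] at key
  have e1 := hM₁ (mu f₄) (le_trans (le_trans (le_trans (le_max_left _ _) (le_max_left _ _))
    (le_max_right _ _)) hm)
  have e2 := hM₂ (mu f₄) (le_trans (le_trans (le_trans (le_max_right _ _) (le_max_left _ _))
    (le_max_right _ _)) hm)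
  have e3 := hM₃ (mu f₄) (le_trans (le_trans (le_trans (le_max_left _ _) (le_max_right _ _))
    (le_max_right _ _)) hm)
  have e4 := hM₄ (mu f₄) (le_trans (le_trans (le_trans (le_max_right _ _) (le_max_right _ _))
    (le_max_right _ _)) hm)
  unfold lam mu at *
  rw [e1, e2, e3, e4] at key
  rw [← key]
  cases t <;> rfl

lemma xor_aux {a b c d e f g i : Prop} [Decidable a] [Decidable b] [Decidable c] [Decidable d]
    [Decidable e] [Decidable f] [Decidable g] [Decidable i]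
    (h : xor (xor (xor (decide a) (decide b)) (xor (decide c) (decide d)))
      (xor (xor (decide e) (decide f)) (xor (decide g) (decide i))) = false)
    (hb : b) (hd : d) (hf : f) (hi : i) (he : e) (hg : g) (hc : c) : a := by
  by_contra ha
  simp [ha, hb, hc, hd, he, hf, hg, hi] at h

lemma xor_aux' {a b c d e f g i : Prop} [Decidable a] [Decidable b] [Decidable c] [Decidable d]
    [Decidable e] [Decidable f] [Decidable g] [Decidable i]
    (h : xor (xor (xor (decide a) (decide b)) (xor (decide c) (decide d)))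
      (xor (xor (decide e) (decide f)) (xor (decide g) (decide i))) = false)
    (ha : a) (hc : c) (he : e) (hg : g) (hb : b) (hd : ¬ d) (hi : ¬ i) : f := by
  by_contra hf
  simp [ha, hb, hc, hd, he, hf, hg, hi] at h

/-- Claim A: beyond some level, all junctions are true for `H`. -/
lemma Sol.claimA (hS : Sol A X) : ∃ κ, ∀ k k' k'' x y, κ ≤ k → Bl X k k' x → Bl X k' k'' y →
    A.h (mu x) (lam y) := by
  classical
  obtain ⟨k₁, f₀₀, h₀₀⟩ := exists_Bl hS.inf 0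
  -- `K` below `lam f₀₀` is found by `A₀`
  have hA₀ : ∃ a₀, k₁ ≤ a₀ ∧ ∀ p < lam f₀₀, A.K p → A.Ka a₀ p := by
    have : ∀ l, ∃ a₀, k₁ ≤ a₀ ∧ ∀ p < l, A.K p → A.Ka a₀ p := by
      intro l
      induction l with
      | zero => exact ⟨k₁, le_rfl, fun p hp => by omega⟩
      | succ l ih =>
        obtain ⟨a, ha, h⟩ := ih
        by_cases hl : A.K l
        · obtain ⟨s, hs⟩ := hl
          refine ⟨max a (s + 1), le_trans ha (le_max_left _ _), fun p hp hK => ?_⟩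
          rcases Nat.lt_succ_iff_lt_or_eq.mp hp with hp | rfl
          · exact A.Ka_mono (le_max_left _ _) (h p hp hK)
          · exact ⟨s, lt_of_lt_of_le (Nat.lt_succ_self s) (le_max_right _ _), hs⟩
        · refine ⟨a, ha, fun p hp hK => ?_⟩
          rcases Nat.lt_succ_iff_lt_or_eq.mp hp with hp | rfl
          · exact h p hp hK
          · exact absurd hK hl
    exact this _
  obtain ⟨a₀, ha₀, hK₀⟩ := hA₀
  obtain ⟨k₂, f₀₁, h₀₁⟩ := exists_Bl hS.inf a₀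
  obtain ⟨M, hM⟩ := A.settle (mu f₀₁)
  refine ⟨max k₂ M, fun k k' k'' x y hk hx hy => ?_⟩
  have hk₂ : k₂ ≤ k := le_trans (le_max_left _ _) hk
  have hMk : M ≤ k := le_trans (le_max_right _ _) hk
  obtain ⟨M', hM'⟩ := A.settle (mu x)
  obtain ⟨k₄, z, hz⟩ := exists_Bl hS.inf (max k'' M')
  have hf₀ : Bl X 0 k (f₀₀ + f₀₁) :=
    ((h₀₀.mono le_rfl ha₀).add h₀₁).mono le_rfl hk₂
  have hlam : lam (f₀₀ + f₀₁) = lam f₀₀ := by
    unfold lam
    rw [(h₀₀.mono le_rfl ha₀).S_add h₀₁,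
      bits_add (h₀₀.mono le_rfl ha₀).2.2.2.2 h₀₁.2.2.1,
      lo_append (bits_ne_nil (S_pos hS.pos h₀₀.1))]
  have hmu : mu (f₀₀ + f₀₁) = mu f₀₁ := by
    unfold mu
    rw [(h₀₀.mono le_rfl ha₀).S_add h₀₁,
      bits_add (h₀₀.mono le_rfl ha₀).2.2.2.2 h₀₁.2.2.1,
      hi_append (bits_ne_nil (S_pos hS.pos h₀₁.1))]
  have key := hS.identity hf₀ hx hy (hz.mono (le_max_left _ _) le_rfl)
  rw [hlam, hmu] at key
  have ha : ∀ a, a₀ ≤ a → ∀ b, A.d (lam f₀₀) a b := by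
    intro a haa b p hp hK
    exact A.Ka_mono haa (hK₀ p hp (A.K_of_Ka hK))
  have mu1 : a₀ ≤ mu f₀₁ := h₀₁.le_hi hS.pos
  have mux : a₀ ≤ mu x := by
    have := hx.le_hi hS.pos
    have := h₀₁.lt
    unfold mu
    omega
  have hylo : k' ≤ lam y := hy.le_lo hS.pos
  have hzlo : max k'' M' ≤ lam z := hz.le_lo hS.pos
  have hkk' := hx.lt
  have hk'k'' := hy.lt
  unfold Approx.W' at key
  refine xor_aux key (ha _ mux _) (ha _ mu1 _) (ha _ mux _) (ha _ mu1 _) ?_ ?_ ?_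
  · intro q hq hH
    exact hM' _ (le_trans (le_max_right _ _) hzlo) q hq hH
  · intro q hq hH
    exact hM _ (by omega) q hq hH
  · intro q hq hH
    exact hM _ (by omega) q hq hH

/-- Claim C: the second candidate is final. -/
lemma Sol.claimC (hS : Sol A X) {κ : ℕ} (hκ : ∀ k k' k'' x y, κ ≤ k → Bl X k k' x → Bl X k' k'' y →
    A.h (mu x) (lam y)) {k₀ k₁ k₂ k₃ x y₁ y₂ : ℕ} (h0 : κ ≤ k₀)
    (hx : Bl X k₀ k₁ x) (hy₁ : Bl X k₁ k₂ y₁) (hy₂ : Bl X k₂ k₃ y₂)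
    (hch : ∃ p < lam x, A.Ka (mu y₁) p ∧ ¬ A.Ka (mu x) p)
    (hst : ∀ p < lam x, A.Ka (lam y₂) p → A.Ka (mu y₁) p) :
    ∀ p < lam x, A.K p → A.Ka (mu y₁) p := by
  classical
  intro p hp hK
  obtain ⟨s, hs⟩ := hK
  obtain ⟨k₄, z, hz⟩ := exists_Bl hS.inf (max k₃ (s + 1))
  have hz' := hz.mono (le_max_left _ _) le_rfl
  have key := hS.identity hx hy₁ hy₂ hz'
  have l1 := hx.lt
  have l2 := hy₁.lt
  have l3 := hy₂.lt
  have hylo : k₂ ≤ lam y₂ := hy₂.le_lo hS.pos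
  have hzlo : max k₃ (s + 1) ≤ lam z := hz.le_lo hS.pos
  have hy1hi : mu y₁ < k₂ := hy₁.hi_lt hS.pos
  have nd : ∀ b, k₂ ≤ b → ¬ A.d (lam x) (mu x) b := by
    intro b hb hd
    obtain ⟨p₀, hp₀, h1, h2⟩ := hch
    exact h2 (hd p₀ hp₀ (A.Ka_mono (by omega) h1))
  have hA1 : A.h (mu y₁) (lam y₂) := hκ k₁ k₂ k₃ y₁ y₂ (by omega) hy₁ hy₂
  have hA2 : A.h (mu x) (lam y₂) := hκ k₀ k₂ k₃ x y₂ h0 (hx.mono le_rfl l2.le) hy₂
  have hA3 : A.h (mu y₁) (lam z) :=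
    hκ k₁ k₃ k₄ y₁ z (by omega) (hy₁.mono le_rfl l3.le) hz'
  have hA4 : A.h (mu x) (lam z) :=
    hκ k₀ k₃ k₄ x z h0 (hx.mono le_rfl (l2.le.trans l3.le)) hz'
  unfold Approx.W' at key
  have fin : A.d (lam x) (mu y₁) (lam z) :=
    xor_aux' key hA1 hA2 hA3 hA4 hst (nd _ hylo) (nd _ (by omega))
  exact fin p hp ⟨s, by omega, hs⟩

end Pool.Agent.Work.MP_69fea5_lc.DJ
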