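import Pool.Agent.Work.MP_69fea5_lc.DJAlg

set_option autoImplicit false

/-! The universal `Σ⁰₂` set. -/

namespace Pool.Agent.Work.MP_69fea5_lc.DJ

open Primrec Nat.Partrec

/-- `H` is the halting set and `K` the set of (codes of) partial functions that are not total,
with a parameter. -/
def A₀ : Approx where
  Hs m q := (Code.evaln m (Denumerable.ofNat Code q.unpair.1) q.unpair.2).isSome
  mono m m' q h hs := by
    rw [Option.isSome_iff_exists] at hs ⊢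
    obtain ⟨v, hv⟩ := hs
    exact ⟨v, Code.evaln_mono h hv⟩
  ix p s := Nat.pair p.unpair.1 (Nat.pair p.unpair.2 s)

lemma A₀_prim : PrimApprox A₀ := by
  constructor
  · have : Primrec fun t : ℕ × ℕ =>
        Code.evaln t.1 (Denumerable.ofNat Code t.2.unpair.1) t.2.unpair.2 :=
      Code.primrec_evaln.comp ((fst.pair ((Primrec.ofNat Code).comp (pr_u1.comp snd))).pair
        (pr_u2.comp snd))
    exact option_isSome.comp this
  · exact Primrec₂.natPair.comp (pr_u1.comp fst) (Primrec₂.natPair.comp (pr_u2.comp fst) snd)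

lemma A₀_H (q : ℕ) : A₀.H q ↔ (Code.eval (Denumerable.ofNat Code q.unpair.1) q.unpair.2).Dom := by
  unfold Approx.H
  simp only [A₀, Option.isSome_iff_exists, Part.dom_iff_mem, Code.evaln_complete, Option.mem_def]
  exact ⟨fun ⟨m, v, h⟩ => ⟨v, m, h⟩, fun ⟨v, m, h⟩ => ⟨m, v, h⟩⟩

lemma A₀_K (p : ℕ) : A₀.K p ↔
    ∃ s, ¬ (Code.eval (Denumerable.ofNat Code p.unpair.1) (Nat.pair p.unpair.2 s)).Dom := by
  unfold Approx.K
  simp only [A₀_H]
  simp [A₀]

lemma mem_rfind_bool {f : ℕ → Bool} {n : ℕ} :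
    n ∈ Nat.rfind (f : ℕ →. Bool) ↔ f n = true ∧ ∀ m < n, f m = false := by
  refine Nat.mem_rfind.trans ?_
  constructor
  · rintro ⟨h1, h2⟩
    exact ⟨(Part.mem_some_iff.mp h1).symm, fun m hm => (Part.mem_some_iff.mp (h2 hm)).symm⟩
  · rintro ⟨h1, h2⟩
    exact ⟨Part.mem_some_iff.mpr h1.symm, fun {m} hm => Part.mem_some_iff.mpr (h2 m hm).symm⟩

lemma rfind_dom {f : ℕ → Bool} :
    (Nat.rfind (f : ℕ →. Bool)).Dom ↔ ∃ n, f n = true := by
  rw [Part.dom_iff_mem]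
  constructor
  · rintro ⟨n, hn⟩
    exact ⟨n, (mem_rfind_bool.mp hn).1⟩
  · intro h
    refine ⟨Nat.find h, mem_rfind_bool.mpr ⟨Nat.find_spec h, fun m hm => ?_⟩⟩
    have := Nat.find_min h hm
    simpa using this

lemma exists_code_search {g : ℕ → ℕ → Bool} (hg : Computable₂ g) :
    ∃ cd : Code, ∀ x, (Code.eval cd x).Dom ↔ ∃ t, g x t = true := by
  have hφ : Partrec fun x : ℕ => Nat.rfind (g x : ℕ →. Bool) := Partrec.rfind hg.partrec₂
  obtain ⟨cd, hcd⟩ := Code.exists_code.mp (Partrec.nat_iff.mp hφ)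
  exact ⟨cd, fun x => by rw [hcd]; exact rfind_dom⟩

lemma computable_aux0 :
    Computable fun u : ℕ × ℕ => (u.1.unpair.1, u.1.unpair.2, u.2) := by
  have g1 : Primrec fun u : ℕ × ℕ => u.1.unpair.1 := pr_u1.comp fst
  have g2 : Primrec fun u : ℕ × ℕ => u.1.unpair.2 := pr_u2.comp fst
  exact (g1.pair (g2.pair snd)).to_comp

lemma computable_aux1 {R : ℕ → ℕ → ℕ → Bool}
    (hR : Computable fun t : ℕ × ℕ × ℕ => R t.1 t.2.1 t.2.2) :
    Computable fun u : ℕ × ℕ => R u.1.unpair.1 u.1.unpair.2 u.2 :=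
  Computable.comp (f := fun t : ℕ × ℕ × ℕ => R t.1 t.2.1 t.2.2)
    (g := fun u : ℕ × ℕ => (u.1.unpair.1, u.1.unpair.2, u.2)) hR computable_aux0

lemma computable_aux {R : ℕ → ℕ → ℕ → Bool}
    (hR : Computable fun t : ℕ × ℕ × ℕ => R t.1 t.2.1 t.2.2) :
    Computable₂ fun (x t : ℕ) => !(R x.unpair.1 x.unpair.2 t) := by
  have hn : Computable not := Primrec.not.to_comp
  exact hn.comp (computable_aux1 hR)

/-- Every `Σ⁰₂` set is many-one reducible to `K`. -/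
lemma sigma_two_reduce {S : Set ℕ} {R : ℕ → ℕ → ℕ → Bool}
    (hR : Computable fun t : ℕ × ℕ × ℕ => R t.1 t.2.1 t.2.2)
    (hS : ∀ n, n ∈ S ↔ ∃ s, ∀ t, R n s t = true) :
    ∃ e, ∀ n, n ∈ S ↔ A₀.K (Nat.pair e n) := by
  obtain ⟨cd, hcd⟩ := exists_code_search (computable_aux hR)
  refine ⟨Encodable.encode cd, fun n => ?_⟩
  rw [hS, A₀_K]
  refine exists_congr (fun s => ?_)
  rw [Nat.unpair_pair, Denumerable.ofNat_encode, hcd, Nat.unpair_pair]
  simp

/-- Main theorem, in terms of `A₀`. -/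
theorem main {X : Set ℕ} (hX : X.Infinite) (h0 : ∀ x ∈ X, 0 < x)
    (hc : ∃ t, ∀ F : Finset ℕ, F.Nonempty → (↑F : Set ℕ) ⊆ X → col A₀.W (∑ x ∈ F, x) = t)
    {S : Set ℕ} {R : ℕ → ℕ → ℕ → Bool}
    (hR : Computable fun t : ℕ × ℕ × ℕ => R t.1 t.2.1 t.2.2)
    (hS : ∀ n, n ∈ S ↔ ∃ s, ∀ t, R n s t = true) :
    Nat.RecursiveIn {chi X} (chi S) := by
  classical
  obtain ⟨t, ht⟩ := hc
  have sol : Sol A₀ X := ⟨hX, fun h => lt_irrefl _ (h0 0 h), t, fun f hf => color_S ht hf⟩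
  obtain ⟨e, he⟩ := sigma_two_reduce hR hS
  have h1 := sol.computes A₀_prim
  have h2 := comp_rec h1 (g := fun n => Nat.pair e n) (Primrec₂.natPair.comp (const e) Primrec.id)
  refine h2.of_eq (fun n => ?_)
  unfold chi
  simp only [he]

end Pool.Agent.Work.MP_69fea5_lc.DJ
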