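import Pool.Agent.Work.MP_69fea5_lc.DJPrim

set_option autoImplicit false

/-! Unbounded search with an oracle. -/

namespace Pool.Agent.Work.MP_69fea5_lc.DJ

open Primrec

open Classical in
/-- The characteristic function of a set of natural numbers, as a partial function. -/
noncomputable def chi (X : Set ℕ) : ℕ →. ℕ := fun n => Part.some (if n ∈ X then 1 else 0)

open Classical in
/-- The mask of `X` below `N`. -/
noncomputable def seg (X : Set ℕ) : ℕ → ℕ
  | 0 => 0
  | N + 1 => seg X N + (if N ∈ X then 1 else 0) * 2 ^ N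

lemma seg_lt (X : Set ℕ) (N : ℕ) : seg X N < 2 ^ N := by
  induction N with
  | zero => simp [seg]
  | succ N ih =>
    rw [seg, pow_succ]
    split_ifs <;> omega

lemma testBit_seg (X : Set ℕ) (N i : ℕ) : (seg X N).testBit i = true ↔ i < N ∧ i ∈ X := by
  induction N with
  | zero => simp [seg]
  | succ N ih =>
    rw [seg, Nat.add_comm, Nat.mul_comm, Nat.testBit_two_pow_mul_add _ (seg_lt X N)]
    by_cases h1 : i < N
    · rw [if_pos h1, ih]
      exact ⟨fun h => ⟨by omega, h.2⟩, fun h => ⟨h1, h.2⟩⟩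
    · rw [if_neg h1]
      rcases Nat.eq_or_lt_of_le (not_lt.mp h1) with rfl | h3
      · by_cases h2 : N ∈ X <;> simp [h2]
      · have h4 : ¬ i < N + 1 := by omega
        have h5 : 1 < 2 ^ (i - N) := Nat.one_lt_two_pow (by omega)
        rw [Nat.testBit_lt_two_pow (by split_ifs <;> omega)]
        simp [h4]

lemma prim_rec {O : Set (ℕ →. ℕ)} {f : ℕ → ℕ} (hf : Primrec f) :
    Nat.RecursiveIn O (fun n => Part.some (f n)) :=
  Nat.Primrec.recursiveIn (Primrec.nat_iff.mp hf)

lemma comp_rec {O : Set (ℕ →. ℕ)} {f : ℕ →. ℕ} {g : ℕ → ℕ} (hf : Nat.RecursiveIn O f)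
    (hg : Primrec g) : Nat.RecursiveIn O (fun n => f (g n)) := by
  refine (Nat.RecursiveIn.comp hf (prim_rec hg)).of_eq (fun n => ?_)
  exact Part.bind_some (g n) f

lemma seg_rec (X : Set ℕ) : Nat.RecursiveIn {chi X} (fun N => Part.some (seg X N)) := by
  classical
  -- the step function
  have hF : Primrec fun t : ℕ => t.unpair.1.unpair.2.unpair.2 +
      t.unpair.2 * 2 ^ t.unpair.1.unpair.2.unpair.1 := by
    have u1 : Primrec fun t : ℕ => t.unpair.1 := fst.comp Primrec.unpair
    have u2 : Primrec fun t : ℕ => t.unpair.2 := snd.comp Primrec.unpair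
    exact nat_add.comp (u2.comp (u2.comp u1))
      (nat_mul.comp u2 (pr_pow.comp (const 2) (u1.comp (u2.comp u1))))
  have ho : Nat.RecursiveIn {chi X} (chi X) := .oracle _ (Set.mem_singleton _)
  have u1 : Primrec fun t : ℕ => t.unpair.1 := fst.comp Primrec.unpair
  have u2 : Primrec fun t : ℕ => t.unpair.2 := snd.comp Primrec.unpair
  have hy : Nat.RecursiveIn {chi X} (fun n => chi X (n.unpair.2.unpair.1)) :=
    comp_rec ho (u1.comp u2)
  have hstep := Nat.RecursiveIn.comp (prim_rec (O := {chi X}) hF)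
    (Nat.RecursiveIn.pair (prim_rec (O := {chi X}) Primrec.id) hy)
  have hrec := Nat.RecursiveIn.prec (prim_rec (O := {chi X}) (Primrec.const 0)) hstep
  have hfin := comp_rec hrec (g := fun n => Nat.pair 0 n) (Primrec₂.natPair.comp (const 0) Primrec.id)
  refine hfin.of_eq (fun n => ?_)
  simp only [Nat.unpair_pair]
  induction n with
  | zero => rfl
  | succ n ih =>
    simp only at ih ⊢
    rw [ih]
    simp [chi, seg, Seq.seq]

/-- Unbounded search for a certificate that can be checked with an initial segment of `X`. -/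
lemma search (X : Set ℕ) (P : ℕ → ℕ → ℕ → Bool)
    (hP : Primrec fun t : ℕ × ℕ × ℕ => P t.1 t.2.1 t.2.2) (out : ℕ → ℕ → ℕ)
    (hout : Primrec₂ out) (f : ℕ → ℕ) (h1 : ∀ a, ∃ u, P a u (seg X u.unpair.2) = true)
    (h2 : ∀ a u, P a u (seg X u.unpair.2) = true → out a u = f a) :
    Nat.RecursiveIn {chi X} (fun a => Part.some (f a)) := by
  classical
  have u1 : Primrec fun t : ℕ => t.unpair.1 := fst.comp Primrec.unpair
  have u2 : Primrec fun t : ℕ => t.unpair.2 := snd.comp Primrec.unpair
  -- `t = pair (pair a u) s`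
  have hG : Primrec fun t : ℕ => if P t.unpair.1.unpair.1 t.unpair.1.unpair.2 t.unpair.2 = true
      then 0 else 1 :=
    Primrec.ite (pp_bool (hP.comp ((u1.comp u1).pair ((u2.comp u1).pair u2)))) (const 0) (const 1)
  have hseg : Nat.RecursiveIn {chi X} (fun q => Part.some (seg X q.unpair.2.unpair.2)) :=
    comp_rec (f := fun N => Part.some (seg X N)) (seg_rec X) (u2.comp u2)
  have hF := Nat.RecursiveIn.comp (prim_rec (O := {chi X}) hG)
    (Nat.RecursiveIn.pair (prim_rec (O := {chi X}) Primrec.id) hseg)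
  have hr := Nat.RecursiveIn.rfind hF
  have hO : Primrec fun t : ℕ => out t.unpair.1 t.unpair.2 := hout.comp u1 u2
  have hfin := Nat.RecursiveIn.comp (prim_rec (O := {chi X}) hO)
    (Nat.RecursiveIn.pair (prim_rec (O := {chi X}) Primrec.id) hr)
  refine hfin.of_eq_tot (fun a => ?_)
  have hex := h1 a
  have hspec := Nat.find_spec hex
  have hmin : ∀ {m}, m < Nat.find hex → ¬ P a m (seg X m.unpair.2) = true :=
    fun h => Nat.find_min hex h
  have hval := h2 a _ hspec
  simp only [Seq.seq, id_eq, Part.map_eq_map, Part.map_some, Part.bind_eq_bind, Part.bind_some,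
    Part.mem_bind_iff, Part.mem_map_iff, Part.mem_some_iff, Nat.unpair_pair]
  refine ⟨Nat.pair a (Nat.find hex), ⟨Nat.find hex, ?_, rfl⟩, ?_⟩
  · refine Nat.mem_rfind.2 ⟨?_, fun {m} hm => ?_⟩
    · simp [hspec]
    · simp [hmin hm]
  · simp [hval]

end Pool.Agent.Work.MP_69fea5_lc.DJ
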