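import Pool.Agent.Work.MP_69fea5_lc.DJCore

set_option autoImplicit false

/-! Primitive recursiveness of the functions used in the argument. -/

namespace Pool.Agent.Work.MP_69fea5_lc.DJ

open Primrec

section general

variable {γ : Type*} [Primcodable γ]

lemma pp_forall {R : γ → ℕ → Prop} (hR : PrimrecPred fun t : γ × ℕ => R t.1 t.2) {N : γ → ℕ}
    (hN : Primrec N) : PrimrecPred fun c => ∀ x < N c, R c x := by
  have h1 : PrimrecRel fun (x : ℕ) (c : γ) => R c x :=
    PrimrecPred.comp hR (Primrec.snd.pair Primrec.fst)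
  exact (h1.forall_mem_list.comp (list_range.comp hN) Primrec.id).of_eq (by simp)

lemma pp_exists {R : γ → ℕ → Prop} (hR : PrimrecPred fun t : γ × ℕ => R t.1 t.2) {N : γ → ℕ}
    (hN : Primrec N) : PrimrecPred fun c => ∃ x < N c, R c x := by
  have h1 : PrimrecRel fun (x : ℕ) (c : γ) => R c x :=
    PrimrecPred.comp hR (Primrec.snd.pair Primrec.fst)
  exact (h1.exists_mem_list.comp (list_range.comp hN) Primrec.id).of_eq (by simp)

lemma pp_imp {p q : γ → Prop} (hp : PrimrecPred p) (hq : PrimrecPred q) :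
    PrimrecPred fun c => p c → q c :=
  (hp.not.or hq).of_eq (fun c => by tauto)

lemma pp_bool {f : γ → Bool} (hf : Primrec f) : PrimrecPred fun c => f c = true :=
  Primrec.eq.comp hf (Primrec.const true)

end general

lemma pr_pow : Primrec₂ (fun a b : ℕ => a ^ b) := Primrec₂.unpaired'.mp Nat.Primrec.pow

lemma pr_testBit : Primrec₂ (fun n i : ℕ => n.testBit i) := by
  have h : PrimrecPred fun t : ℕ × ℕ => t.1 / 2 ^ t.2 % 2 = 1 :=
    Primrec.eq.comp (nat_mod.comp (nat_div.comp fst (pr_pow.comp (const 2) snd)) (const 2)) (const 1)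
  exact (h.decide).of_eq (fun t => (Nat.testBit_eq_decide_div_mod_eq (x := t.1) (i := t.2)).symm)

lemma pr_bits : Primrec bits := by
  have h : PrimrecRel fun (i n : ℕ) => n.testBit i = true :=
    pp_bool (pr_testBit.comp snd fst)
  have := (h.listFilter).comp list_range (Primrec.id)
  exact this.of_eq (fun n => by simp [bits])

lemma pr_sum : Primrec (fun L : List ℕ => L.sum) := by
  have h : Primrec₂ fun (_ : List ℕ) (p : ℕ × ℕ) => p.1 + p.2 :=
    (nat_add.comp (fst.comp snd) (snd.comp snd))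
  exact (list_foldr Primrec.id (const 0) h).of_eq (fun L => by rfl)

lemma pr_lo : Primrec lo := by
  have : Primrec fun L : List ℕ => (L.head?).getD 0 :=
    (option_getD.comp list_head? (const 0))
  exact this.of_eq (fun L => by cases L <;> rfl)

lemma pr_hi : Primrec hi := by
  have : Primrec fun L : List ℕ => (L.reverse.head?).getD 0 :=
    (option_getD.comp (list_head?.comp list_reverse) (const 0))
  exact this.of_eq (fun L => by
    unfold hi
    rw [List.getLastD_eq_getLast?, List.head?_reverse])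

lemma pr_S : Primrec S := pr_sum.comp pr_bits

lemma pr_lam : Primrec lam := pr_lo.comp (pr_bits.comp pr_S)

lemma pr_mu : Primrec mu := pr_hi.comp (pr_bits.comp pr_S)

/-- The value of the recursion step of `gsum`. -/
lemma gsum_eq_rec (w : ℕ → ℕ → Bool) (L : List ℕ) :
    gsum w L = List.rec (motive := fun _ => Bool) false
      (fun a l IH => (l.head?).casesOn IH (fun b => xor (w a b) IH)) L := by
  induction L with
  | nil => rfl
  | cons a L ih =>
    cases L with
    | nil => rfl
    | cons b L =>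
      rw [gsum, ih]
      rfl

variable {A : Approx}

/-- The data of `A` is primitive recursive. -/
structure PrimApprox (A : Approx) : Prop where
  Hs : Primrec₂ A.Hs
  ix : Primrec₂ A.ix

lemma PrimApprox.Kst (hA : PrimApprox A) :
    Primrec fun t : ℕ × ℕ × ℕ => A.Kst t.1 t.2.1 t.2.2 := by
  have h1 : PrimrecPred fun t : (ℕ × ℕ × ℕ) × ℕ =>
      ¬ (A.Hs t.1.2.1 (A.ix t.1.2.2 t.2) = true) :=
    (pp_bool (hA.Hs.comp (fst.comp (snd.comp fst))
      (hA.ix.comp (snd.comp (snd.comp fst)) snd))).not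
  exact (pp_exists (R := fun (t : ℕ × ℕ × ℕ) s => ¬ (A.Hs t.2.1 (A.ix t.2.2 s) = true)) h1
    fst).decide

lemma PrimApprox.W (hA : PrimApprox A) :
    Primrec fun t : (ℕ × ℕ) × ℕ × ℕ => A.W t.1.1 t.2.1 t.2.2 t.1.2 := by
  have h1 : PrimrecPred fun t : (ℕ × ℕ) × ℕ × ℕ =>
      ∀ q < t.2.1, A.Hs t.1.2 q = true → A.Hs t.2.2 q = true := by
    refine pp_forall (R := fun (t : (ℕ × ℕ) × ℕ × ℕ) q =>
      A.Hs t.1.2 q = true → A.Hs t.2.2 q = true) (pp_imp ?_ ?_) (fst.comp snd)
    · exact pp_bool (hA.Hs.comp (snd.comp (fst.comp fst)) snd)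
    · exact pp_bool (hA.Hs.comp (snd.comp (snd.comp fst)) snd)
  have h2 : PrimrecPred fun t : (ℕ × ℕ) × ℕ × ℕ =>
      ∀ p < t.1.1, A.Kst t.2.2 t.1.2 p = true → A.Kst t.2.1 t.1.2 p = true := by
    refine pp_forall (R := fun (t : (ℕ × ℕ) × ℕ × ℕ) p =>
      A.Kst t.2.2 t.1.2 p = true → A.Kst t.2.1 t.1.2 p = true) (pp_imp ?_ ?_) (fst.comp fst)
    · exact pp_bool (hA.Kst.comp ((snd.comp (snd.comp fst)).pair
        ((snd.comp (fst.comp fst)).pair snd)))
    · exact pp_bool (hA.Kst.comp ((fst.comp (snd.comp fst)).pair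
        ((snd.comp (fst.comp fst)).pair snd)))
  exact (Primrec.dom_bool₂ xor).comp h1.decide h2.decide

lemma PrimApprox.col (hA : PrimApprox A) : Primrec (col A.W) := by
  have hstep : Primrec₂ fun (n : ℕ) (t : ℕ × List ℕ × Bool) =>
      (Option.casesOn (t.2.1.head?) t.2.2
        (fun b => xor (A.W (lo (bits n)) t.1 b (hi (bits n))) t.2.2) : Bool) := by
    refine option_casesOn (list_head?.comp (fst.comp (snd.comp snd))) (snd.comp (snd.comp snd)) ?_
    have : Primrec fun (u : (ℕ × ℕ × List ℕ × Bool) × ℕ) =>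
        A.W (lo (bits u.1.1)) u.1.2.1 u.2 (hi (bits u.1.1)) :=
      hA.W.comp (((pr_lo.comp (pr_bits.comp (fst.comp fst))).pair
        (pr_hi.comp (pr_bits.comp (fst.comp fst)))).pair ((fst.comp (snd.comp fst)).pair snd))
    exact (Primrec.dom_bool₂ xor).comp this (snd.comp (snd.comp (snd.comp fst)))
  have := list_rec (f := bits) (g := fun _ => false) pr_bits (const false) hstep
  refine this.of_eq (fun n => ?_)
  unfold DJ.col
  rw [gsum_eq_rec]

end Pool.Agent.Work.MP_69fea5_lc.DJ
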