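import Mathlib
import Pool.Agent.Work.MP_69fea5_lc.Comp

/-! A computable injection coding the halting set. -/

namespace Pool.Agent.Work.MP_69fea5_lc

open Nat.Partrec (Code)

/-- A computable injection such that `2 * e` is a value iff `e` is in the halting set. -/
def gK (s : ℕ) : ℕ :=
  if (Code.evaln (s.unpair.2 + 1) (Denumerable.ofNat Code s.unpair.1) s.unpair.1).isSome = true ∧
      (Code.evaln s.unpair.2 (Denumerable.ofNat Code s.unpair.1) s.unpair.1).isSome = false
  then 2 * s.unpair.1 else 2 * s + 1

theorem gK_computable : Computable gK := by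
  apply Primrec.to_comp
  have he : Primrec (fun s : ℕ => s.unpair.1) := Primrec.fst.comp Primrec.unpair
  have ht : Primrec (fun s : ℕ => s.unpair.2) := Primrec.snd.comp Primrec.unpair
  have hc : Primrec (fun s : ℕ => Denumerable.ofNat Code s.unpair.1) :=
    (Primrec.ofNat Code).comp he
  refine Primrec.ite ?_ (Primrec.nat_mul.comp (Primrec.const 2) he)
    (Primrec.succ.comp (Primrec.nat_mul.comp (Primrec.const 2) Primrec.id))
  refine PrimrecPred.and ?_ ?_
  · exact Primrec.eq.comp (Primrec.option_isSome.comp (Code.primrec_evaln.comp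
      (Primrec.pair (Primrec.pair (Primrec.succ.comp ht) hc) he))) (Primrec.const true)
  · exact Primrec.eq.comp (Primrec.option_isSome.comp (Code.primrec_evaln.comp
      (Primrec.pair (Primrec.pair ht hc) he))) (Primrec.const false)

theorem isSome_mono {k k' : ℕ} {c : Code} {n : ℕ} (h : k ≤ k')
    (hs : (Code.evaln k c n).isSome = true) : (Code.evaln k' c n).isSome = true := by
  obtain ⟨x, hx⟩ := Option.isSome_iff_exists.1 hs
  have := Code.evaln_mono h (show x ∈ Code.evaln k c n from hx)
  exact Option.isSome_iff_exists.2 ⟨x, this⟩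

theorem gK_injective : Function.Injective gK := by
  intro s s' h
  unfold gK at h
  split_ifs at h with h1 h2 h2
  · have he : s.unpair.1 = s'.unpair.1 := by omega
    rw [← he] at h2
    have ht : s.unpair.2 = s'.unpair.2 := by
      rcases lt_trichotomy s.unpair.2 s'.unpair.2 with hlt | heq | hgt
      · have := isSome_mono (show s.unpair.2 + 1 ≤ s'.unpair.2 from hlt) h1.1
        rw [h2.2] at this
        exact absurd this (by simp)
      · exact heq
      · have := isSome_mono (show s'.unpair.2 + 1 ≤ s.unpair.2 from hgt) h2.1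
        rw [h1.2] at this
        exact absurd this (by simp)
    rw [← Nat.pair_unpair s, ← Nat.pair_unpair s', he, ht]
  · omega
  · omega
  · omega

theorem mem_haltingSet_iff (e : ℕ) : e ∈ haltingSet ↔ 2 * e ∈ Set.range gK := by
  constructor
  · intro h
    obtain ⟨x, hx⟩ := Part.dom_iff_mem.1 h
    have hex : ∃ k, (Code.evaln k (Denumerable.ofNat Code e) e).isSome = true := by
      obtain ⟨k, hk⟩ := Code.evaln_complete.1 hx
      exact ⟨k, Option.isSome_iff_exists.2 ⟨x, hk⟩⟩
    classical
    have hspec := Nat.find_spec hex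
    have hne : Nat.find hex ≠ 0 := by
      intro h0
      rw [h0] at hspec
      simp [Code.evaln] at hspec
    obtain ⟨t, ht⟩ := Nat.exists_eq_succ_of_ne_zero hne
    refine ⟨Nat.pair e t, ?_⟩
    unfold gK
    simp only [Nat.unpair_pair]
    rw [if_pos]
    refine ⟨by rw [ht] at hspec; exact hspec, ?_⟩
    have := Nat.find_min hex (m := t) (by omega)
    simpa using this
  · rintro ⟨s, hs⟩
    unfold gK at hs
    split_ifs at hs with h1
    · have he : s.unpair.1 = e := by omega
      rw [he] at h1
      obtain ⟨x, hx⟩ := Option.isSome_iff_exists.1 h1.1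
      exact Part.dom_iff_mem.2 ⟨x, Code.evaln_sound hx⟩
    · omega

/-- Computing the range of `gK` computes the halting set. -/
theorem halting_rec {O : Set (ℕ →. ℕ)}
    (h : Nat.RecursiveIn O (charFn (Set.range gK))) : Nat.RecursiveIn O (charFn haltingSet) := by
  classical
  have h2 : Nat.RecursiveIn O (fun n : ℕ => Part.some (2 * n)) :=
    comp_of (Primrec.nat_mul.comp (Primrec.const 2) Primrec.id).to_comp
  refine (Nat.RecursiveIn.comp h h2).of_eq ?_
  intro n
  simp only [Part.bind_eq_bind, Part.bind_some, charFn]
  by_cases hn : n ∈ haltingSet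
  · rw [if_pos hn, if_pos ((mem_haltingSet_iff n).1 hn)]
  · rw [if_neg hn, if_neg (fun h => hn ((mem_haltingSet_iff n).2 h))]

end Pool.Agent.Work.MP_69fea5_lc
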