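import Mathlib
import Pool.Agent.Work.MP_69fea5_lc.Three

/-! Two colours, at most three terms: the colouring. -/

namespace Pool.Agent.Work.MP_69fea5_lc

/-- Parity of the number of blocks of zeros of `w` in base `q` that contain (as a position) a stage
at which `g` lists a value less than `r`. -/
def F (g : ℕ → ℕ) (q w r : ℕ) : ℕ :=
  if _h : w < q ∨ q < 2 then 0
  else if ev g q w r then (F g q (w % q ^ Nat.log q w) r + 1) % 2
  else F g q (w % q ^ Nat.log q w) r
termination_by w
decreasing_by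
  · exact strip_lt (by omega)
  · exact strip_lt (by omega)

theorem F_zero {g : ℕ → ℕ} {q w r : ℕ} (h : w < q ∨ q < 2) : F g q w r = 0 := by
  rw [F, dif_pos h]

theorem F_base {g : ℕ → ℕ} {q w r : ℕ} (h : w < q) : F g q w r = 0 := by
  rw [F, dif_pos (Or.inl h)]

theorem F_of_ev {g : ℕ → ℕ} {q w r : ℕ} (hq : 1 < q) (hw : q ≤ w) (h : ev g q w r) :
    F g q w r = (F g q (w % q ^ Nat.log q w) r + 1) % 2 := by
  rw [F, dif_neg (by omega), if_pos h]

theorem F_of_not_ev {g : ℕ → ℕ} {q w r : ℕ} (hq : 1 < q) (hw : q ≤ w) (h : ¬ ev g q w r) :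
    F g q w r = F g q (w % q ^ Nat.log q w) r := by
  rw [F, dif_neg (by omega), if_neg h]

theorem F_lt (g : ℕ → ℕ) (q r w : ℕ) : F g q w r < 2 := by
  induction w using Nat.strong_induction_on with
  | _ w ih =>
    by_cases h : w < q ∨ q < 2
    · rw [F, dif_pos h]; norm_num
    · by_cases hev : ev g q w r
      · rw [F_of_ev (by omega) (by omega) hev]; omega
      · rw [F_of_not_ev (by omega) (by omega) hev]; exact ih _ (strip_lt (by omega))

open Classical in
theorem F_add {g : ℕ → ℕ} {q u M r : ℕ} (hq : 1 < q) (hu : u < q ^ M) (hM1 : 1 ≤ M)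
    (hM : ∀ s, g s < r → s < M) : ∀ v, 0 < v →
    F g q (u + q ^ M * v) r = (F g q u r + (if EV g q u r then 1 else 0)) % 2 := by
  intro v
  induction v using Nat.strong_induction_on with
  | _ v ih =>
    intro hv
    have hge : q ≤ u + q ^ M * v := by
      have h1 : q ^ 1 ≤ q ^ M := Nat.pow_le_pow_right (by omega) hM1
      have h2 : q ^ M ≤ q ^ M * v := Nat.le_mul_of_pos_right _ hv
      rw [pow_one] at h1
      omega
    have hlt := F_lt g q r u
    by_cases hv' : v % q ^ Nat.log q v = 0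
    · by_cases hE : EV g q u r
      · have h := (ev_add_iff hq hu hv hM hv').2 hE
        rw [F_of_ev hq hge h, log_add hq hu hv, strip_add hq hu, hv', mul_zero, add_zero,
          if_pos hE]
      · have h : ¬ ev g q (u + q ^ M * v) r :=
          fun h => hE ((ev_add_iff hq hu hv hM hv').1 h)
        rw [F_of_not_ev hq hge h, log_add hq hu hv, strip_add hq hu, hv', mul_zero, add_zero,
          if_neg hE]
        omega
    · have h := ev_add_false (g := g) (r := r) hq hu hv hM hv'
      rw [F_of_not_ev hq hge h, log_add hq hu hv, strip_add hq hu]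
      exact ih _ (strip_lt hv) (Nat.pos_of_ne_zero hv')

theorem F_congr {g : ℕ → ℕ} {q w w' M r : ℕ} (hq : 1 < q) (hM1 : 1 ≤ M)
    (hM : ∀ s, g s < r → s < M) (h : w ≡ w' [MOD q ^ M]) (hw : q ^ M ≤ w) (hw' : q ^ M ≤ w') :
    F g q w r = F g q w' r := by
  have hpos : 0 < q ^ M := Nat.pow_pos (by omega)
  rw [← Nat.mod_add_div w (q ^ M), ← Nat.mod_add_div w' (q ^ M),
    F_add hq (Nat.mod_lt _ hpos) hM1 hM _ (Nat.div_pos hw hpos),
    F_add hq (Nat.mod_lt _ hpos) hM1 hM _ (Nat.div_pos hw' hpos), h]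

theorem F_EV {g : ℕ → ℕ} {q u M r v k : ℕ} (hq : 1 < q) (hu : u < q ^ M) (hM1 : 1 ≤ M)
    (hM : ∀ s, g s < r → s < M) (hv : 0 < v)
    (h : (k + F g q u r) % 2 = (k + F g q (u + q ^ M * v) r) % 2) : ¬ EV g q u r := by
  intro hE
  rw [F_add hq hu hM1 hM v hv, if_pos hE] at h
  omega

theorem F_local {g g' : ℕ → ℕ} {N q : ℕ} (hN : ∀ s < N, g s = g' s) (w r : ℕ) :
    w ≤ N → F g q w r = F g' q w r := by
  have hev : ∀ w ≤ N, ev g q w r ↔ ev g' q w r := by
    intro w hw
    unfold ev
    have hl := Nat.log_le_self q w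
    constructor
    · rintro ⟨s, h1, h2, h3⟩
      exact ⟨s, h1, h2, by rw [← hN s (by omega)]; exact h3⟩
    · rintro ⟨s, h1, h2, h3⟩
      exact ⟨s, h1, h2, by rw [hN s (by omega)]; exact h3⟩
  induction w using Nat.strong_induction_on with
  | _ w ih =>
    intro hw
    by_cases h0 : w < q ∨ q < 2
    · rw [F_zero h0, F_zero h0]
    · have hs := strip_lt (q := q) (w := w) (by omega)
      by_cases h : ev g q w r
      · rw [F_of_ev (by omega) (by omega) h, F_of_ev (by omega) (by omega) ((hev w hw).1 h),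
          ih _ hs (by omega)]
      · rw [F_of_not_ev (by omega) (by omega) h,
          F_of_not_ev (by omega) (by omega) (fun h' => h ((hev w hw).2 h')), ih _ hs (by omega)]

theorem primrec_F (q : ℕ) (hq : 1 < q) : Primrec₂ (fun (p : List ℕ × ℕ) (w : ℕ) =>
    F (fun s => p.1.getD s 0) q w p.2) := by
  have hlog := primrec_log q hq
  let st : List ℕ × ℕ → List ℕ → ℕ := fun p P =>
    if P.length < q then 0
    else if ev (fun s => p.1.getD s 0) q P.length p.2 then
      (P.getD (P.length % q ^ Nat.log q P.length) 0 + 1) % 2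
    else P.getD (P.length % q ^ Nat.log q P.length) 0
  have hl : Primrec (fun p : (List ℕ × ℕ) × List ℕ => p.2.length) :=
    Primrec.list_length.comp Primrec.snd
  have hs : Primrec (fun p : (List ℕ × ℕ) × List ℕ =>
      p.2.length % q ^ Nat.log q p.2.length) :=
    Primrec.nat_mod.comp hl (primrec_pow.comp (Primrec.const q) (hlog.comp hl))
  have hA : Primrec (fun p : (List ℕ × ℕ) × List ℕ =>
      p.2.getD (p.2.length % q ^ Nat.log q p.2.length) 0) :=
    (Primrec.list_getD 0).comp Primrec.snd hs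
  have hst : Primrec₂ st := by
    refine Primrec.ite ?_ (Primrec.const 0) (Primrec.ite ?_ ?_ hA)
    · exact Primrec.nat_lt.comp hl (Primrec.const q)
    · exact (primrec_ev q hq).comp (Primrec.pair (Primrec.fst.comp Primrec.fst)
        (Primrec.pair hl (Primrec.snd.comp Primrec.fst)))
    · exact Primrec.nat_mod.comp (Primrec.succ.comp hA) (Primrec.const 2)
  refine Primrec.nat_strong_rec _ (g := fun L P => some (st L P))
    (Primrec.option_some.comp hst) ?_
  intro p w
  simp only [Option.some.injEq]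
  have hget : ∀ y < w, ((List.range w).map (fun w : ℕ =>
      F (fun s => p.1.getD s 0) q w p.2)).getD y 0 =
      F (fun s => p.1.getD s 0) q y p.2 := by
    intro y hy
    simp [List.getD, hy]
  simp only [st, List.length_map, List.length_range]
  by_cases hw : w < q
  · rw [if_pos hw, F_base hw]
  · rw [if_neg hw, hget _ (strip_lt (by omega))]
    by_cases h : ev (fun s => p.1.getD s 0) q w p.2
    · rw [if_pos h, F_of_ev hq (by omega) h]
    · rw [if_neg h, F_of_not_ev hq (by omega) h]

/-- The colour as a function of the two valuations and of the two level functions. -/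
def comb (b a : ℕ) (f2 f3 : ℕ → ℕ) : ℕ :=
  if a ≤ b then (b + f2 ((a + b) / 2)) % 2 else (a + f3 ((a + b + 1) / 2)) % 2

/-- No corner `(b, a), (b + 1, a), (b, a + 1)` is monochromatic. -/
theorem comb_corner (b a : ℕ) (f2 f3 : ℕ → ℕ) :
    ¬ (comb b a f2 f3 = comb (b + 1) a f2 f3 ∧ comb b a f2 f3 = comb b (a + 1) f2 f3) := by
  rintro ⟨h1, h2⟩
  unfold comb at h1 h2
  rcases lt_trichotomy a b with h | h | h
  · rw [if_pos (by omega), if_pos (by omega)] at h1 h2
    have : (a + (b + 1)) / 2 = (a + 1 + b) / 2 := by congr 1; omega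
    rw [this] at h1
    omega
  · rw [if_pos (by omega), if_pos (by omega)] at h1
    have : (a + (b + 1)) / 2 = (a + b) / 2 := by omega
    rw [this] at h1
    omega
  · rcases Nat.lt_or_ge (b + 1) a with h' | h'
    · rw [if_neg (by omega), if_neg (by omega)] at h1 h2
      have : (a + (b + 1) + 1) / 2 = (a + 1 + b + 1) / 2 := by congr 1; omega
      rw [this] at h1
      omega
    · rw [if_neg (by omega), if_neg (by omega)] at h2
      have : (a + b + 1) / 2 = (a + 1 + b + 1) / 2 := by omega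
      rw [this] at h2
      omega

/-- The two-colouring attached to `g`. -/
def c2 (g : ℕ → ℕ) (x : ℕ) : ℕ :=
  if val 3 x ≤ val 2 x then
    (val 2 x + F g 2 (x / (2 ^ val 2 x * 3 ^ val 3 x)) ((val 3 x + val 2 x) / 2)) % 2
  else
    (val 3 x + F g 3 (x / (2 ^ val 2 x * 3 ^ val 3 x)) ((val 3 x + val 2 x + 1) / 2)) % 2

theorem c2_lt (g : ℕ → ℕ) (x : ℕ) : c2 g x < 2 := by
  unfold c2; split_ifs <;> omega

theorem vals {b a w : ℕ} (h2 : ¬ 2 ∣ w) (h3 : ¬ 3 ∣ w) :
    val 2 (2 ^ b * 3 ^ a * w) = b ∧ val 3 (2 ^ b * 3 ^ a * w) = a := by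
  constructor
  · rw [mul_assoc]
    apply val_mul (by norm_num)
    intro h
    rcases (Nat.Prime.dvd_mul Nat.prime_two).1 h with h | h
    · have := Nat.Prime.dvd_of_dvd_pow Nat.prime_two h
      omega
    · exact h2 h
  · rw [mul_comm (2 ^ b) (3 ^ a), mul_assoc]
    apply val_mul (by norm_num)
    intro h
    rcases (Nat.Prime.dvd_mul Nat.prime_three).1 h with h | h
    · have := Nat.Prime.dvd_of_dvd_pow Nat.prime_three h
      omega
    · exact h3 h

theorem c2_mul {g : ℕ → ℕ} {b a w : ℕ} (h2 : ¬ 2 ∣ w) (h3 : ¬ 3 ∣ w) :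
    c2 g (2 ^ b * 3 ^ a * w) = comb b a (F g 2 w) (F g 3 w) := by
  obtain ⟨hb, ha⟩ := vals (b := b) (a := a) h2 h3
  unfold c2 comb
  rw [hb, ha, Nat.mul_div_cancel_left _ (by positivity)]

theorem c2_rec {O : Set (ℕ →. ℕ)} {g : ℕ → ℕ}
    (hg : Nat.RecursiveIn O (fun n => Part.some (g n))) :
    Nat.RecursiveIn O (fun n => Part.some (c2 g n)) := by
  have hv2 : Primrec (fun p : List ℕ × ℕ => val 2 p.2) := (primrec_val 2).comp Primrec.snd
  have hv3 : Primrec (fun p : List ℕ × ℕ => val 3 p.2) := (primrec_val 3).comp Primrec.snd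
  have hw : Primrec (fun p : List ℕ × ℕ => p.2 / (2 ^ val 2 p.2 * 3 ^ val 3 p.2)) :=
    Primrec.nat_div.comp Primrec.snd (Primrec.nat_mul.comp
      (primrec_pow.comp (Primrec.const 2) hv2) (primrec_pow.comp (Primrec.const 3) hv3))
  have hs : Primrec (fun p : List ℕ × ℕ => val 3 p.2 + val 2 p.2) := Primrec.nat_add.comp hv3 hv2
  refine rec_of_pre (Φ := fun L x =>
    if val 3 x ≤ val 2 x then
      (val 2 x + F (fun s => L.getD s 0) 2 (x / (2 ^ val 2 x * 3 ^ val 3 x))
        ((val 3 x + val 2 x) / 2)) % 2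
    else
      (val 3 x + F (fun s => L.getD s 0) 3 (x / (2 ^ val 2 x * 3 ^ val 3 x))
        ((val 3 x + val 2 x + 1) / 2)) % 2) hg ?_ ?_
  · refine Primrec.ite ?_ ?_ ?_
    · exact Primrec.nat_le.comp hv3 hv2
    · refine Primrec.nat_mod.comp (Primrec.nat_add.comp hv2 ?_) (Primrec.const 2)
      exact (primrec_F 2 (by norm_num)).comp (Primrec.pair Primrec.fst
        (Primrec.nat_div.comp hs (Primrec.const 2))) hw
    · refine Primrec.nat_mod.comp (Primrec.nat_add.comp hv3 ?_) (Primrec.const 2)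
      exact (primrec_F 3 (by norm_num)).comp (Primrec.pair Primrec.fst
        (Primrec.nat_div.comp (Primrec.succ.comp hs) (Primrec.const 2))) hw
  · intro x
    unfold c2
    rw [F_local (q := 2) (g' := fun s => (pre g x).getD s 0) (N := x)
      (fun s hs => (pre_getD _ _ _ hs).symm) _ _ (Nat.div_le_self _ _),
      F_local (q := 3) (g' := fun s => (pre g x).getD s 0) (N := x)
      (fun s hs => (pre_getD _ _ _ hs).symm) _ _ (Nat.div_le_self _ _)]

end Pool.Agent.Work.MP_69fea5_lc
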