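import Mathlib
import Pool.Agent.Work.MP_69fea5_lc.Two

/-! Two colours, at most three terms: the proof. -/

namespace Pool.Agent.Work.MP_69fea5_lc

theorem exists_vals {x : ℕ} (hx : 0 < x) :
    ∃ b a w, ¬ 2 ∣ w ∧ ¬ 3 ∣ w ∧ x = 2 ^ b * 3 ^ a * w := by
  obtain ⟨b, w, hw, h⟩ := Nat.exists_eq_pow_mul_and_not_dvd hx.ne' 2 (by norm_num)
  have hw0 : w ≠ 0 := by rintro rfl; exact hw (dvd_zero 2)
  obtain ⟨a, w', hw', h'⟩ := Nat.exists_eq_pow_mul_and_not_dvd hw0 3 (by norm_num)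
  refine ⟨b, a, w', ?_, hw', by rw [h, h']; ring⟩
  intro h2
  exact hw (h' ▸ Dvd.dvd.mul_left h2 _)

theorem sol_three {c : ℕ → ℕ} {n : ℕ} {X : Set ℕ} {i : ℕ} (hn : 3 ≤ n)
    (h : ∀ F : Finset ℕ, (F : Set ℕ) ⊆ X → F.Nonempty → F.card ≤ n → c (∑ x ∈ F, x) = i)
    {x y z : ℕ} (hx : x ∈ X) (hy : y ∈ X) (hz : z ∈ X) (hxy : x ≠ y) (hxz : x ≠ z)
    (hyz : y ≠ z) : c (x + y + z) = i := by
  have hcard : ({x, y, z} : Finset ℕ).card = 3 := Finset.card_eq_three.2 ⟨x, y, z, hxy, hxz, hyz, rfl⟩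
  have := h {x, y, z} (by
    intro t ht
    simp only [Finset.coe_insert, Finset.coe_singleton, Set.mem_insert_iff,
      Set.mem_singleton_iff] at ht
    rcases ht with rfl | rfl | rfl
    · exact hx
    · exact hy
    · exact hz) ⟨x, by simp⟩ (by rw [hcard]; exact hn)
  rw [Finset.sum_insert (by simp [hxy, hxz]), Finset.sum_pair hyz, ← add_assoc] at this
  exact this

/-- Cancelling the power of six. -/
theorem modEq_cancel {c q M N w w' : ℕ} (hc : c ≠ 0) (hd : c * q ^ M ∣ 6 ^ N)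
    (h : c * w ≡ c * w' [MOD 6 ^ N]) : w ≡ w' [MOD q ^ M] :=
  Nat.ModEq.mul_left_cancel' hc (h.of_dvd hd)

theorem dvd_six {i j N : ℕ} (hi : i ≤ N) (hj : j ≤ N) : 2 ^ i * 3 ^ j ∣ 6 ^ N := by
  have : (6 : ℕ) ^ N = 2 ^ N * 3 ^ N := by rw [← mul_pow]; norm_num
  rw [this]
  exact mul_dvd_mul (pow_dvd_pow 2 hi) (pow_dvd_pow 3 hj)

/-- Close elements with the same valuations. -/
theorem key_close {g : ℕ → ℕ} {M B N r : ℕ} (hM1 : 1 ≤ M) (hM : ∀ s, g s < r → s < M)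
    {b' a' : ℕ} (hba : b' + a' ≤ B + 1) (hN : N = M + B + 2)
    {w w' : ℕ} (h : 2 ^ b' * 3 ^ a' * w ≡ 2 ^ b' * 3 ^ a' * w' [MOD 6 ^ N])
    (hw : 6 ^ N ≤ 2 ^ b' * 3 ^ a' * w) (hw' : 6 ^ N ≤ 2 ^ b' * 3 ^ a' * w') :
    (w ≡ w' [MOD 2 ^ M]) ∧ (w ≡ w' [MOD 3 ^ M]) ∧
      F g 2 w r = F g 2 w' r ∧ F g 3 w r = F g 3 w' r := by
  have hc : 2 ^ b' * 3 ^ a' ≠ 0 := by positivity
  have h2 : w ≡ w' [MOD 2 ^ M] := by
    refine modEq_cancel hc ?_ h
    have : 2 ^ b' * 3 ^ a' * 2 ^ M = 2 ^ (b' + M) * 3 ^ a' := by rw [pow_add]; ring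
    rw [this]
    exact dvd_six (by omega) (by omega)
  have h3 : w ≡ w' [MOD 3 ^ M] := by
    refine modEq_cancel hc ?_ h
    have : 2 ^ b' * 3 ^ a' * 3 ^ M = 2 ^ b' * 3 ^ (a' + M) := by rw [pow_add]; ring
    rw [this]
    exact dvd_six (by omega) (by omega)
  have hcle : 2 ^ b' * 3 ^ a' ≤ 6 ^ (B + 1) := by
    calc 2 ^ b' * 3 ^ a' ≤ 6 ^ b' * 6 ^ a' :=
          Nat.mul_le_mul (Nat.pow_le_pow_left (by norm_num) _) (Nat.pow_le_pow_left (by norm_num) _)
      _ = 6 ^ (b' + a') := by rw [pow_add]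
      _ ≤ 6 ^ (B + 1) := Nat.pow_le_pow_right (by norm_num) hba
  have hsize : ∀ t, 6 ^ N ≤ 2 ^ b' * 3 ^ a' * t → 6 ^ M ≤ t := by
    intro t ht
    by_contra hc
    push Not at hc
    have h1 : 2 ^ b' * 3 ^ a' * t ≤ 6 ^ (B + 1) * 6 ^ M := Nat.mul_le_mul hcle hc.le
    have h2 : 6 ^ (B + 1) * 6 ^ M < 6 ^ N := by
      rw [← pow_add]
      exact Nat.pow_lt_pow_right (by norm_num) (by omega)
    omega
  have hw6 := hsize _ hw
  have hw6' := hsize _ hw'
  have h26 : 2 ^ M ≤ 6 ^ M := Nat.pow_le_pow_left (by norm_num) _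
  have h36 : 3 ^ M ≤ 6 ^ M := Nat.pow_le_pow_left (by norm_num) _
  exact ⟨h2, h3, F_congr (by norm_num) hM1 hM h2 (by omega) (by omega),
    F_congr (by norm_num) hM1 hM h3 (by omega) (by omega)⟩

theorem c2_finite {g : ℕ → ℕ} (hg : Function.Injective g) {X : Set ℕ}
    (hX : IsSolution (c2 g) 3 X) (B : ℕ) : {x ∈ X | val 2 x + val 3 x ≤ B}.Finite := by
  obtain ⟨hinf, hpos, i, hi⟩ := hX
  by_contra hcon
  have hS0 : {x ∈ X | val 2 x + val 3 x ≤ B}.Infinite := hcon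
  obtain ⟨M, hM1, hM⟩ := exists_bound hg (B + 2)
  obtain ⟨N, hN⟩ : ∃ N, N = M + B + 2 := ⟨_, rfl⟩
  have hS : ({x ∈ X | val 2 x + val 3 x ≤ B} \ Set.Iio (6 ^ N)).Infinite :=
    hS0.sdiff (Set.finite_Iio _)
  -- three elements with the same data
  obtain ⟨y, hy⟩ : ∃ y : (ℕ × ℕ) × ℕ, ({x ∈ X | val 2 x + val 3 x ≤ B} \ Set.Iio (6 ^ N) ∩
      (fun x => ((val 2 x, val 3 x), x % 6 ^ N)) ⁻¹' {y}).Infinite := by
    by_contra hno
    push Not at hno
    apply hS
    have hfinT : ((Set.Iic B ×ˢ Set.Iic B) ×ˢ Set.Iio (6 ^ N) : Set ((ℕ × ℕ) × ℕ)).Finite :=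
      ((Set.finite_Iic B).prod (Set.finite_Iic B)).prod (Set.finite_Iio _)
    refine (hfinT.biUnion (fun y _ => hno y)).subset ?_
    rintro x ⟨⟨hx1, hx2⟩, hx3⟩
    simp only [Set.mem_iUnion]
    refine ⟨((val 2 x, val 3 x), x % 6 ^ N), ?_, ⟨⟨⟨hx1, hx2⟩, hx3⟩, rfl⟩⟩
    simp only [Set.mem_prod, Set.mem_Iic, Set.mem_Iio]
    exact ⟨⟨by omega, by omega⟩, Nat.mod_lt _ (by positivity)⟩
  obtain ⟨t, ht, htc⟩ := hy.exists_subset_card_eq 3
  obtain ⟨x₁, x₂, x₃, h12, h13, h23, rfl⟩ := Finset.card_eq_three.1 htc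
  have hm1 := ht (show x₁ ∈ (({x₁, x₂, x₃} : Finset ℕ) : Set ℕ) by simp)
  have hm2 := ht (show x₂ ∈ (({x₁, x₂, x₃} : Finset ℕ) : Set ℕ) by simp)
  have hm3 := ht (show x₃ ∈ (({x₁, x₂, x₃} : Finset ℕ) : Set ℕ) by simp)
  obtain ⟨⟨⟨hX1, hB1⟩, hsz1⟩, hf1⟩ := hm1
  obtain ⟨⟨⟨hX2, -⟩, hsz2⟩, hf2⟩ := hm2
  obtain ⟨⟨⟨hX3, -⟩, hsz3⟩, hf3⟩ := hm3
  rw [Set.mem_Iio, not_lt] at hsz1 hsz2 hsz3
  simp only [Set.mem_preimage, Set.mem_singleton_iff] at hf1 hf2 hf3
  obtain ⟨b, a, w₁, h2w1, h3w1, hx1⟩ := exists_vals (hpos _ hX1)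
  obtain ⟨b', a', w₂, h2w2, h3w2, hx2⟩ := exists_vals (hpos _ hX2)
  obtain ⟨b'', a'', w₃, h2w3, h3w3, hx3⟩ := exists_vals (hpos _ hX3)
  have hv1 := vals (b := b) (a := a) h2w1 h3w1
  have hv2 := vals (b := b') (a := a') h2w2 h3w2
  have hv3 := vals (b := b'') (a := a'') h2w3 h3w3
  rw [← hx1] at hv1
  rw [← hx2] at hv2
  rw [← hx3] at hv3
  have hf12 := hf1.trans hf2.symm
  have hf13 := hf1.trans hf3.symm
  rw [hv1.1, hv1.2, hv2.1, hv2.2] at hf12
  rw [hv1.1, hv1.2, hv3.1, hv3.2] at hf13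
  simp only [Prod.mk.injEq] at hf12 hf13
  obtain ⟨⟨rfl, rfl⟩, hmod12⟩ := hf12
  obtain ⟨⟨rfl, rfl⟩, hmod13⟩ := hf13
  rw [hv1.1, hv1.2] at hB1
  have hm12 : x₁ ≡ x₂ [MOD 6 ^ N] := hmod12
  have hm13 : x₁ ≡ x₃ [MOD 6 ^ N] := hmod13
  -- residues of the cofactors
  have hc0 : 2 ^ b * 3 ^ a ≠ 0 := by positivity
  have hw12 : w₁ ≡ w₂ [MOD 3] := by
    have := modEq_cancel (q := 3) (M := 1) (w := w₁) (w' := w₂) (N := N) hc0 (by
      have : 2 ^ b * 3 ^ a * 3 ^ 1 = 2 ^ b * 3 ^ (a + 1) := by rw [pow_add]; ring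
      rw [this]; exact dvd_six (by omega) (by omega)) (by rw [← hx1, ← hx2]; exact hm12)
    simpa using this
  have hw13 : w₁ ≡ w₃ [MOD 3] := by
    have := modEq_cancel (q := 3) (M := 1) (w := w₁) (w' := w₃) (N := N) hc0 (by
      have : 2 ^ b * 3 ^ a * 3 ^ 1 = 2 ^ b * 3 ^ (a + 1) := by rw [pow_add]; ring
      rw [this]; exact dvd_six (by omega) (by omega)) (by rw [← hx1, ← hx3]; exact hm13)
    simpa using this
  -- the sum of two
  obtain ⟨w', hw'⟩ : ∃ w', w₁ + w₂ = 2 * w' := ⟨(w₁ + w₂) / 2, by omega⟩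
  have hs2 : x₁ + x₂ = 2 ^ (b + 1) * 3 ^ a * w' := by
    rw [hx1, hx2, ← mul_add, hw', pow_succ]; ring
  -- the sum of three
  obtain ⟨w'', hw''⟩ : ∃ w'', w₁ + w₂ + w₃ = 3 * w'' := ⟨(w₁ + w₂ + w₃) / 3, by
    unfold Nat.ModEq at hw12 hw13; omega⟩
  have hs3 : x₁ + x₂ + x₃ = 2 ^ b * 3 ^ (a + 1) * w'' := by
    rw [hx1, hx2, hx3, ← mul_add, ← mul_add, hw'', pow_succ]; ring
  have hR : ∀ r, r ≤ B + 2 → ∀ s, g s < r → s < M := fun r hr s hs => hM s (by omega)
  have hk2 := fun r (hr : r ≤ B + 2) => key_close (g := g) (r := r) hM1 (hR r hr)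
    (b' := b + 1) (a' := a) (w := w') (w' := w₁) (by omega) hN (by
      rw [← hs2]
      have : 2 ^ (b + 1) * 3 ^ a * w₁ = x₁ + x₁ := by rw [hx1, pow_succ]; ring
      rw [this]
      exact Nat.ModEq.add_left _ hm12.symm) (by rw [← hs2]; omega) (by
      have : 2 ^ (b + 1) * 3 ^ a * w₁ = x₁ + x₁ := by rw [hx1, pow_succ]; ring
      omega)
  have hk3 := fun r (hr : r ≤ B + 2) => key_close (g := g) (r := r) hM1 (hR r hr)
    (b' := b) (a' := a + 1) (w := w'') (w' := w₁) (by omega) hN (by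
      rw [← hs3]
      have : 2 ^ b * 3 ^ (a + 1) * w₁ = x₁ + x₁ + x₁ := by rw [hx1, pow_succ]; ring
      rw [this]
      exact Nat.ModEq.add (Nat.ModEq.add_left _ hm12.symm) hm13.symm) (by rw [← hs3]; omega) (by
      have : 2 ^ b * 3 ^ (a + 1) * w₁ = x₁ + x₁ + x₁ := by rw [hx1, pow_succ]; ring
      omega)
  -- coprimality
  have red2 : ∀ t, t ≡ w₁ [MOD 2 ^ M] → ¬ 2 ∣ t := by
    intro t ht hd
    have h1 : t ≡ w₁ [MOD 2] := ht.of_dvd (dvd_pow_self 2 (by omega))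
    apply h2w1
    exact (Nat.ModEq.dvd_iff h1 dvd_rfl).1 hd
  have red3 : ∀ t, t ≡ w₁ [MOD 3 ^ M] → ¬ 3 ∣ t := by
    intro t ht hd
    have h1 : t ≡ w₁ [MOD 3] := ht.of_dvd (dvd_pow_self 3 (by omega))
    apply h3w1
    exact (Nat.ModEq.dvd_iff h1 dvd_rfl).1 hd
  have h20 := hk2 0 (by omega)
  have h30 := hk3 0 (by omega)
  have e1 : c2 g x₁ = comb b a (F g 2 w₁) (F g 3 w₁) := by rw [hx1, c2_mul h2w1 h3w1]
  have e2 : c2 g (x₁ + x₂) = comb (b + 1) a (F g 2 w') (F g 3 w') := by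
    rw [hs2, c2_mul (red2 _ h20.1) (red3 _ h20.2.1)]
  have e3 : c2 g (x₁ + x₂ + x₃) = comb b (a + 1) (F g 2 w'') (F g 3 w'') := by
    rw [hs3, c2_mul (red2 _ h30.1) (red3 _ h30.2.1)]
  have e2' : comb (b + 1) a (F g 2 w') (F g 3 w') = comb (b + 1) a (F g 2 w₁) (F g 3 w₁) := by
    unfold comb
    rw [(hk2 ((a + (b + 1)) / 2) (by omega)).2.2.1, (hk2 ((a + (b + 1) + 1) / 2) (by omega)).2.2.2]
  have e3' : comb b (a + 1) (F g 2 w'') (F g 3 w'') = comb b (a + 1) (F g 2 w₁) (F g 3 w₁) := by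
    unfold comb
    rw [(hk3 ((a + 1 + b) / 2) (by omega)).2.2.1, (hk3 ((a + 1 + b + 1) / 2) (by omega)).2.2.2]
  rw [e2'] at e2
  rw [e3'] at e3
  have i1 := sol_one (by norm_num) hi hX1
  have i2 := sol_two (by norm_num) hi hX1 hX2 h12
  have i3 := sol_three le_rfl hi hX1 hX2 hX3 h12 h13 h23
  exact comb_corner b a (F g 2 w₁) (F g 3 w₁)
    ⟨by rw [← e1, ← e2, i1, i2], by rw [← e1, ← e3, i1, i3]⟩

/-- The coding step. -/
theorem settled {g : ℕ → ℕ} (hg : Function.Injective g) {b a w x : ℕ} (h2 : ¬ 2 ∣ w)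
    (h3 : ¬ 3 ∣ w) (hx : x = 2 ^ b * 3 ^ a * w)
    (h : ∀ M, 1 ≤ M → w < 2 ^ M → ∃ v, 0 < v ∧ ¬ 2 ∣ w + (if a ≤ b then 2 else 3) ^ M * v ∧
      ¬ 3 ∣ w + (if a ≤ b then 2 else 3) ^ M * v ∧
      c2 g x = c2 g (2 ^ b * 3 ^ a * (w + (if a ≤ b then 2 else 3) ^ M * v))) :
    ∀ s, x ≤ s → (a + b) / 2 ≤ g s := by
  intro s hs
  obtain ⟨M0, hM1, hM0⟩ := exists_bound hg (a + b + 1)
  obtain ⟨M, hMM, hwM⟩ : ∃ M, M0 ≤ M ∧ w < 2 ^ M :=
    ⟨max M0 w, le_max_left _ _, lt_of_lt_of_le (Nat.lt_pow_self (by norm_num))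
      (Nat.pow_le_pow_right (by norm_num) (le_max_right M0 w))⟩
  obtain ⟨v, hv, hd2, hd3, hc⟩ := h M (by omega) hwM
  rw [c2_mul hd2 hd3, hx, c2_mul h2 h3] at hc
  have hws : w ≤ s := by
    calc w ≤ 2 ^ b * 3 ^ a * w := Nat.le_mul_of_pos_left _ (by positivity)
      _ = x := hx.symm
      _ ≤ s := hs
  unfold comb at hc
  by_cases hab : a ≤ b
  · simp only [if_pos hab] at hc
    have hE := F_EV (g := g) (r := (a + b) / 2) (by norm_num) hwM (by omega)
      (fun s hs => by have := hM0 s (by omega); omega) hv hc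
    by_contra hcon
    exact hE ⟨s, lt_of_le_of_lt hws (Nat.lt_pow_self (by norm_num)), by omega⟩
  · simp only [if_neg hab] at hc
    have hw3 : w < 3 ^ M := lt_of_lt_of_le hwM (Nat.pow_le_pow_left (by norm_num) _)
    have hE := F_EV (g := g) (r := (a + b + 1) / 2) (by norm_num) hw3 (by omega)
      (fun s hs => by have := hM0 s (by omega); omega) hv hc
    by_contra hcon
    exact hE ⟨s, lt_of_le_of_lt hws (Nat.lt_pow_self (by norm_num)), by omega⟩

theorem exists_large {A : Set ℕ} (hinf : A.Infinite) {f : ℕ → ℕ}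
    (hfin : ∀ B, {x ∈ A | f x ≤ B}.Finite) (B : ℕ) (S : Finset ℕ) :
    ∃ y ∈ A, B < f y ∧ y ∉ S := by
  have h1 : (A \ ({x ∈ A | f x ≤ B} ∪ (S : Set ℕ))).Infinite :=
    hinf.sdiff ((hfin B).union S.finite_toSet)
  obtain ⟨y, hy, hy'⟩ := h1.nonempty
  refine ⟨y, hy, ?_, fun h => hy' (Or.inr h)⟩
  by_contra hc
  exact hy' (Or.inl ⟨hy, by omega⟩)

theorem two_colours {O : Set (ℕ →. ℕ)} {g : ℕ → ℕ} (hg : Function.Injective g) {X : Set ℕ}
    (hX : IsSolution (c2 g) 3 X) (hO : Nat.RecursiveIn O (fun n => Part.some (g n)))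
    (hXO : Nat.RecursiveIn O (charFn X)) : Nat.RecursiveIn O (charFn (Set.range g)) := by
  have hfin := c2_finite hg hX
  obtain ⟨hinf, hpos, i, hi⟩ := hX
  by_cases hA : ∃ a, {x ∈ X | val 3 x = a}.Infinite
  · obtain ⟨a, ha⟩ := hA
    -- choose the last ternary digit
    obtain ⟨d, hd⟩ : ∃ d, {x ∈ X | val 3 x = a ∧ (x / 3 ^ a) % 3 = d}.Infinite := by
      by_contra hno
      push Not at hno
      apply ha
      refine ((Set.finite_Iio 3).biUnion (fun d _ => hno d)).subset ?_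
      rintro x ⟨hx1, hx2⟩
      simp only [Set.mem_iUnion]
      exact ⟨(x / 3 ^ a) % 3, Nat.mod_lt _ (by norm_num), hx1, hx2, rfl⟩
    have hfin' : ∀ B, {x ∈ {x ∈ X | val 3 x = a ∧ (x / 3 ^ a) % 3 = d} | val 2 x ≤ B}.Finite := by
      intro B
      refine (hfin (B + a)).subset ?_
      rintro x ⟨⟨hx, hx1, -⟩, hx2⟩
      exact ⟨hx, by omega⟩
    refine range_rec (R := fun e x => (val 3 x = a ∧ (x / 3 ^ a) % 3 = d) ∧
      2 * e + 2 + a ≤ val 2 x) hO hXO ?_ ?_ ?_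
    · refine PrimrecPred.and (PrimrecPred.and ?_ ?_) ?_
      · exact Primrec.eq.comp ((primrec_val 3).comp Primrec.snd) (Primrec.const a)
      · exact Primrec.eq.comp (Primrec.nat_mod.comp (Primrec.nat_div.comp Primrec.snd
          (Primrec.const _)) (Primrec.const 3)) (Primrec.const d)
      · exact Primrec.nat_le.comp (Primrec.nat_add.comp (Primrec.nat_add.comp
          (Primrec.nat_mul.comp (Primrec.const 2) Primrec.fst) (Primrec.const 2))
          (Primrec.const a)) ((primrec_val 2).comp Primrec.snd)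
    · intro e
      obtain ⟨y, hy, hy1, -⟩ := exists_large hd hfin' (2 * e + 2 + a) ∅
      exact ⟨y, hy.1, hy.2, hy1.le⟩
    · rintro e x hx ⟨⟨hxa, hxd⟩, hxe⟩ s hs
      obtain ⟨b, a', w, h2, h3, hxw⟩ := exists_vals (hpos x hx)
      have hv := vals (b := b) (a := a') h2 h3
      rw [← hxw] at hv
      obtain rfl : a' = a := by omega
      rw [hv.1] at hxe
      have hab : a' ≤ b := by omega
      have := settled hg h2 h3 hxw (by
        intro M hM1 hwM
        rw [if_pos hab]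
        obtain ⟨y, hy, hyb, -⟩ := exists_large hd hfin' (b + M) ∅
        obtain ⟨b₂, a₂, w₂, h22, h32, hyw⟩ := exists_vals (hpos y hy.1)
        have hvy := vals (b := b₂) (a := a₂) h22 h32
        rw [← hyw] at hvy
        obtain rfl : a₂ = a' := by have := hy.2.1; omega
        rw [hvy.1] at hyb
        obtain ⟨k, rfl⟩ : ∃ k, b₂ = b + M + 1 + k := ⟨b₂ - (b + M + 1), by omega⟩
        have hw2 : 0 < w₂ := Nat.pos_of_ne_zero (by rintro rfl; exact h22 (dvd_zero 2))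
        have hsum : x + y = 2 ^ b * 3 ^ a₂ * (w + 2 ^ M * (2 ^ (k + 1) * w₂)) := by
          rw [hxw, hyw]; ring
        refine ⟨2 ^ (k + 1) * w₂, by positivity, ?_, ?_, ?_⟩
        · intro hdv
          apply h2
          have h5 : 2 ∣ 2 ^ M * (2 ^ (k + 1) * w₂) := Dvd.dvd.mul_right (dvd_pow_self 2 (by omega)) _
          exact (Nat.dvd_add_left h5).1 hdv
        · intro hdv
          -- last ternary digits
          have e1 : x / 3 ^ a₂ = 2 ^ b * w := by
            rw [hxw, show 2 ^ b * 3 ^ a₂ * w = 3 ^ a₂ * (2 ^ b * w) by ring,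
              Nat.mul_div_cancel_left _ (by positivity)]
          have e2 : y / 3 ^ a₂ = 2 ^ (b + M + 1 + k) * w₂ := by
            rw [hyw, show 2 ^ (b + M + 1 + k) * 3 ^ a₂ * w₂ = 3 ^ a₂ * (2 ^ (b + M + 1 + k) * w₂) by
              ring, Nat.mul_div_cancel_left _ (by positivity)]
          have e3 : 2 ^ b * w + 2 ^ (b + M + 1 + k) * w₂ =
              2 ^ b * (w + 2 ^ M * (2 ^ (k + 1) * w₂)) := by ring
          have e4 : 3 ∣ x / 3 ^ a₂ + y / 3 ^ a₂ := by
            rw [e1, e2, e3]; exact Dvd.dvd.mul_left hdv _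
          have e5 : ¬ 3 ∣ x / 3 ^ a₂ := by
            rw [e1]
            intro hh
            rcases (Nat.Prime.dvd_mul Nat.prime_three).1 hh with hh | hh
            · have := Nat.Prime.dvd_of_dvd_pow Nat.prime_three hh
              omega
            · exact h3 hh
          have e6 := hy.2.2
          omega
        · rw [← hsum, sol_one (by norm_num) hi hx, sol_two (by norm_num) hi hx hy.1 (by
            rintro rfl
            rw [hv.1] at hvy
            omega)]) s hs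
      omega
  · by_cases hB : ∃ b, {x ∈ X | val 2 x = b}.Infinite
    · obtain ⟨b, hb⟩ := hB
      have hfin' : ∀ B, {x ∈ {x ∈ X | val 2 x = b} | val 3 x ≤ B}.Finite := by
        intro B
        refine (hfin (B + b)).subset ?_
        rintro x ⟨⟨hx, hx1⟩, hx2⟩
        exact ⟨hx, by omega⟩
      refine range_rec (R := fun e x => val 2 x = b ∧ 2 * e + 3 + b ≤ val 3 x) hO hXO ?_ ?_ ?_
      · refine PrimrecPred.and ?_ ?_
        · exact Primrec.eq.comp ((primrec_val 2).comp Primrec.snd) (Primrec.const b)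
        · exact Primrec.nat_le.comp (Primrec.nat_add.comp (Primrec.nat_add.comp
            (Primrec.nat_mul.comp (Primrec.const 2) Primrec.fst) (Primrec.const 3))
            (Primrec.const b)) ((primrec_val 3).comp Primrec.snd)
      · intro e
        obtain ⟨y, hy, hy1, -⟩ := exists_large hb hfin' (2 * e + 3 + b) ∅
        exact ⟨y, hy.1, hy.2, hy1.le⟩
      · rintro e x hx ⟨hxb, hxe⟩ s hs
        obtain ⟨b', a, w, h2, h3, hxw⟩ := exists_vals (hpos x hx)
        have hv := vals (b := b') (a := a) h2 h3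
        rw [← hxw] at hv
        obtain rfl : b' = b := by omega
        rw [hv.2] at hxe
        have hab : ¬ a ≤ b' := by omega
        have := settled hg h2 h3 hxw (by
          intro M hM1 hwM
          rw [if_neg hab]
          obtain ⟨y, hy, hya, -⟩ := exists_large hb hfin' (a + M) ∅
          obtain ⟨z, hz, hza, hzy⟩ := exists_large hb hfin' (a + M) {y}
          have hyz : y ≠ z := fun h => hzy (by simp [h])
          obtain ⟨b₂, a₂, w₂, h22, h32, hyw⟩ := exists_vals (hpos y hy.1)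
          obtain ⟨b₃, a₃, w₃, h23, h33, hzw⟩ := exists_vals (hpos z hz.1)
          have hvy := vals (b := b₂) (a := a₂) h22 h32
          have hvz := vals (b := b₃) (a := a₃) h23 h33
          rw [← hyw] at hvy
          rw [← hzw] at hvz
          obtain rfl : b₂ = b' := by have := hy.2; omega
          obtain rfl : b₃ = b₂ := by have := hz.2; omega
          rw [hvy.2] at hya
          rw [hvz.2] at hza
          obtain ⟨k, rfl⟩ : ∃ k, a₂ = a + M + 1 + k := ⟨a₂ - (a + M + 1), by omega⟩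
          obtain ⟨l, rfl⟩ : ∃ l, a₃ = a + M + 1 + l := ⟨a₃ - (a + M + 1), by omega⟩
          have hw2 : 0 < w₂ := Nat.pos_of_ne_zero (by rintro rfl; exact h22 (dvd_zero 2))
          have hsum : x + y + z = 2 ^ b₃ * 3 ^ a *
              (w + 3 ^ M * (3 ^ (k + 1) * w₂ + 3 ^ (l + 1) * w₃)) := by
            rw [hxw, hyw, hzw]; ring
          refine ⟨3 ^ (k + 1) * w₂ + 3 ^ (l + 1) * w₃, by positivity, ?_, ?_, ?_⟩
          · have odd3 : ∀ n, (3 ^ n) % 2 = 1 := by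
              intro n
              rw [Nat.pow_mod]
              simp
            have o1 : (3 ^ M * (3 ^ (k + 1) * w₂)) % 2 = 1 := by
              rw [Nat.mul_mod, odd3, Nat.mul_mod (3 ^ (k + 1)), odd3]
              omega
            have o2 : (3 ^ M * (3 ^ (l + 1) * w₃)) % 2 = 1 := by
              rw [Nat.mul_mod, odd3, Nat.mul_mod (3 ^ (l + 1)), odd3]
              omega
            rw [mul_add]
            omega
          · intro hdv
            apply h3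
            have h5 : 3 ∣ 3 ^ M * (3 ^ (k + 1) * w₂ + 3 ^ (l + 1) * w₃) :=
              Dvd.dvd.mul_right (dvd_pow_self 3 (by omega)) _
            exact (Nat.dvd_add_left h5).1 hdv
          · rw [← hsum, sol_one (by norm_num) hi hx, sol_three (by norm_num) hi hx hy.1 hz.1 (by
              rintro rfl
              rw [hv.2] at hvy
              omega) (by
              rintro rfl
              rw [hv.2] at hvz
              omega) hyz]) s hs
        omega
    · -- both valuations tend to infinity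
      push Not at hA hB
      have hA' : ∀ B, {x ∈ X | val 3 x ≤ B}.Finite := by
        intro B
        refine ((Set.finite_Iic B).biUnion (fun a _ => hA a)).subset ?_
        rintro x ⟨hx1, hx2⟩
        simp only [Set.mem_iUnion]
        exact ⟨val 3 x, hx2, hx1, rfl⟩
      have hB' : ∀ B, {x ∈ X | val 2 x ≤ B}.Finite := by
        intro B
        refine ((Set.finite_Iic B).biUnion (fun a _ => hB a)).subset ?_
        rintro x ⟨hx1, hx2⟩
        simp only [Set.mem_iUnion]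
        exact ⟨val 2 x, hx2, hx1, rfl⟩
      have hmin : ∀ B, {x ∈ X | min (val 2 x) (val 3 x) ≤ B}.Finite := by
        intro B
        refine ((hA' B).union (hB' B)).subset ?_
        rintro x ⟨hx1, hx2⟩
        rcases min_le_iff.1 hx2 with h | h
        · exact Or.inr ⟨hx1, h⟩
        · exact Or.inl ⟨hx1, h⟩
      refine range_rec (R := fun e x => 2 * e + 2 ≤ val 2 x) hO hXO ?_ ?_ ?_
      · exact Primrec.nat_le.comp (Primrec.nat_add.comp
            (Primrec.nat_mul.comp (Primrec.const 2) Primrec.fst) (Primrec.const 2))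
            ((primrec_val 2).comp Primrec.snd)
      · intro e
        obtain ⟨y, hy, hy1, -⟩ := exists_large (A := X) hinf hB' (2 * e + 2) ∅
        exact ⟨y, hy, hy1.le⟩
      · intro e x hx hxe s hs
        obtain ⟨b, a, w, h2, h3, hxw⟩ := exists_vals (hpos x hx)
        have hv := vals (b := b) (a := a) h2 h3
        rw [← hxw] at hv
        rw [hv.1] at hxe
        have := settled hg h2 h3 hxw (by
          intro M hM1 hwM
          obtain ⟨y, hy, hyb, -⟩ := exists_large (A := X) hinf hmin (a + b + M) ∅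
          obtain ⟨b₂, a₂, w₂, h22, h32, hyw⟩ := exists_vals (hpos y hy)
          have hvy := vals (b := b₂) (a := a₂) h22 h32
          rw [← hyw] at hvy
          rw [hvy.1, hvy.2, lt_min_iff] at hyb
          obtain ⟨k, rfl⟩ : ∃ k, b₂ = b + M + 1 + k := ⟨b₂ - (b + M + 1), by omega⟩
          obtain ⟨l, rfl⟩ : ∃ l, a₂ = a + M + 1 + l := ⟨a₂ - (a + M + 1), by omega⟩
          have hw2 : 0 < w₂ := Nat.pos_of_ne_zero (by rintro rfl; exact h22 (dvd_zero 2))
          have hsum : x + y = 2 ^ b * 3 ^ a *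
              (w + 2 ^ M * (3 ^ M * (2 ^ (k + 1) * 3 ^ (l + 1) * w₂))) := by
            rw [hxw, hyw]; ring
          have hd2 : ¬ 2 ∣ w + 2 ^ M * (3 ^ M * (2 ^ (k + 1) * 3 ^ (l + 1) * w₂)) := by
            intro hdv
            exact h2 ((Nat.dvd_add_left (Dvd.dvd.mul_right (dvd_pow_self 2 (by omega)) _)).1 hdv)
          have hd3 : ¬ 3 ∣ w + 2 ^ M * (3 ^ M * (2 ^ (k + 1) * 3 ^ (l + 1) * w₂)) := by
            intro hdv
            have h5 : 3 ∣ 2 ^ M * (3 ^ M * (2 ^ (k + 1) * 3 ^ (l + 1) * w₂)) :=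
              Dvd.dvd.mul_left (Dvd.dvd.mul_right (dvd_pow_self 3 (by omega)) _) _
            exact h3 ((Nat.dvd_add_left h5).1 hdv)
          have hc : c2 g x = c2 g (x + y) := by
            rw [sol_one (by norm_num) hi hx, sol_two (by norm_num) hi hx hy (by
              rintro rfl
              rw [hv.1] at hvy
              omega)]
          by_cases hab : a ≤ b
          · rw [if_pos hab]
            exact ⟨3 ^ M * (2 ^ (k + 1) * 3 ^ (l + 1) * w₂), by positivity, hd2, hd3,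
              by rw [hc, hsum]⟩
          · rw [if_neg hab]
            have hcm : 2 ^ M * (3 ^ M * (2 ^ (k + 1) * 3 ^ (l + 1) * w₂)) =
                3 ^ M * (2 ^ M * (2 ^ (k + 1) * 3 ^ (l + 1) * w₂)) := by ring
            rw [hcm] at hd2 hd3 hsum
            exact ⟨2 ^ M * (2 ^ (k + 1) * 3 ^ (l + 1) * w₂), by positivity, hd2, hd3,
              by rw [hc, hsum]⟩) s hs
        omega

end Pool.Agent.Work.MP_69fea5_lc
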