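import Pool.Agent.Work.MP_69fea5_lc.KC.Asm
import Pool.Agent.Work.MP_69fea5_lc.N3.Asm
import Pool.Agent.Work.MP_69fea5_lc.N3.Final3
import Pool.Agent.Work.MP_69fea5_lc.Defs

/-!
The strength of Hindman's theorem for bounded sums: sums of at most two terms and `k ≥ 3` colours,
sums of at most three terms and two colours: equivalence with `ACA_0` in all omega-models of
`RCA_0`.
-/

set_option autoImplicit false

namespace Pool.Agent.Work.MP_69fea5_lc.OldBoundedSums

open Pool.Agent.Work.MP_69fea5_lc

/-- Let `n = 2` and `k ≥ 3`, or `n = 3` and `k = 2`. For every omega-model `S` of `RCA_0` (a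
nonempty family of sets of natural numbers closed under relative computability and join) the
following are equivalent:
(i) every colouring with `k` colours whose colour classes are in `S` has an infinite `X` in `S`, of
positive numbers, such that all sums of at least one and at most `n` distinct elements of `X` have
the same colour;
(ii) `S` is closed under projections, that is, `S` is an omega-model of `ACA_0`. -/
theorem result (n k : ℕ) (hnk : (n = 2 ∧ 3 ≤ k) ∨ (n = 3 ∧ k = 2)) (S : Set (Set ℕ))
    (hne : S.Nonempty)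
    (hS : ∀ A ∈ S, ∀ B ∈ S, ∀ C : Set ℕ,
      RecursiveIn {charFn A, charFn B} (charFn C) → C ∈ S) :
    (∀ c : ℕ → Fin k, (∀ i, {x | c x = i} ∈ S) →
      ∃ X ∈ S, X.Infinite ∧ (∀ x ∈ X, 0 < x) ∧
        ∃ i, ∀ F : Finset ℕ, (F : Set ℕ) ⊆ X → F.Nonempty → F.card ≤ n → c (∑ x ∈ F, x) = i) ↔
    ∀ A ∈ S, {m | ∃ l, Nat.pair m l ∈ A} ∈ S :=
  N3.final3_of KC.main N3.main n k hnk S hne hS

end Pool.Agent.Work.MP_69fea5_lc.OldBoundedSums
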