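import Pool.Agent.Work.MP_69fea5_lc.PD.Main
import Pool.Agent.Work.MP_69fea5_lc.PD.I_AE

/-!
Hindman's theorem for colourings with a distal minimal subshift in their limit set, or with a
minimal subshift that has a distal point proximal to the colouring: solutions computable in the
second jump.
-/

set_option autoImplicit false

namespace Pool.Agent.Work.MP_69fea5_lc.OldDistalPoint

open Pool.Agent.Work.MP_69fea5_lc

open Classical in
/-- The characteristic function of a set of natural numbers, as an oracle or as a function to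
compute. -/
noncomputable def charFun (S : Set ℕ) : ℕ →. ℕ := fun n => Part.some (if n ∈ S then 1 else 0)

/-- `X` is a solution to the instance `c` of Hindman's theorem: `X` is an infinite set of positive
integers and `c` is constant on the set `FS(X)` of sums of finite nonempty subsets of `X`. -/
def IsSolution {k : ℕ} (c : ℕ → Fin k) (X : Set ℕ) : Prop :=
  X.Infinite ∧ (∀ x ∈ X, 0 < x) ∧
    ∃ i, ∀ F : Finset ℕ, F.Nonempty → (↑F : Set ℕ) ⊆ X → c (∑ x ∈ F, x) = i

/-- `S` is a `Σ⁰₂` set relative to the oracles in `O`: `n ∈ S ↔ ∃ a, ∀ b, (n, a, b) ∈ R` for some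
set `R` computable from the oracles in `O`. -/
def IsSigmaTwoIn (O : Set (ℕ →. ℕ)) (S : Set ℕ) : Prop :=
  ∃ R : Set ℕ, RecursiveIn O (charFun R) ∧
    ∀ n, n ∈ S ↔ ∃ a, ∀ b, Nat.pair n (Nat.pair a b) ∈ R

/-- `X` is computable from (finitely many) sets that are `Σ⁰₂` relative to `O`. By Post's theorem
this says for finite `O` that `X` is computable in the second Turing jump of the join of `O`. -/
def ComputableInSecondJump (O : Set (ℕ →. ℕ)) (X : Set ℕ) : Prop :=
  RecursiveIn {f | ∃ S, IsSigmaTwoIn O S ∧ f = charFun S} (charFun X)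

/-- The set of the codes of the finite words that occur as prefixes of points of `M` (if `M` is
shift invariant these are all finite words that occur in points of `M`). -/
def language {k : ℕ} (M : Set (ℕ → Fin k)) : Set ℕ :=
  {n | ∃ z ∈ M, ∃ l, Encodable.encode ((List.range l).map fun i => (z i : ℕ)) = n}

/-- `z` and `w` are proximal under the shift: they agree on arbitrarily long intervals. -/
def Proximal {k : ℕ} (z w : ℕ → Fin k) : Prop := ∀ l, ∃ x, ∀ i < l, z (x + i) = w (x + i)

/-- A minimal subshift: a nonempty closed set of sequences (product topology) that is invariant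
under the shift and contains no smaller such set. -/
structure MinimalSubshift {k : ℕ} (M : Set (ℕ → Fin k)) : Prop where
  nonempty : M.Nonempty
  closed : IsClosed M
  shift : ∀ z ∈ M, (fun n => z (n + 1)) ∈ M
  minimal : ∀ N ⊆ M, N.Nonempty → IsClosed N → (∀ z ∈ N, (fun n => z (n + 1)) ∈ N) → N = M

/-- **Hindman's theorem along a distal minimal subshift, or along a distal point.** Let `M` be a
minimal subshift in the limit set of the shifts of the colouring `c`, and suppose that no two
different points of `M` are proximal, or at least that some point `y` of `M` is proximal to `c` and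
to no other point of `M`. Then `c` has a solution that is computable in the second jump of `c`
together with the language of `M`. -/
theorem result {k : ℕ} (c : ℕ → Fin k) (M : Set (ℕ → Fin k)) (hM : MinimalSubshift M)
    (hc : ∀ z ∈ M, ∀ l N, ∃ x, N ≤ x ∧ ∀ i < l, c (x + i) = z i)
    (hd : (∀ y ∈ M, ∀ z ∈ M, Proximal y z → y = z) ∨
      ∃ y ∈ M, Proximal y c ∧ ∀ z ∈ M, Proximal y z → y = z) :
    ∃ X, IsSolution c X ∧
      ComputableInSecondJump {fun n => Part.some (c n : ℕ), charFun (language M)} X := by
  have hM' : PD.MinimalSubshift M := ⟨hM.nonempty, hM.closed, hM.shift, hM.minimal⟩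
  obtain ⟨y, hyM, hyc, hyd⟩ : ∃ y ∈ M, Proximal y c ∧ ∀ z ∈ M, Proximal y z → y = z := by
    rcases hd with hd | hd
    · obtain ⟨y, hyM, hyc⟩ := PD.AE_pf hM.nonempty hM.closed hM.shift hc
      exact ⟨y, hyM, hyc, hd y hyM⟩
    · exact hd
  obtain ⟨X, hX, hr⟩ := PD.main (fun _ => le_rfl) hM.closed hyM (PD.HypM_of_HypH
    (PD.I_DYN_pf k c M hM' y hyM hyc fun z hz h => (hyd z hz h).symm))
  refine ⟨X, hX, ?_⟩
  -- the modulus `h = id` can be dropped from the oracles
  refine RecursiveIn.mono ?_ hr
  rintro f ⟨S, ⟨R, hR, h⟩, rfl⟩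
  refine ⟨S, ⟨R, ?_, h⟩, rfl⟩
  refine RecursiveIn.subst hR ?_
  rintro g (rfl | rfl | rfl)
  · exact RecursiveIn.oracle _ (Or.inl rfl)
  · exact RecursiveIn.oracle _ (Or.inr rfl)
  · exact RecursiveIn.some

end Pool.Agent.Work.MP_69fea5_lc.OldDistalPoint
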