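import Pool.Agent.Work.MP_69fea5_lc.DJMain

set_option autoImplicit false

namespace Pool.Agent.Results.MP_69fea5_lc.DoubleJump

open scoped Computability

open Classical in
/-- The characteristic function of a set of natural numbers, as an oracle. -/
noncomputable def charFun (S : Set ℕ) : ℕ →. ℕ := fun n => Part.some (if n ∈ S then 1 else 0)

/-- `S` is a `Σ⁰₂` set: `n ∈ S ↔ ∃ s, ∀ t, R n s t` with `R` computable. By Post's theorem these
are the sets that are recursively enumerable in `∅'`, and `∅''` is the complete one. -/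
def IsSigmaTwo (S : Set ℕ) : Prop :=
  ∃ R : ℕ → ℕ → ℕ → Bool, (Computable fun t : ℕ × ℕ × ℕ => R t.1 t.2.1 t.2.2) ∧
    ∀ n, n ∈ S ↔ ∃ s, ∀ t, R n s t = true

/-- `X` is a solution to the instance `c` of Hindman's theorem: `X` is an infinite set of positive
integers and `c` is constant on the set `FS(X)` of sums of finite nonempty subsets of `X`. -/
def IsSolution (c : ℕ → Bool) (X : Set ℕ) : Prop :=
  X.Infinite ∧ (∀ x ∈ X, 0 < x) ∧
    ∃ b, ∀ F : Finset ℕ, F.Nonempty → (↑F : Set ℕ) ⊆ X → c (∑ x ∈ F, x) = b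

/-- There is a computable colouring of the positive integers with two colours such that every
solution computes every `Σ⁰₂` set, that is, computes `∅''`. -/
theorem result : ∃ c : ℕ → Bool, Computable c ∧
    ∀ X : Set ℕ, IsSolution c X → ∀ S : Set ℕ, IsSigmaTwo S → charFun S ≤ᵀ charFun X := by
  refine ⟨_, Pool.Agent.Work.MP_69fea5_lc.DJ.A₀_prim.col.to_comp, ?_⟩
  rintro X ⟨hX, h0, hc⟩ S ⟨R, hR, hS⟩
  have := Pool.Agent.Work.MP_69fea5_lc.DJ.main hX h0 hc hR hS
  exact RecursiveIn.iff_nat.mpr this

end Pool.Agent.Results.MP_69fea5_lc.DoubleJump
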