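import Pool.Agent.Work.MP_69fea5_lc.PR.CanM

/-!
Hindman's theorem for colourings with a minimal subshift in their limit set that is weakly mixing
or has a finite tower of proximal and isometric extensions: arithmetical solutions.
-/

set_option autoImplicit false

namespace Pool.Agent.Work.MP_69fea5_lc.OldFiniteTowers

open Pool.Agent.Work.MP_69fea5_lc

/-! ### Computability -/

open Classical in
/-- The characteristic function of a set of natural numbers, as an oracle or as a function to
compute. -/
noncomputable def charFun (S : Set ℕ) : ℕ →. ℕ := fun n => Part.some (if n ∈ S then 1 else 0)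

/-- `X` is a solution to the instance `c` of Hindman's theorem: `X` is an infinite set of positive
integers and `c` is constant on the set `FS(X)` of sums of finite nonempty subsets of `X`. -/
def IsSolution {k : ℕ} (c : ℕ → Fin k) (X : Set ℕ) : Prop :=
  X.Infinite ∧ (∀ x ∈ X, 0 < x) ∧
    ∃ i, ∀ F : Finset ℕ, F.Nonempty → (↑F : Set ℕ) ⊆ X → c (∑ x ∈ F, x) = i

/-- `S` is a `Σ⁰₂` set relative to the oracles in `O`: `n ∈ S ↔ ∃ a, ∀ b, (n, a, b) ∈ R` for some
set `R` computable from the oracles in `O`. -/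
def IsSigmaTwoIn (O : Set (ℕ →. ℕ)) (S : Set ℕ) : Prop :=
  ∃ R : Set ℕ, RecursiveIn O (charFun R) ∧
    ∀ n, n ∈ S ↔ ∃ a, ∀ b, Nat.pair n (Nat.pair a b) ∈ R

/-- The characteristic functions of the sets that are `Σ⁰₂` relative to `O`. For finite `O` a set
is computable from (finitely many of) these oracles if and only if it is computable in the second
Turing jump of the join of `O`. -/
def secondJump (O : Set (ℕ →. ℕ)) : Set (ℕ →. ℕ) := {f | ∃ S, IsSigmaTwoIn O S ∧ f = charFun S}

/-- For finite `O`: `X` is computable in the `2 * j`-th Turing jump of the join of `O`. -/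
def ComputableInJump (j : ℕ) (O : Set (ℕ →. ℕ)) (X : Set ℕ) : Prop :=
  RecursiveIn (secondJump^[j] O) (charFun X)

/-! ### Dynamics -/

/-- `z` and `w` are proximal under the shift: they agree on arbitrarily long intervals. -/
def Proximal {k : ℕ} (z w : ℕ → Fin k) : Prop := ∀ l, ∃ x, ∀ i < l, z (x + i) = w (x + i)

/-- A minimal subshift: a nonempty closed set of sequences (product topology) that is invariant
under the shift and contains no smaller such set. -/
structure MinimalSubshift {k : ℕ} (M : Set (ℕ → Fin k)) : Prop where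
  nonempty : M.Nonempty
  closed : IsClosed M
  shift : ∀ z ∈ M, (fun n => z (n + 1)) ∈ M
  minimal : ∀ N ⊆ M, N.Nonempty → IsClosed N → (∀ z ∈ N, (fun n => z (n + 1)) ∈ N) → N = M

/-- Every point of `M` is a limit of shifts `c (x + ·)` with `x → ∞`. -/
def InLimitSet {k : ℕ} (c : ℕ → Fin k) (M : Set (ℕ → Fin k)) : Prop :=
  ∀ z ∈ M, ∀ l N, ∃ x, N ≤ x ∧ ∀ i < l, c (x + i) = z i

/-- A closed shift invariant equivalence relation on `M`, given as a set of pairs. Such relations
correspond to the factors of `M`. -/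
structure InvariantEquivalence {k : ℕ} (M : Set (ℕ → Fin k))
    (R : Set ((ℕ → Fin k) × (ℕ → Fin k))) : Prop where
  sub : R ⊆ M ×ˢ M
  closed : IsClosed R
  shift : ∀ p ∈ R, ((fun n => p.1 (n + 1)), (fun n => p.2 (n + 1))) ∈ R
  refl : ∀ z ∈ M, (z, z) ∈ R
  symm : ∀ y z, (y, z) ∈ R → (z, y) ∈ R
  trans : ∀ x y z, (x, y) ∈ R → (y, z) ∈ R → (x, z) ∈ R

/-- Every pair in `R` is proximal modulo `R'`: some shifts of it come arbitrarily close to `R'`.
This says that the factor `M / R'` is a proximal extension of `M / R`. -/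
def ProximalStep {k : ℕ} (R R' : Set ((ℕ → Fin k) × (ℕ → Fin k))) : Prop :=
  ∀ p ∈ R, ∀ m, ∃ x, ∃ q ∈ R', ∀ i < m, q.1 i = p.1 (x + i) ∧ q.2 i = p.2 (x + i)

/-- All limits of shifts of pairs `(a, b) ∈ R` that tend to the diagonal are in `R'`. This holds if
the factor `M / R'` is an isometric (equicontinuous) extension of `M / R`. -/
def IsometricStep {k : ℕ} (R R' : Set ((ℕ → Fin k) × (ℕ → Fin k))) : Prop :=
  ∀ q : (ℕ → Fin k) × (ℕ → Fin k), (∀ l, ∃ p ∈ R, (∀ i < l, p.1 i = p.2 i) ∧
    ∃ x, ∀ i < l, p.1 (x + i) = q.1 i ∧ p.2 (x + i) = q.2 i) → q ∈ R'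

/-- `M` has a tower of `n` proximal and isometric extensions, starting with the one point system
`M / (M × M)` and ending with a factor `M / R n` of which `M` is a proximal extension (for example
`M` itself). -/
def HasTower {k : ℕ} (M : Set (ℕ → Fin k)) (n : ℕ) : Prop :=
  ∃ R : ℕ → Set ((ℕ → Fin k) × (ℕ → Fin k)), R 0 = M ×ˢ M ∧
    (∀ i ≤ n, InvariantEquivalence M (R i)) ∧
    (∀ i < n, IsometricStep (R i) (R (i + 1)) ∨ ProximalStep (R i) (R (i + 1))) ∧
    ∀ p ∈ R n, Proximal p.1 p.2

/-- `M` is weakly mixing: `M × M` is topologically transitive. -/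
def WeaklyMixing {k : ℕ} (M : Set (ℕ → Fin k)) : Prop :=
  ∀ a ∈ M, ∀ b ∈ M, ∀ a' ∈ M, ∀ b' ∈ M, ∀ l, ∃ x,
    (∃ z ∈ M, (∀ i < l, z i = a i) ∧ ∀ i < l, z (x + i) = b i) ∧
    ∃ z ∈ M, (∀ i < l, z i = a' i) ∧ ∀ i < l, z (x + i) = b' i

/-! ### The theorem -/

theorem HasTower.tower {k : ℕ} {M : Set (ℕ → Fin k)} {n : ℕ} (h : HasTower M n) :
    PR.Tower M n := by
  obtain ⟨R, h0, hR, hs, hn⟩ := h
  exact ⟨R, h0, fun i hi => ⟨(hR i hi).sub, (hR i hi).closed, (hR i hi).shift, (hR i hi).refl,
    (hR i hi).symm, (hR i hi).trans⟩, hs, hn⟩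

theorem MinimalSubshift.pd {k : ℕ} {M : Set (ℕ → Fin k)} (h : MinimalSubshift M) :
    PD.MinimalSubshift M := ⟨h.nonempty, h.closed, h.shift, h.minimal⟩

theorem jump_eq : PD.jumpTwo = secondJump := rfl

/-- **Hindman's theorem for colourings with tame or weakly mixing limit dynamics.** Every colouring
`c` with finitely many colours has a minimal subshift `M` in its limit set with the following
property: if `M` is weakly mixing or has a tower of `n` proximal and isometric extensions (nothing
effective is assumed of the tower), then `c` has a solution computable in the `(4 * n + 6)`-th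
Turing jump of `c`. In particular `c` has a solution arithmetical in `c` if every minimal subshift
in its limit set is weakly mixing or has a finite tower. -/
theorem result {k : ℕ} (c : ℕ → Fin k) :
    ∃ M, MinimalSubshift M ∧ InLimitSet c M ∧ ∀ n, (HasTower M n ∨ WeaklyMixing M) →
      ∃ X, IsSolution c X ∧ ComputableInJump (2 * n + 3) {fun n => Part.some (c n : ℕ)} X := by
  have hM : MinimalSubshift (PR.MM c) := ⟨(PR.MM_minimal c).nonempty, (PR.MM_minimal c).closed,
    (PR.MM_minimal c).shift, (PR.MM_minimal c).minimal⟩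
  have hc : Nat.RecursiveIn (PD.jumpTwo (PR.orc c)) (charFn (PR.gr c)) :=
    PR.up_set (PR.gr_rec (PR.orc_rec c))
  have hL := PR.MM_language c
  have up : ∀ (j d : ℕ) (X : Set ℕ), RecursiveIn (PD.jumpTwo^[j] (PD.jumpTwo (PR.orc c)))
      (charFn X) → ComputableInJump (j + 1 + d) {fun n => Part.some (c n : ℕ)} X := by
    intro j d X hX
    have h1 : RecursiveIn (PD.jumpTwo^[d] (PD.jumpTwo^[j] (PD.jumpTwo (PR.orc c)))) (charFn X) :=
      RecursiveIn.iff_nat.2 (PR.iter_up (RecursiveIn.iff_nat.1 hX) d)
    unfold ComputableInJump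
    rw [Nat.add_comm, Function.iterate_add_apply, Function.iterate_succ_apply]
    exact h1
  refine ⟨PR.MM c, hM, PR.MM_limit c, fun n hn => ?_⟩
  rcases hn with hn | hW
  · obtain ⟨τ, hτ⟩ := hn.tower.can
    obtain ⟨X, hX, hr⟩ := PR.can_main hM.pd (PR.MM_limit c) hc hL τ n hτ
    exact ⟨X, hX, up _ 2 X hr⟩
  · obtain ⟨X, hX, hr⟩ := PR.tower_all hM.pd (PR.MM_limit c) 1
      (fun i => if i = 0 then PR.MM c ×ˢ PR.MM c else PR.diag (PR.MM c)) rfl
      (fun i _ => by
        by_cases h : i = 0
        · simp only [h, if_true]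
          exact PR.ICER_prod hM.closed hM.shift
        · simp only [h, if_false]
          exact PR.ICER_diag hM.closed hM.shift)
      (fun i hi => by
        have h : i = 0 := by omega
        subst h
        exact Or.inr (Or.inr (PR.WM_gen hM.pd hW)))
      (fun p hp l => by
        have hp' : p.1 = p.2 := hp.2
        exact ⟨0, fun i _ => by rw [hp']⟩) hc
      (fun i _ => by
        by_cases h : i = 0
        · simp only [h, if_true]
          exact PR.prod_rec hL
        · simp only [h, if_false]
          exact PR.diag_rec hL)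
    refine ⟨X, hX, ?_⟩
    have h2 := up _ (2 * n) X hr
    have e : 2 * 1 + 1 + 2 * n = 2 * n + 3 := by ring
    rwa [e] at h2

end Pool.Agent.Work.MP_69fea5_lc.OldFiniteTowers
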