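import Pool.Agent.Work.MP_69fea5_lc.QPrim

set_option autoImplicit false

namespace Pool.Agent.Results.MP_69fea5_lc.FourTerms

open scoped Computability

open Classical in
/-- The characteristic function of a set of natural numbers, as an oracle. -/
noncomputable def charFun (S : Set ℕ) : ℕ →. ℕ := fun n => Part.some (if n ∈ S then 1 else 0)

/-- `S` is a `Σ⁰₂` set: `n ∈ S ↔ ∃ s, ∀ t, R n s t` with `R` computable. By Post's theorem these
are the sets that are recursively enumerable in `∅'`, and `∅''` is the complete one. -/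
def IsSigmaTwo (S : Set ℕ) : Prop :=
  ∃ R : ℕ → ℕ → ℕ → Bool, (Computable fun t : ℕ × ℕ × ℕ => R t.1 t.2.1 t.2.2) ∧
    ∀ n, n ∈ S ↔ ∃ s, ∀ t, R n s t = true

/-- `S` is a `Σ⁰₃` set: `n ∈ S ↔ ∃ i, ∀ j, ∃ k, R n i j k` with `R` computable. By Post's theorem
these are the sets that are recursively enumerable in `∅''`. -/
def IsSigmaThree (S : Set ℕ) : Prop :=
  ∃ R : ℕ → ℕ → ℕ → ℕ → Bool,
    (Computable fun t : ℕ × ℕ × ℕ × ℕ => R t.1 t.2.1 t.2.2.1 t.2.2.2) ∧
    ∀ n, n ∈ S ↔ ∃ i, ∀ j, ∃ k, R n i j k = true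

/-- `X` is a solution to the instance `c` of the restriction of Hindman's theorem to sums of at
most four terms: `X` is an infinite set of positive integers and `c` is constant on the sums of one,
two, three or four distinct elements of `X`. -/
def IsSolution {k : ℕ} (c : ℕ → Fin k) (X : Set ℕ) : Prop :=
  X.Infinite ∧ (∀ x ∈ X, 0 < x) ∧
    ∃ b, ∀ F : Finset ℕ, F.Nonempty → F.card ≤ 4 → (↑F : Set ℕ) ⊆ X → c (∑ x ∈ F, x) = b

/-- There is a computable colouring of the positive integers with six colours such that every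
infinite set of positive integers all of whose sums of at most four distinct elements have the same
colour computes every `Σ⁰₂` set (that is, it computes `∅''`) and is not `Σ⁰₃` (in particular it is
not computable in `∅''`). -/
theorem result : ∃ c : ℕ → Fin 6, Computable c ∧
    ∀ X : Set ℕ, IsSolution c X →
      (∀ S : Set ℕ, IsSigmaTwo S → charFun S ≤ᵀ charFun X) ∧ ¬ IsSigmaThree X := by
  refine ⟨fun n => ⟨_, Pool.Agent.Work.MP_69fea5_lc.DJ.c6_lt
    Pool.Agent.Work.MP_69fea5_lc.DJ.A₀ n⟩, ?_, ?_⟩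
  · exact (Primrec.fin_val_iff.mp
      (Pool.Agent.Work.MP_69fea5_lc.DJ.pr_c6 Pool.Agent.Work.MP_69fea5_lc.DJ.A₀_prim)).to_comp
  · rintro X ⟨hX, h0, b, hb⟩
    have hm : Pool.Agent.Work.MP_69fea5_lc.DJ.Mono4
        (Pool.Agent.Work.MP_69fea5_lc.DJ.c6 Pool.Agent.Work.MP_69fea5_lc.DJ.A₀) X :=
      ⟨b.1, fun F h1 h2 h3 => congrArg Fin.val (hb F h1 h2 h3)⟩
    obtain ⟨h1, h2⟩ := Pool.Agent.Work.MP_69fea5_lc.DJ.main6 hX h0 hm
    exact ⟨fun S hS => RecursiveIn.iff_nat.mpr (h1 S hS), h2⟩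

end Pool.Agent.Results.MP_69fea5_lc.FourTerms
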