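import Pool.Agent.Work.MP_69fea5_lc.UP.Tree

set_option autoImplicit false

namespace Pool.Agent.Results.MP_69fea5_lc.PAOmegaJump

open Encodable
open scoped Computability

open Classical in
/-- The characteristic function of a set of natural numbers, as an oracle or as a function to
compute. -/
noncomputable def charFun (S : Set ℕ) : ℕ →. ℕ := fun n => Part.some (if n ∈ S then 1 else 0)

open Classical in
/-- The first `ℓ` bits of the characteristic function of `A`. -/
noncomputable def initSeg (A : Set ℕ) (ℓ : ℕ) : List Bool :=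
  (List.range ℓ).map fun i => decide (i ∈ A)

/-- The Turing jump `A'` of `A`: the set of all `e` such that the `e`-th partial recursive function
is defined at some initial segment of `A` (the standard `Σ⁰₁(A)`-complete set). -/
def jump (A : Set ℕ) : Set ℕ :=
  {e | ∃ ℓ, ((Denumerable.ofNat Nat.Partrec.Code e).eval (encode (initSeg A ℓ))).Dom}

/-- The iterated jumps `∅^(n)`. -/
def iterJump : ℕ → Set ℕ
  | 0 => ∅
  | n + 1 => jump (iterJump n)

/-- The `ω`-jump `∅^(ω) = {⟨n, m⟩ : m ∈ ∅^(n)}`. -/
def omegaJump : Set ℕ := {x | x.unpair.2 ∈ iterJump x.unpair.1}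

/-- `P` has PA degree over `Y`: every infinite binary tree computable in `Y` has a path
computable in `P`. The tree is given by its characteristic function `t` on binary strings. -/
def IsPAOver (P Y : Set ℕ) : Prop :=
  ∀ t : List Bool → Bool, ComputableIn {charFun Y} t →
    (∀ (σ : List Bool) (b : Bool), t (σ ++ [b]) = true → t σ = true) →
    (∀ n, ∃ σ : List Bool, σ.length = n ∧ t σ = true) →
    ∃ f : ℕ → Bool, ComputableIn {charFun P} f ∧ ∀ n, t ((List.range n).map f) = true

/-- The arithmetical sets of natural numbers: the smallest class of sets that contains the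
computable sets and is closed under complement, intersection and projection. -/
inductive Arithmetical : Set ℕ → Prop
  | computable {S : Set ℕ} (h : ComputablePred fun n => n ∈ S) : Arithmetical S
  | compl {S : Set ℕ} (h : Arithmetical S) : Arithmetical Sᶜ
  | inter {S T : Set ℕ} (hS : Arithmetical S) (hT : Arithmetical T) : Arithmetical (S ∩ T)
  | proj {S : Set ℕ} (h : Arithmetical S) : Arithmetical {n | ∃ m, Nat.pair n m ∈ S}

/-- `X` is a solution to the instance `c` of Hindman's theorem: `X` is an infinite set of positive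
integers and `c` is constant on the set `FS(X)` of sums of finite nonempty subsets of `X`. -/
def IsSolution {k : ℕ} (c : ℕ → Fin k) (X : Set ℕ) : Prop :=
  X.Infinite ∧ (∀ x ∈ X, 0 < x) ∧
    ∃ i, ∀ F : Finset ℕ, F.Nonempty → (↑F : Set ℕ) ⊆ X → c (∑ x ∈ F, x) = i

theorem arith_iff {S : Set ℕ} (h : Arithmetical S) :
    Pool.Agent.Work.MP_69fea5_lc.AC.Arith fun n => n ∈ S := by
  induction h with
  | computable h => exact .comp h
  | compl _ ih => exact .compl ih
  | inter _ _ ih1 ih2 => exact .inter ih1 ih2
  | proj _ ih => exact .proj ih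

theorem iterJump_eq (n : ℕ) : iterJump n = Pool.Agent.Work.MP_69fea5_lc.UP.jumpN n := by
  induction n with
  | zero => rfl
  | succ n ih =>
    change jump (iterJump n) =
      Pool.Agent.Work.MP_69fea5_lc.UP.jump (Pool.Agent.Work.MP_69fea5_lc.UP.jumpN n)
    rw [ih]
    rfl

/-- **Upper bound.** Every arithmetical (for example computable) instance of Hindman's theorem has
a solution computable in any given set of PA degree over `∅^(ω)`. -/
theorem result {k : ℕ} (c : ℕ → Fin k) (hc : ∀ i, Arithmetical {n | c n = i})
    (P : Set ℕ) (hP : IsPAOver P omegaJump) :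
    ∃ X : Set ℕ, IsSolution c X ∧ charFun X ≤ᵀ charFun P := by
  obtain ⟨t, h1, h2, h3, h4⟩ := Pool.Agent.Work.MP_69fea5_lc.UP.exists_tree (c := c)
    (fun i => Pool.Agent.Work.MP_69fea5_lc.AC.AR_nat.2 (arith_iff (hc i)))
  have e1 : Pool.Agent.Work.MP_69fea5_lc.UP.omegaJump = omegaJump := by
    unfold omegaJump Pool.Agent.Work.MP_69fea5_lc.UP.omegaJump
    simp only [iterJump_eq]
  have e2 : Pool.Agent.Work.MP_69fea5_lc.UP.chi = charFun := rfl
  rw [e1, e2] at h1
  obtain ⟨f, hf, h5⟩ := hP t h1 h2 h3
  obtain ⟨h6, h7, h8⟩ := h4 f h5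
  refine ⟨{n | f n = true}, ⟨h6, h7, h8⟩, RecursiveIn.iff_nat.2 ?_⟩
  have hf' : Nat.RecursiveIn {charFun P} fun n => Part.some (encode (f n)) := by
    refine Nat.RecursiveIn.of_eq hf fun n => ?_
    simp
  refine hf'.of_eq fun n => ?_
  unfold charFun
  cases h : f n <;> simp [h]

end Pool.Agent.Results.MP_69fea5_lc.PAOmegaJump
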