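import Pool.Agent.Work.MP_69fea5_lc.S4.Main

set_option autoImplicit false

namespace Pool.Agent.Work.MP_69fea5_lc.OldSigmaFour

open scoped Computability

open Classical in
/-- The characteristic function of a set of natural numbers, as an oracle. -/
noncomputable def charFun (S : Set ℕ) : ℕ →. ℕ := fun n => Part.some (if n ∈ S then 1 else 0)

/-- `S` is a `Σ⁰₂` set: `n ∈ S ↔ ∃ s, ∀ t, R n s t` with `R` computable. By Post's theorem these
are the sets that are recursively enumerable in `∅'`, and `∅''` is the complete one. -/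
def IsSigmaTwo (S : Set ℕ) : Prop :=
  ∃ R : ℕ → ℕ → ℕ → Bool, (Computable fun t : ℕ × ℕ × ℕ => R t.1 t.2.1 t.2.2) ∧
    ∀ n, n ∈ S ↔ ∃ s, ∀ t, R n s t = true

/-- `S` is a `Σ⁰₄` set: `n ∈ S ↔ ∃ i, ∀ j, ∃ u, ∀ l, R n i j u l` with `R` computable. By Post's
theorem these are the sets that are recursively enumerable in `∅'''`; all sets computable in `∅'''`
are `Σ⁰₄`. -/
def IsSigmaFour (S : Set ℕ) : Prop :=
  ∃ R : ℕ → ℕ → ℕ → ℕ → ℕ → Bool,
    (Computable fun t : ℕ × ℕ × ℕ × ℕ × ℕ => R t.1 t.2.1 t.2.2.1 t.2.2.2.1 t.2.2.2.2) ∧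
    ∀ n, n ∈ S ↔ ∃ i, ∀ j, ∃ u, ∀ l, R n i j u l = true

/-- `P` is a `Σ⁰₄` binary relation. -/
def IsSigmaFourRel (P : ℕ → ℕ → Prop) : Prop :=
  ∃ R : ℕ → ℕ → ℕ → ℕ → ℕ → ℕ → Bool,
    (Computable fun t : ℕ × ℕ × ℕ × ℕ × ℕ × ℕ =>
      R t.1 t.2.1 t.2.2.1 t.2.2.2.1 t.2.2.2.2.1 t.2.2.2.2.2) ∧
    ∀ n y, P n y ↔ ∃ i, ∀ j, ∃ u, ∀ l, R n y i j u l = true

/-- For every `Σ⁰₄` relation `P` the set `X` computes a total function `f` such that for no `n` is
`f n` the unique `y` with `P n y`. Applied to the graph of a universal partial `∅'''`-computable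
function this says that `X` computes a function that is diagonally noncomputable relative to
`∅'''`. -/
def ComputesDiagonal (X : Set ℕ) : Prop :=
  ∀ P : ℕ → ℕ → Prop, IsSigmaFourRel P →
    ∃ f : ℕ → ℕ, ((fun n => Part.some (f n) : ℕ →. ℕ) ≤ᵀ charFun X) ∧
      ∀ n, ¬ ∀ y, P n y ↔ y = f n

/-- `X` is a solution to the instance `c` of the restriction of Hindman's theorem to sums of at
most four terms: `X` is an infinite set of positive integers and `c` is constant on the sums of one,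
two, three or four distinct elements of `X`. -/
def IsSolution {k : ℕ} (c : ℕ → Fin k) (X : Set ℕ) : Prop :=
  X.Infinite ∧ (∀ x ∈ X, 0 < x) ∧
    ∃ b, ∀ F : Finset ℕ, F.Nonempty → F.card ≤ 4 → (↑F : Set ℕ) ⊆ X → c (∑ x ∈ F, x) = b

/-- There is a computable colouring of the positive integers with six colours such that every
infinite set of positive integers all of whose sums of at most four distinct elements have the same
colour computes every `Σ⁰₂` set (that is, it computes `∅''`), is not `Σ⁰₄` (in particular it is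
not computable in `∅'''`), and computes a function that is diagonally noncomputable relative to
`∅'''`. -/
theorem result : ∃ c : ℕ → Fin 6, Computable c ∧
    ∀ X : Set ℕ, IsSolution c X →
      (∀ S : Set ℕ, IsSigmaTwo S → charFun S ≤ᵀ charFun X) ∧ ¬ IsSigmaFour X ∧
        ComputesDiagonal X := by
  refine ⟨fun n => ⟨_, Pool.Agent.Work.MP_69fea5_lc.S4.d6_lt n⟩, ?_, ?_⟩
  · exact (Primrec.fin_val_iff.mp Pool.Agent.Work.MP_69fea5_lc.S4.pr_d6).to_comp
  · rintro X ⟨hX, h0, b, hb⟩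
    have hm : Pool.Agent.Work.MP_69fea5_lc.DJ.Mono4 Pool.Agent.Work.MP_69fea5_lc.S4.d6 X :=
      ⟨b.1, fun F h1 h2 h3 => congrArg Fin.val (hb F h1 h2 h3)⟩
    obtain ⟨h1, h2, h3⟩ := Pool.Agent.Work.MP_69fea5_lc.S4.six hX h0 hm
    refine ⟨fun S hS => RecursiveIn.iff_nat.mpr (h1 S hS), h2, ?_⟩
    rintro P ⟨R, hR, hP⟩
    obtain ⟨f, hf, hd⟩ := h3 R hR
    refine ⟨f, RecursiveIn.iff_nat.mpr hf, fun n hn => hd n (fun y => ?_)⟩
    rw [← hP, hn]

end Pool.Agent.Work.MP_69fea5_lc.OldSigmaFour
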