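import Mathlib
import Pool.Agent.Work.MP_69fea5_lc.Defs
import Pool.Agent.Work.MP_69fea5_lc.TwoMain
import Pool.Agent.Work.MP_69fea5_lc.Halt

/-!
Hindman's theorem restricted to two colours and to sums of at most three terms: there is a
computable instance all of whose solutions compute the halting set (and the same relative to any
injection).
-/

namespace Pool.Agent.Results.MP_69fea5_lc.TwoColoursThreeTerms

open Pool.Agent.Work.MP_69fea5_lc

/-- Part one (relative form): for every injection `g` there is a colouring with 2 colours,
computable from `g`, such that every solution for sums of at most 3 terms computes, together with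
`g`, the range of `g`.  Part two: there is a computable colouring with 2 colours every solution
of which, for sums of at most 3 terms, computes the halting set. -/
theorem result :
    (∀ g : ℕ → ℕ, Function.Injective g →
      ∃ c : ℕ → ℕ, (∀ x, c x < 2) ∧
        RecursiveIn {fn g} (fn c) ∧
        ∀ X : Set ℕ, IsSolution c 3 X → RecursiveIn {fn g, charFn X} (charFn (Set.range g))) ∧
    (∃ c : ℕ → ℕ, (∀ x, c x < 2) ∧ Computable c ∧
        ∀ X : Set ℕ, IsSolution c 3 X → RecursiveIn {charFn X} (charFn haltingSet)) := by
  constructor
  · intro g hg
    refine ⟨c2 g, c2_lt g, ?_, ?_⟩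
    · rw [RecursiveIn.iff_nat]
      exact c2_rec (Nat.RecursiveIn.oracle (fn g) (by simp))
    · intro X hX
      rw [RecursiveIn.iff_nat]
      exact two_colours hg hX (Nat.RecursiveIn.oracle (fn g) (by simp))
        (Nat.RecursiveIn.oracle (charFn X) (by simp))
  · refine ⟨c2 gK, c2_lt gK, ?_, ?_⟩
    · have h := c2_rec (O := ∅) (g := gK) (comp_of gK_computable)
      have h1 := Nat.RecursiveIn.partrec_of_oracle (by simp) h
      exact Partrec.nat_iff.2 h1
    · intro X hX
      rw [RecursiveIn.iff_nat]
      exact halting_rec (two_colours gK_injective hX (comp_of gK_computable)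
        (Nat.RecursiveIn.oracle (charFn X) (by simp)))

end Pool.Agent.Results.MP_69fea5_lc.TwoColoursThreeTerms
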