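import Pool.Agent.Work.MP_69fea5_lc.KC.Asm
import Pool.Agent.Work.MP_69fea5_lc.KC.Final
import Pool.Agent.Work.MP_69fea5_lc.Defs

/-!
The strength of Hindman's theorem for sums of at most two terms and `k ≥ 3` colours: equivalence
with `ACA_0` in all omega-models of `RCA_0`, for every `k ≥ 3`.
-/

set_option autoImplicit false

namespace Pool.Agent.Results.MP_69fea5_lc.TwoTermsAllColours

open Pool.Agent.Work.MP_69fea5_lc

/-- For every `k ≥ 3` and every omega-model `S` of `RCA_0` (a nonempty family of sets of natural
numbers closed under relative computability and join) the following are equivalent: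
(i) every colouring with `k` colours whose colour classes are in `S` has an infinite `X` in `S`,
of positive numbers, such that the elements of `X` and the sums of two distinct elements of `X`
all have the same colour;
(ii) `S` is closed under projections, that is, `S` is an omega-model of `ACA_0`. -/
theorem result (k : ℕ) (hk : 3 ≤ k) (S : Set (Set ℕ)) (hne : S.Nonempty)
    (hS : ∀ A ∈ S, ∀ B ∈ S, ∀ C : Set ℕ,
      RecursiveIn {charFn A, charFn B} (charFn C) → C ∈ S) :
    (∀ c : ℕ → Fin k, (∀ i, {x | c x = i} ∈ S) →
      ∃ X ∈ S, X.Infinite ∧ ∃ i, ∀ x ∈ X, 0 < x ∧ c x = i ∧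
        ∀ y ∈ X, y ≠ x → c (x + y) = i) ↔
    ∀ A ∈ S, {n | ∃ m, Nat.pair n m ∈ A} ∈ S :=
  KC.final_of KC.main k hk S hne hS

end Pool.Agent.Results.MP_69fea5_lc.TwoTermsAllColours
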