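import Pool.Agent.Work.MP_69fea5_lc.H2.I_ALG
import Pool.Agent.Work.MP_69fea5_lc.H2.I_LCM
import Pool.Agent.Work.MP_69fea5_lc.H2.I_INV
import Pool.Agent.Work.MP_69fea5_lc.H2.I_CODE
import Pool.Agent.Work.MP_69fea5_lc.H2.I_CV
import Pool.Agent.Work.MP_69fea5_lc.H2.I_COH
import Pool.Agent.Work.MP_69fea5_lc.H3.Final
import Pool.Agent.Work.MP_69fea5_lc.H3.I_LIMK
import Pool.Agent.Work.MP_69fea5_lc.H3.I_FORBK
import Pool.Agent.Work.MP_69fea5_lc.H3.I_BKABK
import Pool.Agent.Work.MP_69fea5_lc.H3.I_BSEQ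
import Pool.Agent.Work.MP_69fea5_lc.H3.I_MINK
import Pool.Agent.Work.MP_69fea5_lc.H3.I_ATS
import Pool.Agent.Work.MP_69fea5_lc.H3.I_C1K
import Pool.Agent.Work.MP_69fea5_lc.H3.I_SEQK
import Pool.Agent.Work.MP_69fea5_lc.H3.I_HLIMK
import Pool.Agent.Work.MP_69fea5_lc.H3.I_GLIMK
import Pool.Agent.Work.MP_69fea5_lc.H3.I_PARK
import Pool.Agent.Work.MP_69fea5_lc.H3.I_PIG1
import Pool.Agent.Work.MP_69fea5_lc.H3.I_PIG2
import Pool.Agent.Work.MP_69fea5_lc.H3.I_MTYP
import Pool.Agent.Work.MP_69fea5_lc.H3.I_MIDP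
import Pool.Agent.Work.MP_69fea5_lc.H3.I_DATA
import Pool.Agent.Work.MP_69fea5_lc.H3.I_STEP1
import Pool.Agent.Work.MP_69fea5_lc.H3.I_STEP2
import Pool.Agent.Work.MP_69fea5_lc.H3.I_GRDK
import Pool.Agent.Work.MP_69fea5_lc.H3.I_MAINK
import Pool.Agent.Work.MP_69fea5_lc.Defs
import Pool.Agent.Work.MP_69fea5_lc.Three

/-!
The strength of Hindman's theorem for sums of at most two terms and three colours is that of
`ACA_0`. Upper bound: truth in all models of `ACA_0` (and for `k` colours a reduction of the number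
of colours to `⌊k/2⌋`). Lower bound: the computable reversal for three colours.
-/

set_option autoImplicit false

namespace Pool.Agent.Results.MP_69fea5_lc.TwoTermsStrength

open Pool.Agent.Work.MP_69fea5_lc Pool.Agent.Work.MP_69fea5_lc.H2
  Pool.Agent.Work.MP_69fea5_lc.H3

universe u

/-- (1) In every model `M` of `ACA_0` (with arbitrary, possibly nonstandard, number domain `N`),
for every colouring `c` of the numbers with `k` colours whose colour classes are sets of the model
there is an unbounded set `X` of the model, of nonzero numbers, such that the elements of `X` and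
the sums of two distinct elements of `X` have altogether at most `max 1 (k / 2)` colours; this is
one colour for `k = 2` and `k = 3`.
(2) Conversely for three colours: for every injection `g` of the natural numbers there is a
colouring `c` with 3 colours, computable from `g`, such that every infinite set `X` of positive
integers with `c` constant on the elements and on the sums of two distinct elements of `X`
computes, together with `g`, the range of `g`. -/
theorem result :
    (∀ (N : Type u) (M : L2 N), IsModelACA0 M → ∀ (k : ℕ) (c : N → Fin k),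
      (∀ i, {x | c x = i} ∈ M.sets) →
      ∃ X ∈ M.sets, (∀ m, ∃ x ∈ X, M.lt m x) ∧ M.zero ∉ X ∧
        ∃ T : Finset (Fin k), T.card ≤ max 1 (k / 2) ∧
          ∀ x ∈ X, c x ∈ T ∧ ∀ y ∈ X, x ≠ y → c (M.add x y) ∈ T) ∧
    (∀ g : ℕ → ℕ, Function.Injective g →
      ∃ c : ℕ → ℕ, (∀ x, c x < 3) ∧
        RecursiveIn {fn g} (fn c) ∧
        ∀ X : Set ℕ, IsSolution c 2 X →
          RecursiveIn {fn g, charFn X} (charFn (Set.range g))) := by
  constructor
  · intro N M hM k c hc
    have hCV : S_CV.{u} := CV_pf (CODE_pf LCM_pf INV_pf)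
    have hLIM : S_LIMK.{u} := LIMK_pf (COH_pf hCV)
    have hDATA : S_DATA.{u} := DATA_pf THR_pf
    exact final_of ALG_pf
      (MAINK_pf hCV hLIM (FORBK_pf hCV) BKAK_pf BKBK_pf BSEQ_pf MINK_pf (C1K_pf hCV) SEQK_pf
        (HLIMK_pf hLIM) (GLIMK_pf hLIM) PARK_pf PIG1_pf PIG2_pf
        (MTYP_pf STB_pf) RELD_pf
        (STEP1_pf THR_pf hDATA) (STEP2_pf hDATA (MIDP_pf STB_pf SYM_pf)) (GRDK_pf hCV))
      N M hM k c hc
  · intro g hg
    refine ⟨c3 g, c3_lt g, ?_, ?_⟩
    · rw [RecursiveIn.iff_nat]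
      exact c3_rec (Nat.RecursiveIn.oracle (fn g) (by simp))
    · intro X hX
      rw [RecursiveIn.iff_nat]
      exact three_colours hg hX (Nat.RecursiveIn.oracle (fn g) (by simp))
        (Nat.RecursiveIn.oracle (charFn X) (by simp))

end Pool.Agent.Results.MP_69fea5_lc.TwoTermsStrength
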