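import Pool.Agent.Work.MP_69fea5_lc.DJOracle

set_option autoImplicit false

/-! Unbounded search with an oracle function. -/

namespace Pool.Agent.Work.MP_69fea5_lc.DJ

open Primrec

/-- The initial segment of length `u` of the function `O`. -/
def pre (O : ℕ → ℕ) (u : ℕ) : List ℕ := (List.range u).map O

lemma pre_getD {O : ℕ → ℕ} {u i : ℕ} (h : i < u) : (pre O u).getD i 0 = O i := by
  unfold pre
  rw [List.getD_eq_getElem _ _ (by simpa using h)]
  simp

/-- decoding of lists -/
def dec (n : ℕ) : List ℕ := ((Encodable.decode n : Option (List ℕ))).getD []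

lemma dec_encode (L : List ℕ) : dec (Encodable.encode L) = L := by
  unfold dec
  rw [Encodable.encodek]
  rfl

lemma pr_dec : Primrec dec := option_getD.comp Primrec.decode (const [])

lemma pre_rec {𝒪 : Set (ℕ →. ℕ)} {O : ℕ → ℕ}
    (hO : Nat.RecursiveIn 𝒪 (fun n => Part.some (O n))) :
    Nat.RecursiveIn 𝒪 (fun u => Part.some (Encodable.encode (pre O u))) := by
  have u1 : Primrec fun t : ℕ => t.unpair.1 := fst.comp Primrec.unpair
  have u2 : Primrec fun t : ℕ => t.unpair.2 := snd.comp Primrec.unpair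
  have hF : Primrec fun t : ℕ => Encodable.encode (dec t.unpair.1.unpair.2.unpair.2 ++
      [t.unpair.2]) :=
    Primrec.encode.comp (list_concat.comp (pr_dec.comp (u2.comp (u2.comp u1))) u2)
  have hy : Nat.RecursiveIn 𝒪 (fun n => Part.some (O (n.unpair.2.unpair.1))) :=
    comp_rec (f := fun n => Part.some (O n)) hO (u1.comp u2)
  have hstep := Nat.RecursiveIn.comp (prim_rec (O := 𝒪) hF)
    (Nat.RecursiveIn.pair (prim_rec (O := 𝒪) Primrec.id) hy)
  have hrec := Nat.RecursiveIn.prec
    (prim_rec (O := 𝒪) (Primrec.const (Encodable.encode ([] : List ℕ)))) hstep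
  have hfin := comp_rec hrec (g := fun n => Nat.pair 0 n)
    (Primrec₂.natPair.comp (const 0) Primrec.id)
  refine hfin.of_eq (fun n => ?_)
  simp only [Nat.unpair_pair]
  induction n with
  | zero => rfl
  | succ n ih =>
    simp only at ih ⊢
    rw [ih]
    simp [pre, Seq.seq, List.range_succ, dec_encode]

/-- Unbounded search for a certificate that can be checked with an initial segment of the oracle
function. -/
lemma search' {𝒪 : Set (ℕ →. ℕ)} {O : ℕ → ℕ} (hO : Nat.RecursiveIn 𝒪 (fun n => Part.some (O n)))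
    (P : ℕ → ℕ → List ℕ → Prop)
    (hP : PrimrecPred fun t : (ℕ × ℕ) × List ℕ => P t.1.1 t.1.2 t.2)
    (out : ℕ → ℕ → List ℕ → ℕ)
    (hout : Primrec fun t : (ℕ × ℕ) × List ℕ => out t.1.1 t.1.2 t.2)
    (f : ℕ → ℕ) (h1 : ∀ a, ∃ u, P a u (pre O u))
    (h2 : ∀ a u, P a u (pre O u) → out a u (pre O u) = f a) :
    Nat.RecursiveIn 𝒪 (fun a => Part.some (f a)) := by
  classical
  have u1 : Primrec fun t : ℕ => t.unpair.1 := fst.comp Primrec.unpair
  have u2 : Primrec fun t : ℕ => t.unpair.2 := snd.comp Primrec.unpair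
  -- `t = pair (pair a u) s`
  have hG : Primrec fun t : ℕ => if P t.unpair.1.unpair.1 t.unpair.1.unpair.2 (dec t.unpair.2)
      then 0 else 1 :=
    Primrec.ite (hP.comp (((u1.comp u1).pair (u2.comp u1)).pair (pr_dec.comp u2)))
      (const 0) (const 1)
  have hseg : Nat.RecursiveIn 𝒪 (fun q => Part.some (Encodable.encode (pre O q.unpair.2))) :=
    comp_rec (f := fun N => Part.some (Encodable.encode (pre O N))) (pre_rec hO) u2
  have hF := Nat.RecursiveIn.comp (prim_rec (O := 𝒪) hG)
    (Nat.RecursiveIn.pair (prim_rec (O := 𝒪) Primrec.id) hseg)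
  have hr := Nat.RecursiveIn.rfind hF
  have hO' : Primrec fun t : ℕ => out t.unpair.1.unpair.1 t.unpair.1.unpair.2 (dec t.unpair.2) :=
    hout.comp (((u1.comp u1).pair (u2.comp u1)).pair (pr_dec.comp u2))
  have hfin := Nat.RecursiveIn.comp (Nat.RecursiveIn.comp (prim_rec (O := 𝒪) hO')
    (Nat.RecursiveIn.pair (prim_rec (O := 𝒪) Primrec.id) hseg))
    (Nat.RecursiveIn.pair (prim_rec (O := 𝒪) Primrec.id) hr)
  refine hfin.of_eq_tot (fun a => ?_)
  have hex := h1 a
  have hspec := Nat.find_spec hex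
  have hmin : ∀ {m}, m < Nat.find hex → ¬ P a m (pre O m) :=
    fun h => Nat.find_min hex h
  have hval := h2 a _ hspec
  simp only [Seq.seq, id_eq, Part.map_eq_map, Part.map_some, Part.bind_eq_bind, Part.bind_some,
    Part.mem_bind_iff, Part.mem_map_iff, Part.mem_some_iff, Nat.unpair_pair]
  refine ⟨Nat.pair a (Nat.find hex), ⟨Nat.find hex, ?_, rfl⟩, ?_⟩
  · refine Nat.mem_rfind.2 ⟨?_, fun {m} hm => ?_⟩
    · simp [hspec, dec_encode]
    · simp [hmin hm, dec_encode]
  · simp [hval, dec_encode]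

lemma pr_getD : Primrec₂ fun (L : List ℕ) (i : ℕ) => L.getD i 0 := Primrec.list_getD 0

end Pool.Agent.Work.MP_69fea5_lc.DJ
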