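import Pool.Agent.Work.MP_69fea5_lc.QSeq
import Pool.Agent.Work.MP_69fea5_lc.QSearch
import Pool.Agent.Work.MP_69fea5_lc.DJAlg

set_option autoImplicit false

/-! The algorithms computing `H` and `K` from an apart sequence along which the double differences
vanish. -/

namespace Pool.Agent.Work.MP_69fea5_lc.DJ

open Primrec

variable {A : Approx} {s : ℕ → ℕ} {𝒪 : Set (ℕ →. ℕ)}

section reading

variable {γ : Type*} [Primcodable γ]

/-- top position of the entry `i` of the list -/
def tp (L : List ℕ) (i : ℕ) : ℕ := hi (bits (L.getD i 0))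

/-- lowest position of the entry `i` of the list -/
def bt (L : List ℕ) (i : ℕ) : ℕ := lo (bits (L.getD i 0))

lemma pr_tp : Primrec₂ tp := pr_hi.comp (pr_bits.comp (pr_getD.comp fst snd))

lemma pr_bt : Primrec₂ bt := pr_lo.comp (pr_bits.comp (pr_getD.comp fst snd))

lemma tp_pre {u i : ℕ} (h : i < u) : tp (pre s u) i = top s i := by
  unfold tp top
  rw [pre_getD h]

lemma bt_pre {u i : ℕ} (h : i < u) : bt (pre s u) i = bot s i := by
  unfold bt bot
  rw [pre_getD h]

lemma pr_Hs (hA : PrimApprox A) {b q : γ → ℕ} (hb : Primrec b) (hq : Primrec q) :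
    PrimrecPred fun t => A.Hs (b t) (q t) = true :=
  pp_bool (hA.Hs.comp hb hq)

end reading

open Classical in
/-- Output of the first algorithm, first case. -/
noncomputable def outH₁ (A : Approx) (i₀ q : ℕ) (L : List ℕ) : ℕ :=
  if A.Hs (tp L (i₀ + 2 * q + 1)) q = true then 1 else 0

open Classical in
/-- Output of the first algorithm, second case. -/
noncomputable def outH₂ (A : Approx) (q u : ℕ) (L : List ℕ) : ℕ :=
  if A.Hs (tp L (u.unpair.1.unpair.2 + bt L u.unpair.1.unpair.1)) q = true then 1 else 0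

/-- Test of the first algorithm, second case. -/
def testH₂ (A : Approx) (q u : ℕ) (L : List ℕ) (i j : ℕ) : Prop :=
  2 * q + 1 ≤ i ∧ i < j ∧ j + bt L i < u ∧
    ∃ p < bt L i, 2 * p < bt L i ∧ A.Hs (tp L j) p = true ∧ ¬ A.Hs (tp L i) p = true

lemma pr_testH₂ (hA : PrimApprox A) : PrimrecPred fun t : (ℕ × ℕ) × List ℕ =>
    testH₂ A t.1.1 t.1.2 t.2 t.1.2.unpair.1.unpair.1 t.1.2.unpair.1.unpair.2 := by
  have q : Primrec fun t : (ℕ × ℕ) × List ℕ => t.1.1 := fst.comp fst
  have u : Primrec fun t : (ℕ × ℕ) × List ℕ => t.1.2 := snd.comp fst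
  have L : Primrec fun t : (ℕ × ℕ) × List ℕ => t.2 := snd
  have i : Primrec fun t : (ℕ × ℕ) × List ℕ => t.1.2.unpair.1.unpair.1 :=
    pr_u1.comp (pr_u1.comp u)
  have j : Primrec fun t : (ℕ × ℕ) × List ℕ => t.1.2.unpair.1.unpair.2 :=
    pr_u2.comp (pr_u1.comp u)
  have b := pr_bt.comp L i
  have p1 := nat_le.comp (nat_add.comp (nat_mul.comp (const 2) q) (const 1)) i
  have p2 := nat_lt.comp i j
  have p3 := nat_lt.comp (nat_add.comp j b) u
  have p4 : PrimrecPred fun t : (ℕ × ℕ) × List ℕ => ∃ p < bt t.2 t.1.2.unpair.1.unpair.1,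
      2 * p < bt t.2 t.1.2.unpair.1.unpair.1 ∧ A.Hs (tp t.2 t.1.2.unpair.1.unpair.2) p = true ∧
      ¬ A.Hs (tp t.2 t.1.2.unpair.1.unpair.1) p = true := by
    refine pp_exists (R := fun (t : (ℕ × ℕ) × List ℕ) p =>
      2 * p < bt t.2 t.1.2.unpair.1.unpair.1 ∧ A.Hs (tp t.2 t.1.2.unpair.1.unpair.2) p = true ∧
      ¬ A.Hs (tp t.2 t.1.2.unpair.1.unpair.1) p = true) ?_ b
    refine PrimrecPred.and ?_ (PrimrecPred.and ?_ (PrimrecPred.not ?_))
    · exact nat_lt.comp (nat_mul.comp (const 2) snd) (b.comp fst)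
    · exact pr_Hs hA ((pr_tp.comp L j).comp fst) snd
    · exact pr_Hs hA ((pr_tp.comp L i).comp fst) snd
  exact p1.and (p2.and (p3.and p4))

/-- `H` is computable from the sequence. -/
theorem Apart.computesH (hA : PrimApprox A) (h : Apart s) (hd : DD A.WE s)
    (hs : Nat.RecursiveIn 𝒪 (fun n => Part.some (s n))) [DecidablePred A.H] :
    Nat.RecursiveIn 𝒪 (fun q => Part.some (if A.H q then 1 else 0)) := by
  classical
  by_cases hcase : ∃ i₀, ∀ i, i₀ ≤ i → ∀ q, 2 * q < bot s i → A.H q → A.Hs (top s i) q = true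
  · obtain ⟨i₀, hi₀⟩ := hcase
    refine search' hs (fun q u _ => i₀ + 2 * q + 1 < u) ?_ (fun q _ L => outH₁ A i₀ q L) ?_
      (fun q => if A.H q then 1 else 0) ?_ ?_
    · exact nat_lt.comp (nat_add.comp (nat_add.comp (const i₀)
        (nat_mul.comp (const 2) (fst.comp fst))) (const 1)) (snd.comp fst)
    · refine Primrec.ite ?_ (const 1) (const 0)
      exact pr_Hs hA (pr_tp.comp snd (nat_add.comp (nat_add.comp (const i₀)
        (nat_mul.comp (const 2) (fst.comp fst))) (const 1))) (fst.comp fst)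
    · intro q
      exact ⟨i₀ + 2 * q + 2, by show _ < _; omega⟩
    · intro q u hu
      have hu' : i₀ + 2 * q + 1 < u := hu
      simp only [outH₁]
      rw [tp_pre hu']
      have hb := h.id_le_bot (i₀ + 2 * q + 1)
      have e : A.H q ↔ A.Hs (top s (i₀ + 2 * q + 1)) q = true :=
        ⟨hi₀ _ (by omega) q (by omega), fun h => ⟨_, h⟩⟩
      simp only [e]
  · push Not at hcase
    refine search' hs (fun q u L => testH₂ A q u L u.unpair.1.unpair.1 u.unpair.1.unpair.2)
      (pr_testH₂ hA) (fun q u L => outH₂ A q u L) ?_ (fun q => if A.H q then 1 else 0) ?_ ?_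
    · refine Primrec.ite ?_ (const 1) (const 0)
      have i : Primrec fun t : (ℕ × ℕ) × List ℕ => t.1.2.unpair.1.unpair.1 :=
        pr_u1.comp (pr_u1.comp (snd.comp fst))
      have j : Primrec fun t : (ℕ × ℕ) × List ℕ => t.1.2.unpair.1.unpair.2 :=
        pr_u2.comp (pr_u1.comp (snd.comp fst))
      exact pr_Hs hA (pr_tp.comp snd (nat_add.comp j (pr_bt.comp snd i))) (fst.comp fst)
    · intro q
      obtain ⟨i, hi, p, hp, hH, hn⟩ := hcase (2 * q + 1)
      obtain ⟨m, hm⟩ := hH
      set j := i + 1 + m with hj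
      set N := i + j + bot s i + 1 with hN
      refine ⟨Nat.pair (Nat.pair i j) N, ?_⟩
      have hu : N ≤ Nat.pair (Nat.pair i j) N := Nat.right_le_pair _ _
      have e1 : bt (pre s (Nat.pair (Nat.pair i j) N)) i = bot s i := bt_pre (by omega)
      have e2 : tp (pre s (Nat.pair (Nat.pair i j) N)) i = top s i := tp_pre (by omega)
      have e3 : tp (pre s (Nat.pair (Nat.pair i j) N)) j = top s j := tp_pre (by omega)
      simp only [testH₂, Nat.unpair_pair]
      rw [e1, e2, e3]
      refine ⟨by omega, by omega, by omega, p, by omega, by omega, ?_, hn⟩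
      exact A.mono m _ _ (le_trans (by omega) (h.id_le_top j)) hm
    · intro q u hu
      simp only [testH₂] at hu
      simp only [outH₂]
      generalize u.unpair.1.unpair.1 = i at hu ⊢
      generalize u.unpair.1.unpair.2 = j at hu ⊢
      obtain ⟨c1, c2, c3, p, hp, hp2, hc, hn⟩ := hu
      have hju : j < u := by omega
      have hiu : i < u := by omega
      rw [bt_pre hiu] at c3 hp hp2 ⊢
      rw [tp_pre hju] at hc
      rw [tp_pre hiu] at hn
      rw [tp_pre c3]
      have hb := h.id_le_bot i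
      have key := h.final hd c2 ⟨2 * p, hp2, ?_, ?_⟩ (2 * q) (by omega)
      · have e : A.H q ↔ A.Hs (top s (j + bot s i)) q = true := by
          constructor
          · intro hH
            have h1 : A.E (2 * q) := by
              unfold Approx.E
              rw [if_pos (by omega)]
              rwa [show 2 * q / 2 = q by omega]
            have h2 := key h1
            unfold Approx.Ea at h2
            rw [if_pos (by omega), show 2 * q / 2 = q by omega] at h2
            exact h2
          · exact fun h => ⟨_, h⟩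
        simp only [e]
      · unfold Approx.Ea
        rw [if_pos (by omega), show 2 * p / 2 = p by omega]
        exact hc
      · unfold Approx.Ea
        rw [if_pos (by omega), show 2 * p / 2 = p by omega]
        exact hn

section readingK

/-- top position of the entry `i` of a list of pairs -/
def tp' (L : List ℕ) (i : ℕ) : ℕ := hi (bits (L.getD i 0).unpair.1)

/-- lowest position of the entry `i` of a list of pairs -/
def bt' (L : List ℕ) (i : ℕ) : ℕ := lo (bits (L.getD i 0).unpair.1)

/-- the guess for `K` at stage `a` read from the list -/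
def KL (A : Approx) (L : List ℕ) (a q : ℕ) : Prop :=
  ∃ s' < a, ¬ ((L.getD (A.ix q s') 0).unpair.2 = 1)

/-- the guess for the join read from the list -/
def EL (A : Approx) (L : List ℕ) (a p : ℕ) : Prop :=
  (p % 2 = 0 ∧ A.Hs a (p / 2) = true) ∨ (p % 2 ≠ 0 ∧ KL A L a (p / 2))

open Classical in
/-- the oracle function -/
noncomputable def OK (A : Approx) (s : ℕ → ℕ) (n : ℕ) : ℕ :=
  Nat.pair (s n) (if A.H n then 1 else 0)

lemma tp'_pre {u i : ℕ} (h : i < u) : tp' (pre (OK A s) u) i = top s i := by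
  unfold tp' top
  rw [pre_getD h]
  simp [OK]

lemma bt'_pre {u i : ℕ} (h : i < u) : bt' (pre (OK A s) u) i = bot s i := by
  unfold bt' bot
  rw [pre_getD h]
  simp [OK]

lemma KL_iff {u a q : ℕ} (h : ∀ s' < a, A.ix q s' < u) : KL A (pre (OK A s) u) a q ↔ A.Ka a q := by
  unfold KL Approx.Ka
  refine exists_congr (fun s' => and_congr_right (fun hs' => ?_))
  rw [pre_getD (h s' hs')]
  simp [OK]

lemma EL_iff {u a p : ℕ} (h : ∀ s' < a, A.ix (p / 2) s' < u) :
    EL A (pre (OK A s) u) a p ↔ A.Ea a p := by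
  unfold EL Approx.Ea
  rw [KL_iff h]
  split_ifs with h2
  · simp [h2]
  · simp [h2]

variable {γ : Type*} [Primcodable γ]

lemma pr_tp' : Primrec₂ tp' := pr_hi.comp (pr_bits.comp (pr_u1.comp (pr_getD.comp fst snd)))

lemma pr_bt' : Primrec₂ bt' := pr_lo.comp (pr_bits.comp (pr_u1.comp (pr_getD.comp fst snd)))

lemma pr_KL (hA : PrimApprox A) {L : γ → List ℕ} {a q : γ → ℕ} (hL : Primrec L) (ha : Primrec a)
    (hq : Primrec q) : PrimrecPred fun t => KL A (L t) (a t) (q t) := by
  refine pp_exists (R := fun t s' => ¬ (((L t).getD (A.ix (q t) s') 0).unpair.2 = 1)) ?_ ha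
  exact (Primrec.eq.comp (pr_u2.comp (pr_getD.comp (hL.comp fst)
    (hA.ix.comp (hq.comp fst) snd))) (const 1)).not

lemma pr_EL (hA : PrimApprox A) {L : γ → List ℕ} {a p : γ → ℕ} (hL : Primrec L) (ha : Primrec a)
    (hp : Primrec p) : PrimrecPred fun t => EL A (L t) (a t) (p t) := by
  have hp2 : Primrec fun t => p t / 2 := nat_div.comp hp (const 2)
  have h0 : PrimrecPred fun t => p t % 2 = 0 :=
    Primrec.eq.comp (nat_mod.comp hp (const 2)) (const 0)
  exact (h0.and (pr_Hs hA ha hp2)).or (h0.not.and (pr_KL hA hL ha hp2))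

/-- Test of the second algorithm, second case. -/
def testK (A : Approx) (q u : ℕ) (L : List ℕ) (i j k : ℕ) : Prop :=
  (2 * q + 2 ≤ i ∧ i < j ∧ j < k ∧ k < u) ∧
  (∀ q' < bt' L i, ∀ s' < bt' L k, A.ix q' s' < u) ∧
  (∃ p < bt' L i, EL A L (tp' L j) p ∧ ¬ EL A L (tp' L i) p) ∧
  (∀ p < bt' L i, EL A L (bt' L k) p → EL A L (tp' L j) p)

lemma pr_testK (hA : PrimApprox A) : PrimrecPred fun t : (ℕ × ℕ) × List ℕ =>
    testK A t.1.1 t.1.2 t.2 t.1.2.unpair.1.unpair.1 t.1.2.unpair.1.unpair.2.unpair.1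
      t.1.2.unpair.1.unpair.2.unpair.2 := by
  have q : Primrec fun t : (ℕ × ℕ) × List ℕ => t.1.1 := fst.comp fst
  have u : Primrec fun t : (ℕ × ℕ) × List ℕ => t.1.2 := snd.comp fst
  have L : Primrec fun t : (ℕ × ℕ) × List ℕ => t.2 := snd
  have i : Primrec fun t : (ℕ × ℕ) × List ℕ => t.1.2.unpair.1.unpair.1 :=
    pr_u1.comp (pr_u1.comp u)
  have j : Primrec fun t : (ℕ × ℕ) × List ℕ => t.1.2.unpair.1.unpair.2.unpair.1 :=
    pr_u1.comp (pr_u2.comp (pr_u1.comp u))
  have k : Primrec fun t : (ℕ × ℕ) × List ℕ => t.1.2.unpair.1.unpair.2.unpair.2 :=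
    pr_u2.comp (pr_u2.comp (pr_u1.comp u))
  generalize hi' : (fun t : (ℕ × ℕ) × List ℕ => t.1.2.unpair.1.unpair.1) = fi at i
  generalize hj' : (fun t : (ℕ × ℕ) × List ℕ => t.1.2.unpair.1.unpair.2.unpair.1) = fj at j
  generalize hk' : (fun t : (ℕ × ℕ) × List ℕ => t.1.2.unpair.1.unpair.2.unpair.2) = fk at k
  have e1 : (fun t : (ℕ × ℕ) × List ℕ => testK A t.1.1 t.1.2 t.2 t.1.2.unpair.1.unpair.1
      t.1.2.unpair.1.unpair.2.unpair.1 t.1.2.unpair.1.unpair.2.unpair.2) =
      fun t => testK A t.1.1 t.1.2 t.2 (fi t) (fj t) (fk t) := by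
    rw [← hi', ← hj', ← hk']
  rw [e1]
  have b := pr_bt'.comp L i
  have bk := pr_bt'.comp L k
  have p1 := nat_le.comp (nat_add.comp (nat_mul.comp (const 2) q) (const 2)) i
  have p2 := nat_lt.comp i j
  have p3 := nat_lt.comp j k
  have p4 := nat_lt.comp k u
  have p5 : PrimrecPred fun t : (ℕ × ℕ) × List ℕ => ∀ q' < bt' t.2 (fi t),
      ∀ s' < bt' t.2 (fk t), A.ix q' s' < t.1.2 := by
    refine pp_forall (R := fun (t : (ℕ × ℕ) × List ℕ) q' =>
      ∀ s' < bt' t.2 (fk t), A.ix q' s' < t.1.2) ?_ b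
    refine pp_forall (R := fun (t : ((ℕ × ℕ) × List ℕ) × ℕ) s' => A.ix t.2 s' < t.1.1.2) ?_
      (bk.comp fst)
    exact nat_lt.comp (hA.ix.comp (snd.comp fst) snd) (u.comp (fst.comp fst))
  have p6 : PrimrecPred fun t : (ℕ × ℕ) × List ℕ => ∃ p < bt' t.2 (fi t),
      EL A t.2 (tp' t.2 (fj t)) p ∧ ¬ EL A t.2 (tp' t.2 (fi t)) p := by
    refine pp_exists (R := fun (t : (ℕ × ℕ) × List ℕ) p =>
      EL A t.2 (tp' t.2 (fj t)) p ∧ ¬ EL A t.2 (tp' t.2 (fi t)) p) ?_ b
    exact (pr_EL hA (L.comp fst) ((pr_tp'.comp L j).comp fst) snd).and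
      (pr_EL hA (L.comp fst) ((pr_tp'.comp L i).comp fst) snd).not
  have p7 : PrimrecPred fun t : (ℕ × ℕ) × List ℕ => ∀ p < bt' t.2 (fi t),
      EL A t.2 (bt' t.2 (fk t)) p → EL A t.2 (tp' t.2 (fj t)) p := by
    refine pp_forall (R := fun (t : (ℕ × ℕ) × List ℕ) p =>
      EL A t.2 (bt' t.2 (fk t)) p → EL A t.2 (tp' t.2 (fj t)) p) ?_ b
    exact pp_imp (pr_EL hA (L.comp fst) (bk.comp fst) snd)
      (pr_EL hA (L.comp fst) ((pr_tp'.comp L j).comp fst) snd)
  exact (p1.and (p2.and (p3.and p4))).and (p5.and (p6.and p7))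

end readingK

open Classical in
/-- Output of the second algorithm, first case. -/
noncomputable def outK₁ (A : Approx) (i₀ q : ℕ) (L : List ℕ) : ℕ :=
  if KL A L (tp' L (i₀ + 2 * q + 2)) q then 1 else 0

open Classical in
/-- Output of the second algorithm, second case. -/
noncomputable def outK₂ (A : Approx) (q u : ℕ) (L : List ℕ) : ℕ :=
  if KL A L (tp' L (u.unpair.1.unpair.2.unpair.1)) q then 1 else 0

/-- `K` is computable from the sequence. -/
theorem Apart.computesK (hA : PrimApprox A) (h : Apart s) (hd : DD A.WE s)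
    (hs : Nat.RecursiveIn 𝒪 (fun n => Part.some (s n))) [DecidablePred A.K] :
    Nat.RecursiveIn 𝒪 (fun q => Part.some (if A.K q then 1 else 0)) := by
  classical
  have hH := h.computesH hA hd hs
  have hO : Nat.RecursiveIn 𝒪 (fun n => Part.some (OK A s n)) := by
    refine (Nat.RecursiveIn.pair hs hH).of_eq (fun n => ?_)
    simp [OK, Seq.seq]
  by_cases hcase : ∃ i₀, ∀ i, i₀ ≤ i → ∀ p < bot s i, A.E p → A.Ea (top s i) p
  · obtain ⟨i₀, hi₀⟩ := hcase
    refine search' hO (fun q u L => i₀ + 2 * q + 2 < u ∧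
      ∀ s' < tp' L (i₀ + 2 * q + 2), A.ix q s' < u) ?_ (fun q _ L => outK₁ A i₀ q L) ?_
      (fun q => if A.K q then 1 else 0) ?_ ?_
    · have hi : Primrec fun t : (ℕ × ℕ) × List ℕ => i₀ + 2 * t.1.1 + 2 :=
        nat_add.comp (nat_add.comp (const i₀) (nat_mul.comp (const 2) (fst.comp fst))) (const 2)
      refine PrimrecPred.and (nat_lt.comp hi (snd.comp fst)) ?_
      refine pp_forall (R := fun (t : (ℕ × ℕ) × List ℕ) s' => A.ix t.1.1 s' < t.1.2) ?_
        (pr_tp'.comp snd hi)
      exact nat_lt.comp (hA.ix.comp (fst.comp (fst.comp fst)) snd) (snd.comp (fst.comp fst))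
    · refine Primrec.ite ?_ (const 1) (const 0)
      have hi : Primrec fun t : (ℕ × ℕ) × List ℕ => i₀ + 2 * t.1.1 + 2 :=
        nat_add.comp (nat_add.comp (const i₀) (nat_mul.comp (const 2) (fst.comp fst))) (const 2)
      exact pr_KL hA snd (pr_tp'.comp snd hi) (fst.comp fst)
    · intro q
      obtain ⟨N, hN⟩ := A.ix_bound (q + 1) (top s (i₀ + 2 * q + 2))
      refine ⟨i₀ + 2 * q + 3 + N, by show _ < _; omega, ?_⟩
      intro s' hs'
      rw [tp'_pre (by omega)] at hs'
      have := hN q (by omega) s' hs'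
      omega
    · rintro q u ⟨hu, hu2⟩
      rw [tp'_pre hu] at hu2
      simp only [outK₁]
      rw [tp'_pre hu]
      have hb := h.id_le_bot (i₀ + 2 * q + 2)
      have e : A.K q ↔ KL A (pre (OK A s) u) (top s (i₀ + 2 * q + 2)) q := by
        rw [KL_iff hu2]
        constructor
        · intro hK
          have h1 : A.E (2 * q + 1) := by
            unfold Approx.E
            rw [if_neg (by omega)]
            rwa [show (2 * q + 1) / 2 = q by omega]
          have h2 := hi₀ (i₀ + 2 * q + 2) (by omega) (2 * q + 1) (by omega) h1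
          unfold Approx.Ea at h2
          rw [if_neg (by omega), show (2 * q + 1) / 2 = q by omega] at h2
          exact h2
        · exact A.K_of_Ka
      simp only [e]
  · push Not at hcase
    refine search' hO (fun q u L => testK A q u L u.unpair.1.unpair.1
      u.unpair.1.unpair.2.unpair.1 u.unpair.1.unpair.2.unpair.2)
      (pr_testK hA) (fun q u L => outK₂ A q u L) ?_ (fun q => if A.K q then 1 else 0) ?_ ?_
    · refine Primrec.ite ?_ (const 1) (const 0)
      have j : Primrec fun t : (ℕ × ℕ) × List ℕ => t.1.2.unpair.1.unpair.2.unpair.1 :=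
        pr_u1.comp (pr_u2.comp (pr_u1.comp (snd.comp fst)))
      exact pr_KL hA snd (pr_tp'.comp snd j) (fst.comp fst)
    · intro q
      obtain ⟨i, hi, p, hp, hE, hn⟩ := hcase (2 * q + 2)
      obtain ⟨M, hM⟩ := A.Ea_limit (bot s i)
      set j := i + 1 + M with hj
      set k := j + 1 with hk
      obtain ⟨N', hN'⟩ := A.ix_bound (bot s i) (bot s k)
      set N := k + 1 + N' with hN
      refine ⟨Nat.pair (Nat.pair i (Nat.pair j k)) N, ?_⟩
      have hu : N ≤ Nat.pair (Nat.pair i (Nat.pair j k)) N := Nat.right_le_pair _ _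
      set u := Nat.pair (Nat.pair i (Nat.pair j k)) N with hu'
      have e1 : bt' (pre (OK A s) u) i = bot s i := bt'_pre (by omega)
      have e2 : tp' (pre (OK A s) u) i = top s i := tp'_pre (by omega)
      have e3 : tp' (pre (OK A s) u) j = top s j := tp'_pre (by omega)
      have e4 : bt' (pre (OK A s) u) k = bot s k := bt'_pre (by omega)
      have t1 : top s j < bot s k := h.top_lt_bot (by omega)
      have t2 : top s i ≤ top s j := h.top_mono (by omega)
      have t3 : j ≤ top s j := h.id_le_top j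
      have bnd : ∀ q' < bot s i, ∀ s' < bot s k, A.ix q' s' < u := by
        intro q' hq' s' hs'
        have := hN' q' hq' s' hs'
        omega
      have eE : ∀ a ≤ bot s k, ∀ p < bot s i, (EL A (pre (OK A s) u) a p ↔ A.Ea a p) :=
        fun a ha p hp => EL_iff (fun s' hs' => bnd _ (by omega) s' (by omega))
      have hu1 : u.unpair.1.unpair.1 = i := by simp [hu']
      have hu2 : u.unpair.1.unpair.2.unpair.1 = j := by simp [hu']
      have hu3 : u.unpair.1.unpair.2.unpair.2 = k := by simp [hu']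
      simp only [testK, hu1, hu2, hu3]
      rw [e1, e2, e3, e4]
      refine ⟨⟨by omega, by omega, by omega, by omega⟩, bnd, ⟨p, hp, ?_, ?_⟩, ?_⟩
      · rw [eE _ (by omega) p hp]
        exact hM _ (by omega) p hp hE
      · rw [eE _ (by omega) p hp]
        exact hn
      · intro p hp h1
        rw [eE _ (by omega) p hp]
        exact hM _ (by omega) p hp (A.E_of_Ea ((eE _ le_rfl p hp).mp h1))
    · intro q u hu
      simp only [testK] at hu
      simp only [outK₂]
      generalize u.unpair.1.unpair.1 = i at hu ⊢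
      generalize u.unpair.1.unpair.2.unpair.1 = j at hu ⊢
      generalize u.unpair.1.unpair.2.unpair.2 = k at hu ⊢
      obtain ⟨⟨c1, c2, c3, c4⟩, bnd, hch, hst⟩ := hu
      rw [bt'_pre (show i < u by omega)] at bnd hch hst
      rw [bt'_pre c4] at bnd hst
      rw [tp'_pre (show j < u by omega)] at hch hst ⊢
      rw [tp'_pre (show i < u by omega)] at hch
      have t1 : top s j < bot s k := h.top_lt_bot (by omega)
      have t2 : top s i ≤ top s j := h.top_mono (by omega)
      have hb := h.id_le_bot i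
      have eE : ∀ a ≤ bot s k, ∀ p < bot s i, (EL A (pre (OK A s) u) a p ↔ A.Ea a p) :=
        fun a ha p hp => EL_iff (fun s' hs' => bnd _ (by omega) s' (by omega))
      have key := h.cert hd c2 c3 ?_ ?_ (2 * q + 1) (by omega)
      · have e : A.K q ↔ KL A (pre (OK A s) u) (top s j) q := by
          rw [KL_iff (fun s' hs' => bnd q (by omega) s' (by omega))]
          constructor
          · intro hK
            have h1 : A.E (2 * q + 1) := by
              unfold Approx.E
              rw [if_neg (by omega)]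
              rwa [show (2 * q + 1) / 2 = q by omega]
            have h2 := key h1
            unfold Approx.Ea at h2
            rw [if_neg (by omega), show (2 * q + 1) / 2 = q by omega] at h2
            exact h2
          · exact A.K_of_Ka
        simp only [e]
      · obtain ⟨p, hp, h1, h2⟩ := hch
        rw [eE _ (by omega) p hp] at h1 h2
        exact ⟨p, hp, h1, h2⟩
      · intro p hp h1
        have := hst p hp ((eE _ le_rfl p hp).mpr h1)
        rwa [eE _ (by omega) p hp] at this

end Pool.Agent.Work.MP_69fea5_lc.DJ
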