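import Pool.Agent.Work.MP_69fea5_lc.DJBits

set_option autoImplicit false

/-! More on binary positions: the lowest position, and identities with sums of at most four
blocks. -/

namespace Pool.Agent.Work.MP_69fea5_lc.DJ

lemma sorted_bits (n : ℕ) : (bits n).Pairwise (· < ·) :=
  List.Pairwise.filter _ List.pairwise_lt_range

lemma lo_le {n i : ℕ} (h : i ∈ bits n) : lo (bits n) ≤ i := by
  have hs := sorted_bits n
  cases hb : bits n with
  | nil => rw [hb] at h; exact absurd h List.not_mem_nil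
  | cons a L =>
    rw [hb] at h hs
    rw [List.pairwise_cons] at hs
    rcases List.mem_cons.mp h with rfl | h
    · exact le_rfl
    · exact (hs.1 i h).le

lemma testBit_lo {n : ℕ} (h : 0 < n) : n.testBit (lo (bits n)) = true :=
  mem_bits.mp (lo_mem (bits_ne_nil h))

lemma lo_bits_pow (l q : ℕ) : lo (bits (2 ^ l * (2 * q + 1))) = l := by
  have hpos : 0 < 2 ^ l * (2 * q + 1) := by positivity
  apply le_antisymm
  · apply lo_le
    rw [mem_bits, Nat.testBit_two_pow_mul]
    simp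
  · exact le_of_mem_bits (dvd_mul_right _ _) (lo_mem (bits_ne_nil hpos))

lemma exists_odd {n : ℕ} (h : 0 < n) : ∃ l q, n = 2 ^ l * (2 * q + 1) := by
  obtain ⟨l, m, hm, rfl⟩ := Nat.exists_eq_two_pow_mul_odd h.ne'
  obtain ⟨q, rfl⟩ := hm
  exact ⟨l, q, rfl⟩

lemma eq_pow_lo {n : ℕ} (h : 0 < n) : ∃ q, n = 2 ^ (lo (bits n)) * (2 * q + 1) := by
  obtain ⟨l, q, rfl⟩ := exists_odd h
  rw [lo_bits_pow]
  exact ⟨q, rfl⟩

lemma pow_lo_dvd {n : ℕ} (h : 0 < n) : 2 ^ (lo (bits n)) ∣ n := by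
  obtain ⟨q, hq⟩ := eq_pow_lo h
  exact ⟨_, hq⟩

lemma pow_dvd_iff {n k : ℕ} (h : 0 < n) : 2 ^ k ∣ n ↔ k ≤ lo (bits n) := by
  constructor
  · intro hk
    exact le_of_mem_bits hk (lo_mem (bits_ne_nil h))
  · intro hk
    exact (pow_dvd_pow 2 hk).trans (pow_lo_dvd h)

/-- The double difference identity with sums of two, three, three and four blocks. -/
lemma col_identity₄ (W : ℕ → ℕ → ℕ → ℕ → Bool) {x y₁ y₂ z k₁ k₂ k₃ : ℕ}
    (hx : 0 < x) (hy₁ : 0 < y₁) (hy₂ : 0 < y₂) (hz : 0 < z)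
    (x1 : x < 2 ^ k₁) (y1 : 2 ^ k₁ ∣ y₁) (y1' : y₁ < 2 ^ k₂) (y2 : 2 ^ k₂ ∣ y₂)
    (y2' : y₂ < 2 ^ k₃) (z1 : 2 ^ k₃ ∣ z) (k12 : k₁ ≤ k₂) (k23 : k₂ ≤ k₃) :
    xor (xor (col W (x + y₁ + y₂ + z)) (col W (x + y₁ + z)))
      (xor (col W (x + y₂ + z)) (col W (x + z))) =
    xor (xor (W (lo (bits x)) (hi (bits y₁)) (lo (bits y₂)) (hi (bits z)))
          (W (lo (bits x)) (hi (bits x)) (lo (bits y₂)) (hi (bits z))))
        (xor (W (lo (bits x)) (hi (bits y₁)) (lo (bits z)) (hi (bits z)))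
          (W (lo (bits x)) (hi (bits x)) (lo (bits z)) (hi (bits z)))) := by
  have p12 : (2 : ℕ) ^ k₁ ∣ 2 ^ k₂ := pow_dvd_pow 2 k12
  have p23 : (2 : ℕ) ^ k₂ ∣ 2 ^ k₃ := pow_dvd_pow 2 k23
  have nx := bits_ne_nil hx
  have ny₁ := bits_ne_nil hy₁
  have ny₂ := bits_ne_nil hy₂
  have nz := bits_ne_nil hz
  have b1 : bits (x + y₁ + y₂ + z) = bits x ++ (bits y₁ ++ (bits y₂ ++ bits z)) := by
    rw [← bits_add y2' z1, ← bits_add y1' (dvd_add y2 (p23.trans z1)),
      ← bits_add x1 (dvd_add y1 (p12.trans (dvd_add y2 (p23.trans z1))))]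
    congr 1
    omega
  have b2 : bits (x + y₁ + z) = bits x ++ (bits y₁ ++ bits z) := by
    rw [← bits_add y1' (p23.trans z1), ← bits_add x1 (dvd_add y1 (p12.trans (p23.trans z1)))]
    congr 1
    omega
  have b3 : bits (x + y₂ + z) = bits x ++ (bits y₂ ++ bits z) := by
    rw [← bits_add y2' z1, ← bits_add x1 (p12.trans (dvd_add y2 (p23.trans z1)))]
    congr 1
    omega
  have b4 : bits (x + z) = bits x ++ bits z := bits_add x1 (p12.trans (p23.trans z1))
  have m2 : bits y₂ ++ bits z ≠ [] := by simp [ny₂]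
  have m3 : bits y₁ ++ bits z ≠ [] := by simp [ny₁]
  have m4 : bits y₁ ++ (bits y₂ ++ bits z) ≠ [] := by simp [ny₁]
  have hi2 : hi (bits y₂ ++ bits z) = hi (bits z) := hi_append nz
  have hi3 : hi (bits y₁ ++ bits z) = hi (bits z) := hi_append nz
  have hi4 : hi (bits y₁ ++ (bits y₂ ++ bits z)) = hi (bits z) := by
    rw [hi_append m2, hi2]
  have c1 : col W (x + y₁ + y₂ + z) = gsum (fun a b => W (lo (bits x)) a b (hi (bits z)))
      (bits x ++ (bits y₁ ++ (bits y₂ ++ bits z))) := by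
    unfold col
    rw [b1, lo_append nx, hi_append m4, hi4]
  have c2 : col W (x + y₁ + z) = gsum (fun a b => W (lo (bits x)) a b (hi (bits z)))
      (bits x ++ (bits y₁ ++ bits z)) := by
    unfold col
    rw [b2, lo_append nx, hi_append m3, hi3]
  have c3 : col W (x + y₂ + z) = gsum (fun a b => W (lo (bits x)) a b (hi (bits z)))
      (bits x ++ (bits y₂ ++ bits z)) := by
    unfold col
    rw [b3, lo_append nx, hi_append m2, hi2]
  have c4 : col W (x + z) = gsum (fun a b => W (lo (bits x)) a b (hi (bits z)))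
      (bits x ++ bits z) := by
    unfold col
    rw [b4, lo_append nx, hi_append nz]
  rw [c1, c2, c3, c4]
  rw [gsum_append _ nx m4, gsum_append _ ny₁ m2, gsum_append _ ny₂ nz,
    gsum_append _ nx m3, gsum_append _ ny₁ nz, gsum_append _ nx m2, gsum_append _ ny₂ nz,
    gsum_append _ nx nz]
  rw [lo_append ny₁, lo_append ny₂, lo_append ny₁]
  generalize gsum _ (bits x) = A
  generalize gsum _ (bits y₁) = B
  generalize gsum _ (bits y₂) = C
  generalize gsum _ (bits z) = D
  generalize W (lo (bits x)) (hi (bits x)) (lo (bits y₁)) (hi (bits z)) = q1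
  generalize W (lo (bits x)) (hi (bits y₁)) (lo (bits y₂)) (hi (bits z)) = q2
  generalize W (lo (bits x)) (hi (bits y₂)) (lo (bits z)) (hi (bits z)) = q3
  generalize W (lo (bits x)) (hi (bits y₁)) (lo (bits z)) (hi (bits z)) = q5
  generalize W (lo (bits x)) (hi (bits x)) (lo (bits y₂)) (hi (bits z)) = q6
  generalize W (lo (bits x)) (hi (bits x)) (lo (bits z)) (hi (bits z)) = q7
  clear c1 c2 c3 c4
  revert A B C D q1 q2 q3 q5 q6 q7
  decide

/-- The identity with sums of one, two, two and three blocks, for a weight which does not depend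
on the lowest position. -/
lemma col_identity₃ (w : ℕ → ℕ → ℕ → Bool) {x y z k₁ k₂ : ℕ}
    (hx : 0 < x) (hy : 0 < y) (hz : 0 < z)
    (x1 : x < 2 ^ k₁) (y1 : 2 ^ k₁ ∣ y) (y1' : y < 2 ^ k₂) (z1 : 2 ^ k₂ ∣ z) (k12 : k₁ ≤ k₂) :
    xor (xor (col (fun _ => w) (x + y + z)) (col (fun _ => w) (x + z)))
      (xor (col (fun _ => w) (y + z)) (col (fun _ => w) z)) =
    xor (w (hi (bits x)) (lo (bits y)) (hi (bits z)))
      (w (hi (bits x)) (lo (bits z)) (hi (bits z))) := by
  have p12 : (2 : ℕ) ^ k₁ ∣ 2 ^ k₂ := pow_dvd_pow 2 k12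
  have nx := bits_ne_nil hx
  have ny := bits_ne_nil hy
  have nz := bits_ne_nil hz
  have b1 : bits (x + y + z) = bits x ++ (bits y ++ bits z) := by
    rw [← bits_add y1' z1, ← bits_add x1 (dvd_add y1 (p12.trans z1))]
    congr 1
    omega
  have b2 : bits (x + z) = bits x ++ bits z := bits_add x1 (p12.trans z1)
  have b3 : bits (y + z) = bits y ++ bits z := bits_add y1' z1
  have m2 : bits y ++ bits z ≠ [] := by simp [ny]
  have hi2 : hi (bits y ++ bits z) = hi (bits z) := hi_append nz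
  have c1 : col (fun _ => w) (x + y + z) = gsum (fun a b => w a b (hi (bits z)))
      (bits x ++ (bits y ++ bits z)) := by
    unfold col
    rw [b1, hi_append m2, hi2]
  have c2 : col (fun _ => w) (x + z) = gsum (fun a b => w a b (hi (bits z)))
      (bits x ++ bits z) := by
    unfold col
    rw [b2, hi_append nz]
  have c3 : col (fun _ => w) (y + z) = gsum (fun a b => w a b (hi (bits z)))
      (bits y ++ bits z) := by
    unfold col
    rw [b3, hi_append nz]
  have c4 : col (fun _ => w) z = gsum (fun a b => w a b (hi (bits z))) (bits z) := rfl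
  rw [c1, c2, c3, c4]
  rw [gsum_append _ nx m2, gsum_append _ ny nz, gsum_append _ nx nz, lo_append ny]
  generalize gsum _ (bits x) = A
  generalize gsum _ (bits y) = B
  generalize gsum _ (bits z) = D
  generalize w (hi (bits x)) (lo (bits y)) (hi (bits z)) = q1
  generalize w (hi (bits y)) (lo (bits z)) (hi (bits z)) = q2
  generalize w (hi (bits x)) (lo (bits z)) (hi (bits z)) = q3
  clear c1 c2 c3 c4
  revert A B D q1 q2 q3
  decide

end Pool.Agent.Work.MP_69fea5_lc.DJ
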