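import Pool.Agent.Work.MP_69fea5_lc.QAlg
import Pool.Agent.Work.MP_69fea5_lc.DJMain

set_option autoImplicit false

/-! Adding the lowest position modulo three to the colour makes the lowest position
finite-to-one on every solution; the apart sequence of a solution. -/

namespace Pool.Agent.Work.MP_69fea5_lc.DJ

open Primrec

/-- The colour with values `0, 1, 2`. -/
def col3 (c : ℕ → Bool) (n : ℕ) : ℕ := (lo (bits n) + (c n).toNat) % 3

/-- All sums of at most four distinct elements of `X` have the same colour. -/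
def Mono4 {κ : Type} (c : ℕ → κ) (X : Set ℕ) : Prop :=
  ∃ b, ∀ F : Finset ℕ, F.Nonempty → F.card ≤ 4 → (↑F : Set ℕ) ⊆ X → c (∑ x ∈ F, x) = b

lemma Mono4.sums {κ : Type} {c : ℕ → κ} {X : Set ℕ} (h : Mono4 c X) :
    ∃ b, (∀ x ∈ X, c x = b) ∧ (∀ x ∈ X, ∀ y ∈ X, x < y → c (x + y) = b) ∧
      (∀ x ∈ X, ∀ y ∈ X, ∀ z ∈ X, x < y → y < z → c (x + y + z) = b) ∧
      (∀ x ∈ X, ∀ y ∈ X, ∀ z ∈ X, ∀ w ∈ X, x < y → y < z → z < w → c (x + y + z + w) = b) := by
  obtain ⟨b, hb⟩ := h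
  refine ⟨b, ?_, ?_, ?_, ?_⟩
  · intro x hx
    have := hb {x} (by simp) (by simp) (by simpa using hx)
    simpa using this
  · intro x hx y hy hxy
    have := hb {x, y} (by simp) (by rw [Finset.card_pair hxy.ne]; omega) (by
      intro i hi
      simp only [Finset.coe_insert, Finset.coe_singleton, Set.mem_insert_iff,
        Set.mem_singleton_iff] at hi
      rcases hi with rfl | rfl <;> assumption)
    rwa [Finset.sum_pair hxy.ne] at this
  · intro x hx y hy z hz hxy hyz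
    have n1 : x ∉ ({y, z} : Finset ℕ) := by simp; omega
    have := hb {x, y, z} (by simp) (by
      rw [Finset.card_insert_of_notMem n1, Finset.card_pair hyz.ne]; omega) (by
      intro i hi
      simp only [Finset.coe_insert, Finset.coe_singleton, Set.mem_insert_iff,
        Set.mem_singleton_iff] at hi
      rcases hi with rfl | rfl | rfl <;> assumption)
    rw [Finset.sum_insert n1, Finset.sum_pair hyz.ne] at this
    rwa [show x + y + z = x + (y + z) by omega]
  · intro x hx y hy z hz w hw hxy hyz hzw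
    have n2 : y ∉ ({z, w} : Finset ℕ) := by simp; omega
    have n1 : x ∉ ({y, z, w} : Finset ℕ) := by simp; omega
    have := hb {x, y, z, w} (by simp) (by
      rw [Finset.card_insert_of_notMem n1, Finset.card_insert_of_notMem n2,
        Finset.card_pair hzw.ne]) (by
      intro i hi
      simp only [Finset.coe_insert, Finset.coe_singleton, Set.mem_insert_iff,
        Set.mem_singleton_iff] at hi
      rcases hi with rfl | rfl | rfl | rfl <;> assumption)
    rw [Finset.sum_insert n1, Finset.sum_insert n2, Finset.sum_pair hzw.ne] at this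
    rwa [show x + y + z + w = x + (y + (z + w)) by omega]

lemma fiber_finite {X : Set ℕ} (hpos : ∀ x ∈ X, 0 < x) {c : ℕ → Bool} {t : ℕ}
    (h1 : ∀ x ∈ X, col3 c x = t) (h2 : ∀ x ∈ X, ∀ y ∈ X, x < y → col3 c (x + y) = t)
    (h4 : ∀ x ∈ X, ∀ y ∈ X, ∀ z ∈ X, ∀ w ∈ X, x < y → y < z → z < w →
      col3 c (x + y + z + w) = t) (l : ℕ) : {x ∈ X | lo (bits x) = l}.Finite := by
  by_contra hinf
  have hinf' : {x ∈ X | lo (bits x) = l}.Infinite := hinf
  have hr : ∃ r, {x ∈ {x ∈ X | lo (bits x) = l} | x % 2 ^ (l + 3) = r}.Infinite := by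
    by_contra hc
    push Not at hc
    have hu : {x ∈ X | lo (bits x) = l} ⊆ ⋃ r ∈ Finset.range (2 ^ (l + 3)),
        {x ∈ {x ∈ X | lo (bits x) = l} | x % 2 ^ (l + 3) = r} := by
      intro x hx
      rw [Set.mem_iUnion₂]
      exact ⟨x % 2 ^ (l + 3), by simpa using Nat.mod_lt _ (by positivity), hx, rfl⟩
    exact hinf' (Set.Finite.subset (Set.Finite.biUnion (Finset.finite_toSet _)
      (fun r _ => hc r)) hu)
  obtain ⟨r, hr⟩ := hr
  obtain ⟨x, hx, -⟩ := hr.exists_gt 0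
  obtain ⟨y, hy, hxy⟩ := hr.exists_gt x
  obtain ⟨z, hz, hyz⟩ := hr.exists_gt y
  obtain ⟨w, hw, hzw⟩ := hr.exists_gt z
  obtain ⟨⟨hxX, hxl⟩, hxr⟩ := hx
  obtain ⟨⟨hyX, -⟩, hyr⟩ := hy
  obtain ⟨⟨hzX, -⟩, hzr⟩ := hz
  obtain ⟨⟨hwX, -⟩, hwr⟩ := hw
  have hdiv : ∀ v, x < v → v % 2 ^ (l + 3) = r → ∃ t, v = x + 2 ^ (l + 3) * t := by
    intro v hv hvr
    have h : x ≡ v [MOD 2 ^ (l + 3)] := by
      unfold Nat.ModEq
      rw [hxr, hvr]
    obtain ⟨t, ht⟩ := (Nat.modEq_iff_dvd' hv.le).mp h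
    exact ⟨t, by omega⟩
  obtain ⟨t₁, e1⟩ := hdiv y hxy hyr
  obtain ⟨t₂, e2⟩ := hdiv z (hxy.trans hyz) hzr
  obtain ⟨t₃, e3⟩ := hdiv w (hxy.trans (hyz.trans hzw)) hwr
  obtain ⟨q, hq⟩ := eq_pow_lo (hpos x hxX)
  rw [hxl] at hq
  have c1 : lo (bits (x + y)) = l + 1 := by
    have : x + y = 2 ^ (l + 1) * (2 * (q + 2 * t₁) + 1) := by
      rw [e1, hq, pow_add, pow_add]; ring
    rw [this, lo_bits_pow]
  have c2 : lo (bits (x + y + z + w)) = l + 2 := by
    have : x + y + z + w = 2 ^ (l + 2) * (2 * (q + (t₁ + t₂ + t₃)) + 1) := by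
      rw [e1, e2, e3, hq, pow_add, pow_add]; ring
    rw [this, lo_bits_pow]
  have g1 := h1 x hxX
  have g2 := h2 x hxX y hyX hxy
  have g4 := h4 x hxX y hyX z hzX w hwX hxy hyz hzw
  unfold col3 at g1 g2 g4
  rw [hxl] at g1
  rw [c1] at g2
  rw [c2] at g4
  have b1 := Bool.toNat_le (c x)
  have b2 := Bool.toNat_le (c (x + y))
  have b4 := Bool.toNat_le (c (x + y + z + w))
  omega

lemma exists_next {X : Set ℕ} (hX : X.Infinite) (hpos : ∀ x ∈ X, 0 < x)
    (hf : ∀ l, {x ∈ X | lo (bits x) = l}.Finite) (x : ℕ) :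
    ∃ y, y ∈ X ∧ x < y ∧ y % 2 ^ x = 0 := by
  have h1 : (⋃ l ∈ Finset.range x, {y ∈ X | lo (bits y) = l}).Finite :=
    Set.Finite.biUnion (Finset.finite_toSet _) (fun l _ => hf l)
  obtain ⟨y, hy, hxy⟩ := (hX.sdiff h1).exists_gt x
  refine ⟨y, hy.1, hxy, ?_⟩
  have h2 : x ≤ lo (bits y) := by
    by_contra hc
    exact hy.2 (by
      rw [Set.mem_iUnion₂]
      exact ⟨lo (bits y), by simpa using hc, hy.1, rfl⟩)
  exact Nat.mod_eq_zero_of_dvd ((pow_dvd_iff (hpos y hy.1)).mpr h2)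

open Classical in
/-- the oracle function of a set -/
noncomputable def OX (X : Set ℕ) (n : ℕ) : ℕ := if n ∈ X then 1 else 0

/-- The test for the next element. -/
def testN (x u : ℕ) (L : List ℕ) : Prop :=
  1 ≤ u ∧ L.getD (u - 1) 0 = 1 ∧ x < u - 1 ∧ (u - 1) % 2 ^ x = 0 ∧
    ∀ y < u - 1, ¬ (L.getD y 0 = 1 ∧ x < y ∧ y % 2 ^ x = 0)

lemma pr_testN : PrimrecPred fun t : (ℕ × ℕ) × List ℕ => testN t.1.1 t.1.2 t.2 := by
  have x : Primrec fun t : (ℕ × ℕ) × List ℕ => t.1.1 := fst.comp fst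
  have u : Primrec fun t : (ℕ × ℕ) × List ℕ => t.1.2 := snd.comp fst
  have L : Primrec fun t : (ℕ × ℕ) × List ℕ => t.2 := snd
  have u' : Primrec fun t : (ℕ × ℕ) × List ℕ => t.1.2 - 1 := nat_sub.comp u (const 1)
  have p1 := nat_le.comp (const 1) u
  have p2 := Primrec.eq.comp (pr_getD.comp L u') (const 1)
  have p3 := nat_lt.comp x u'
  have p4 := Primrec.eq.comp (nat_mod.comp u' (pr_pow.comp (const 2) x)) (const 0)
  have p5 : PrimrecPred fun t : (ℕ × ℕ) × List ℕ =>
      ∀ y < t.1.2 - 1, ¬ (t.2.getD y 0 = 1 ∧ t.1.1 < y ∧ y % 2 ^ t.1.1 = 0) := by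
    refine pp_forall (R := fun (t : (ℕ × ℕ) × List ℕ) y =>
      ¬ (t.2.getD y 0 = 1 ∧ t.1.1 < y ∧ y % 2 ^ t.1.1 = 0)) ?_ u'
    refine PrimrecPred.not (PrimrecPred.and ?_ (PrimrecPred.and ?_ ?_))
    · exact Primrec.eq.comp (pr_getD.comp (L.comp fst) snd) (const 1)
    · exact nat_lt.comp (x.comp fst) snd
    · exact Primrec.eq.comp (nat_mod.comp snd (pr_pow.comp (const 2) (x.comp fst))) (const 0)
  exact p1.and (p2.and (p3.and (p4.and p5)))

/-- Every set on which the lowest position is finite-to-one computes an apart sequence of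
elements. -/
lemma exists_seq {X : Set ℕ} (hX : X.Infinite) (hpos : ∀ x ∈ X, 0 < x)
    (hf : ∀ l, {x ∈ X | lo (bits x) = l}.Finite) :
    ∃ s : ℕ → ℕ, Apart s ∧ (∀ i, s i ∈ X) ∧
      Nat.RecursiveIn {chi X} (fun n => Part.some (s n)) := by
  classical
  have hex := exists_next hX hpos hf
  have hOX : Nat.RecursiveIn {chi X} (fun n => Part.some (OX X n)) := by
    refine (Nat.RecursiveIn.oracle (chi X) (Set.mem_singleton _)).of_eq (fun n => ?_)
    simp only [chi, OX]
  have hnxt : Nat.RecursiveIn {chi X} (fun x => Part.some (Nat.find (hex x))) := by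
    refine search' hOX testN pr_testN (fun _ u _ => u - 1)
      (nat_sub.comp (snd.comp fst) (const 1)) (fun x => Nat.find (hex x)) ?_ ?_
    · intro x
      obtain ⟨h1, h2, h3⟩ := Nat.find_spec (hex x)
      refine ⟨Nat.find (hex x) + 1, by omega, ?_, by omega, by simpa using h3, ?_⟩
      · rw [show Nat.find (hex x) + 1 - 1 = Nat.find (hex x) by omega, pre_getD (by omega)]
        simp [OX, h1]
      · intro y hy hc
        rw [pre_getD (by omega)] at hc
        refine Nat.find_min (hex x) (m := y) (by omega) ⟨?_, hc.2⟩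
        have := hc.1
        unfold OX at this
        by_contra hn
        rw [if_neg hn] at this
        omega
    · rintro x u ⟨h0, h1, h2, h3, h4⟩
      rw [pre_getD (by omega)] at h1
      have hX1 : u - 1 ∈ X := by
        unfold OX at h1
        by_contra hn
        rw [if_neg hn] at h1
        omega
      symm
      rw [Nat.find_eq_iff]
      refine ⟨⟨hX1, h2, h3⟩, fun y hy hc => h4 y hy ⟨?_, hc.2⟩⟩
      rw [pre_getD (by omega)]
      simp [OX, hc.1]
  obtain ⟨x₀, hx₀⟩ := hX.nonempty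
  set s : ℕ → ℕ := fun n => Nat.rec x₀ (fun _ IH => Nat.find (hex IH)) n with hs
  have hs0 : s 0 = x₀ := rfl
  have hs1 : ∀ n, s (n + 1) = Nat.find (hex (s n)) := fun n => rfl
  have hsX : ∀ i, s i ∈ X := by
    intro i
    cases i with
    | zero => exact hx₀
    | succ i =>
      rw [hs1]
      exact (Nat.find_spec (hex (s i))).1
  refine ⟨s, ⟨fun i => hpos _ (hsX i), fun i => ?_⟩, hsX, ?_⟩
  · rw [hs1]
    exact Nat.dvd_of_mod_eq_zero (Nat.find_spec (hex (s i))).2.2
  · have hstep := comp_rec (f := fun x => Part.some (Nat.find (hex x))) hnxt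
      (g := fun t : ℕ => t.unpair.2.unpair.2) (pr_u2.comp pr_u2)
    have hrec := Nat.RecursiveIn.prec (prim_rec (O := {chi X}) (Primrec.const x₀)) hstep
    have hfin := comp_rec hrec (g := fun n => Nat.pair 0 n)
      (Primrec₂.natPair.comp (const 0) Primrec.id)
    refine hfin.of_eq (fun n => ?_)
    simp only [Nat.unpair_pair]
    induction n with
    | zero => rfl
    | succ n ih =>
      simp only at ih ⊢
      rw [ih, hs1]
      simp

lemma Apart.lo_add {s : ℕ → ℕ} (h : Apart s) {i n : ℕ} (hn : 2 ^ (s i) ∣ n) :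
    lo (bits (s i + n)) = bot s i := by
  rw [bits_add Nat.lt_two_pow_self hn, lo_append (bits_ne_nil (h.pos i))]
  rfl

/-- The two-valued part of the colour is constant on the sums with a given first term. -/
lemma Apart.dd_of_col3 {s : ℕ → ℕ} (h : Apart s) {W : ℕ → ℕ → ℕ → ℕ → Bool} {X : Set ℕ}
    (hsX : ∀ i, s i ∈ X) {t : ℕ}
    (h2 : ∀ x ∈ X, ∀ y ∈ X, x < y → col3 (col W) (x + y) = t)
    (h3 : ∀ x ∈ X, ∀ y ∈ X, ∀ z ∈ X, x < y → y < z → col3 (col W) (x + y + z) = t)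
    (h4 : ∀ x ∈ X, ∀ y ∈ X, ∀ z ∈ X, ∀ w ∈ X, x < y → y < z → z < w →
      col3 (col W) (x + y + z + w) = t) : DD W s := by
  have key : ∀ i n m, lo (bits n) = bot s i → lo (bits m) = bot s i → col3 (col W) n = t →
      col3 (col W) m = t → col W n = col W m := by
    intro i n m e1 e2 e3 e4
    unfold col3 at e3 e4
    rw [e1] at e3
    rw [e2] at e4
    cases h1 : col W n <;> cases h2 : col W m <;> rw [h1] at e3 <;> rw [h2] at e4 <;>
      simp only [Bool.toNat_false, Bool.toNat_true] at e3 e4 <;> first | rfl | omega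
  have mono := h.strictMono
  refine h.dd (t := fun i => col W (s i + s (i + 1))) ?_ ?_ ?_
  · intro i j hij
    exact key i _ _ (h.lo_add (h.dvd_of_lt hij)) (h.lo_add (h.dvd i))
      (h2 _ (hsX i) _ (hsX j) (mono hij)) (h2 _ (hsX i) _ (hsX (i + 1)) (mono (by omega)))
  · intro i j k hij hjk
    refine key i _ _ ?_ (h.lo_add (h.dvd i))
      (h3 _ (hsX i) _ (hsX j) _ (hsX k) (mono hij) (mono hjk))
      (h2 _ (hsX i) _ (hsX (i + 1)) (mono (by omega)))
    rw [show s i + s j + s k = s i + (s j + s k) by omega]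
    exact h.lo_add (dvd_add (h.dvd_of_lt hij) (h.dvd_of_lt (hij.trans hjk)))
  · intro i j k r hij hjk hkr
    refine key i _ _ ?_ (h.lo_add (h.dvd i))
      (h4 _ (hsX i) _ (hsX j) _ (hsX k) _ (hsX r) (mono hij) (mono hjk) (mono hkr))
      (h2 _ (hsX i) _ (hsX (i + 1)) (mono (by omega)))
    rw [show s i + s j + s k + s r = s i + (s j + s k + s r) by omega]
    exact h.lo_add (dvd_add (dvd_add (h.dvd_of_lt hij) (h.dvd_of_lt (hij.trans hjk)))
      (h.dvd_of_lt (hij.trans (hjk.trans hkr))))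

/-- `K` is computable from every set whose sums of at most four elements have the same colour. -/
theorem computesK4 {A : Approx} (hA : PrimApprox A) {X : Set ℕ} (hX : X.Infinite)
    (hpos : ∀ x ∈ X, 0 < x) {t : ℕ} (h1 : ∀ x ∈ X, col3 (col A.WE) x = t)
    (h2 : ∀ x ∈ X, ∀ y ∈ X, x < y → col3 (col A.WE) (x + y) = t)
    (h3 : ∀ x ∈ X, ∀ y ∈ X, ∀ z ∈ X, x < y → y < z → col3 (col A.WE) (x + y + z) = t)
    (h4 : ∀ x ∈ X, ∀ y ∈ X, ∀ z ∈ X, ∀ w ∈ X, x < y → y < z → z < w →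
      col3 (col A.WE) (x + y + z + w) = t) [DecidablePred A.K] :
    Nat.RecursiveIn {chi X} (fun q => Part.some (if A.K q then 1 else 0)) := by
  obtain ⟨s, hs, hsX, hsr⟩ := exists_seq hX hpos (fiber_finite hpos h1 h2 h4)
  exact hs.computesK hA (hs.dd_of_col3 hsX h2 h3 h4) hsr

section primrec

variable {A : Approx}

lemma PrimApprox.Est (hA : PrimApprox A) :
    Primrec fun t : ℕ × ℕ × ℕ => A.Est t.1 t.2.1 t.2.2 := by
  have hp2 : Primrec fun t : ℕ × ℕ × ℕ => t.2.2 / 2 := nat_div.comp (snd.comp snd) (const 2)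
  have h0 : PrimrecPred fun t : ℕ × ℕ × ℕ => t.2.2 % 2 = 0 :=
    Primrec.eq.comp (nat_mod.comp (snd.comp snd) (const 2)) (const 0)
  refine (Primrec.ite h0 (hA.Hs.comp fst hp2)
    (hA.Kst.comp (fst.pair ((fst.comp snd).pair hp2)))).of_eq (fun t => ?_)
  unfold Approx.Est
  rfl

lemma PrimApprox.WE (hA : PrimApprox A) :
    Primrec fun t : (ℕ × ℕ) × ℕ × ℕ => A.WE t.1.1 t.2.1 t.2.2 t.1.2 := by
  have h1 : PrimrecPred fun t : (ℕ × ℕ) × ℕ × ℕ =>
      ∃ p < t.1.1, A.Est t.2.2 t.1.2 p = true ∧ ¬ A.Est t.2.1 t.1.2 p = true := by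
    refine pp_exists (R := fun (t : (ℕ × ℕ) × ℕ × ℕ) p =>
      A.Est t.2.2 t.1.2 p = true ∧ ¬ A.Est t.2.1 t.1.2 p = true)
      (PrimrecPred.and ?_ (PrimrecPred.not ?_)) (fst.comp fst)
    · exact pp_bool (hA.Est.comp ((snd.comp (snd.comp fst)).pair
        ((snd.comp (fst.comp fst)).pair snd)))
    · exact pp_bool (hA.Est.comp ((fst.comp (snd.comp fst)).pair
        ((snd.comp (fst.comp fst)).pair snd)))
  exact h1.decide

/-- A colour given by gap sums is primitive recursive. -/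
lemma pr_col {W : ℕ → ℕ → ℕ → ℕ → Bool}
    (hW : Primrec fun t : (ℕ × ℕ) × ℕ × ℕ => W t.1.1 t.2.1 t.2.2 t.1.2) :
    Primrec (DJ.col W) := by
  have hstep : Primrec₂ fun (n : ℕ) (t : ℕ × List ℕ × Bool) =>
      (Option.casesOn (t.2.1.head?) t.2.2
        (fun b => xor (W (lo (bits n)) t.1 b (hi (bits n))) t.2.2) : Bool) := by
    refine option_casesOn (list_head?.comp (fst.comp (snd.comp snd))) (snd.comp (snd.comp snd)) ?_
    have : Primrec fun (u : (ℕ × ℕ × List ℕ × Bool) × ℕ) =>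
        W (lo (bits u.1.1)) u.1.2.1 u.2 (hi (bits u.1.1)) :=
      hW.comp (((pr_lo.comp (pr_bits.comp (fst.comp fst))).pair
        (pr_hi.comp (pr_bits.comp (fst.comp fst)))).pair ((fst.comp (snd.comp fst)).pair snd))
    exact (Primrec.dom_bool₂ xor).comp this (snd.comp (snd.comp (snd.comp fst)))
  have := list_rec (f := bits) (g := fun _ => false) pr_bits (const false) hstep
  refine this.of_eq (fun n => ?_)
  unfold DJ.col
  rw [gsum_eq_rec]

lemma pr_col3 {c : ℕ → Bool} (hc : Primrec c) : Primrec (col3 c) := by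
  have h1 : Primrec fun n => (c n).toNat := (Primrec.dom_bool Bool.toNat).comp hc
  exact nat_mod.comp (nat_add.comp (pr_lo.comp pr_bits) h1) (const 3)

end primrec

end Pool.Agent.Work.MP_69fea5_lc.DJ
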