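import Pool.Agent.Work.MP_69fea5_lc.QColor

set_option autoImplicit false

/-! Diagonalisation against `Σ⁰₃` sets. -/

namespace Pool.Agent.Work.MP_69fea5_lc.DJ

open Primrec

/-- index of the basic question -/
def jx (e n i j : ℕ) : ℕ := Nat.pair e (Nat.pair n (Nat.pair i j))

/-- first element of the candidate -/
def tx (t : ℕ) : ℕ := t.unpair.1

/-- second element of the candidate -/
def ty (t : ℕ) : ℕ := t.unpair.2.unpair.1

/-- bound for the witnesses of the candidate -/
def tI (t : ℕ) : ℕ := t.unpair.2.unpair.2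

/-- highest position of the first element -/
def ta (t : ℕ) : ℕ := hi (bits (tx t))

/-- lowest position of the second element -/
def tb (t : ℕ) : ℕ := lo (bits (ty t))

/-- `n` looks like an element of the `e`-th set at stage `b` -/
def Al (hh : ℕ → Bool) (e n I b : ℕ) : Prop := ∃ i < I, ∀ j < b, hh (jx e n i j) = true

/-- the candidate is a pair of elements which are apart -/
def St (t : ℕ) : Prop := 0 < tx t ∧ tx t < ty t ∧ ty t % 2 ^ (tx t) = 0

/-- the candidate `t` may be chosen by the requirement `e` at stage `b` -/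
def ok (hh : ℕ → Bool) (b e : ℕ) (V : List ℕ) (t : ℕ) : Prop :=
  (St t ∧ tb t < b) ∧ Al hh e (tx t) (tI t) b ∧ Al hh e (ty t) (tI t) b ∧ ∀ v ∈ V, ta v ≠ ta t

open Classical in
/-- the choice of the requirement `e` at stage `b` -/
noncomputable def ch (hh : ℕ → Bool) (b e : ℕ) (V : List ℕ) : Option ℕ :=
  ((List.range b).filter (fun t => decide (ok hh b e V t))).head?

/-- the candidates chosen at stage `b` by the first requirements -/
noncomputable def U (hh : ℕ → Bool) (b : ℕ) : ℕ → List ℕ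
  | 0 => []
  | e + 1 => (Option.casesOn (ch hh b e (U hh b e)) (U hh b e) (fun t => U hh b e ++ [t]))

/-- the candidate chosen at stage `b` for the number `a` -/
noncomputable def pick (hh : ℕ → Bool) (a b : ℕ) : Option ℕ :=
  ((U hh b b).filter (fun t => decide (ta t = a))).head?

/-- one step of the definition of the colouring of pairs -/
noncomputable def stp (hh : ℕ → Bool) (a b : ℕ) (L : List Bool) : Bool :=
  Option.casesOn (pick hh a b) false (fun t => !(L.getD (tb t) false))

/-- values of the colouring of pairs -/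
noncomputable def fl (hh : ℕ → Bool) (a : ℕ) : ℕ → List Bool
  | 0 => []
  | b + 1 => fl hh a b ++ [stp hh a b (fl hh a b)]

/-- the colouring of pairs -/
noncomputable def ff (hh : ℕ → Bool) (a b : ℕ) : Bool := stp hh a b (fl hh a b)

lemma fl_length (hh : ℕ → Bool) (a b : ℕ) : (fl hh a b).length = b := by
  induction b with
  | zero => rfl
  | succ b ih => simp [fl, ih]

lemma fl_getD (hh : ℕ → Bool) (a b i : ℕ) (h : i < b) : (fl hh a b).getD i false = ff hh a i := by
  induction b with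
  | zero => omega
  | succ b ih =>
    have hl := fl_length hh a b
    rcases Nat.lt_succ_iff_lt_or_eq.mp h with h | rfl
    · rw [fl, List.getD_append _ _ _ _ (by omega)]
      exact ih h
    · rw [fl, List.getD_append_right _ _ _ _ (by omega), hl]
      simp [ff]

lemma mem_U {hh : ℕ → Bool} {b e t : ℕ} (h : t ∈ U hh b e) : tb t < b := by
  classical
  induction e with
  | zero => simp [U] at h
  | succ e ih =>
    rw [U] at h
    cases hc : ch hh b e (U hh b e) with
    | none => rw [hc] at h; exact ih h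
    | some t' =>
      rw [hc] at h
      simp only [List.mem_append, List.mem_singleton] at h
      rcases h with h | rfl
      · exact ih h
      · unfold ch at hc
        have := List.mem_of_mem_head? (Option.mem_def.mpr hc)
        rw [List.mem_filter] at this
        have h2 := of_decide_eq_true this.2
        exact h2.1.2

lemma ff_of_pick {hh : ℕ → Bool} {a b t : ℕ} (h : pick hh a b = some t) :
    ff hh a b = !(ff hh a (tb t)) := by
  have hb : tb t < b := by
    unfold pick at h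
    have := List.mem_of_mem_head? (Option.mem_def.mpr h)
    rw [List.mem_filter] at this
    exact mem_U this.1
  unfold ff stp
  rw [h]
  simp only
  rw [fl_getD hh a b _ hb]
  rfl

/-! ### Dependence on the guess -/

lemma Al_congr {hh hh' : ℕ → Bool} {b e n I : ℕ} (hn : n < b) (hI : I ≤ b) (he : e < b)
    (h : ∀ e n i j, e < b → n < b → i < b → j < b → hh (jx e n i j) = hh' (jx e n i j)) :
    Al hh e n I b ↔ Al hh' e n I b := by
  unfold Al
  refine exists_congr (fun i => and_congr_right (fun hi => ?_))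
  refine forall_congr' (fun j => forall_congr' (fun hj => ?_))
  rw [h e n i j he hn (by omega) hj]

lemma ch_congr {hh hh' : ℕ → Bool} {b e : ℕ} (V : List ℕ) (he : e < b)
    (h : ∀ e n i j, e < b → n < b → i < b → j < b → hh (jx e n i j) = hh' (jx e n i j)) :
    ch hh b e V = ch hh' b e V := by
  unfold ch
  congr 1
  apply List.filter_congr
  intro t ht
  rw [List.mem_range] at ht
  have h1 : tx t ≤ t := Nat.unpair_left_le t
  have h2 : t.unpair.2 ≤ t := Nat.unpair_right_le t
  have h3 : ty t ≤ t.unpair.2 := Nat.unpair_left_le _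
  have h4 : tI t ≤ t.unpair.2 := Nat.unpair_right_le _
  rw [decide_eq_decide]
  unfold ok
  rw [Al_congr (n := tx t) (by omega) (by omega) he h,
    Al_congr (n := ty t) (by omega) (by omega) he h]

lemma U_congr {hh hh' : ℕ → Bool} {b e : ℕ} (he : e ≤ b)
    (h : ∀ e n i j, e < b → n < b → i < b → j < b → hh (jx e n i j) = hh' (jx e n i j)) :
    U hh b e = U hh' b e := by
  induction e with
  | zero => rfl
  | succ e ih =>
    have ih' := ih (by omega)
    rw [U, U, ih', ch_congr _ (by omega) h]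

lemma pick_congr {hh hh' : ℕ → Bool} (a : ℕ) {b : ℕ}
    (h : ∀ e n i j, e < b → n < b → i < b → j < b → hh (jx e n i j) = hh' (jx e n i j)) :
    pick hh a b = pick hh' a b := by
  unfold pick
  rw [U_congr le_rfl h]

lemma fl_congr {hh hh' : ℕ → Bool} (a : ℕ) {b : ℕ}
    (h : ∀ e n i j, e < b → n < b → i < b → j < b → hh (jx e n i j) = hh' (jx e n i j)) :
    fl hh a b = fl hh' a b := by
  induction b with
  | zero => rfl
  | succ b ih =>
    have h' : ∀ e n i j, e < b → n < b → i < b → j < b → hh (jx e n i j) = hh' (jx e n i j) :=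
      fun e n i j h1 h2 h3 h4 => h e n i j (by omega) (by omega) (by omega) (by omega)
    rw [fl, fl, ih h']
    congr 2
    unfold stp
    rw [pick_congr a h']

lemma ff_congr {hh hh' : ℕ → Bool} (a : ℕ) {b : ℕ}
    (h : ∀ e n i j, e < b → n < b → i < b → j < b → hh (jx e n i j) = hh' (jx e n i j)) :
    ff hh a b = ff hh' a b := by
  unfold ff
  rw [fl_congr a h]
  unfold stp
  rw [pick_congr a h]

open Classical in
/-- the true halting information -/
noncomputable def HH (A : Approx) (q : ℕ) : Bool := decide (A.H q)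

lemma ff_limit (A : Approx) (a b : ℕ) : ∃ M, ∀ m, M ≤ m → ff (A.Hs m) a b = ff (HH A) a b := by
  classical
  have hN : ∃ N, ∀ e n i j, e < b → n < b → i < b → j < b → jx e n i j < N := by
    refine ⟨Nat.pair b (Nat.pair b (Nat.pair b b)), fun e n i j h1 h2 h3 h4 => ?_⟩
    unfold jx
    refine (Nat.pair_lt_pair_left _ h1).trans (Nat.pair_lt_pair_right _ ?_)
    refine (Nat.pair_lt_pair_left _ h2).trans (Nat.pair_lt_pair_right _ ?_)
    exact (Nat.pair_lt_pair_left _ h3).trans (Nat.pair_lt_pair_right _ h4)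
  obtain ⟨N, hN⟩ := hN
  obtain ⟨M, hM⟩ := A.settle N
  refine ⟨M, fun m hm => ff_congr a ?_⟩
  intro e n i j h1 h2 h3 h4
  have h5 := hN e n i j h1 h2 h3 h4
  unfold HH
  by_cases hH : A.H (jx e n i j)
  · rw [hM m hm _ h5 hH]
    simp [hH]
  · simp only [hH, decide_false]
    by_contra hc
    exact hH ⟨m, by simpa using hc⟩

/-! ### The diagonalisation -/

/-- the `e`-th `Σ⁰₃` set -/
def X3 (A : Approx) (e : ℕ) : Set ℕ := {n | ∃ i, ∀ j, A.H (jx e n i j)}

lemma Al_anti {hh : ℕ → Bool} {e n I b b' : ℕ} (h : b' ≤ b) (h1 : Al hh e n I b) :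
    Al hh e n I b' := by
  obtain ⟨i, hi, h2⟩ := h1
  exact ⟨i, hi, fun j hj => h2 j (by omega)⟩

lemma mem_X3_of_Al {A : Approx} {e n I : ℕ} (h : ∀ b, Al (HH A) e n I b) : n ∈ X3 A e := by
  by_contra hc
  have hc' : ∀ i, ∃ j, ¬ A.H (jx e n i j) := by
    intro i
    by_contra h2
    push Not at h2
    exact hc ⟨i, h2⟩
  choose g hg using hc'
  obtain ⟨i, hi, h2⟩ := h (∑ i ∈ Finset.range I, g i + 1)
  have h3 : g i ≤ ∑ i ∈ Finset.range I, g i :=
    Finset.single_le_sum (f := fun i => g i) (fun _ _ => Nat.zero_le _) (Finset.mem_range.mpr hi)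
  have h4 := h2 (g i) (by omega)
  unfold HH at h4
  exact hg i (by simpa using h4)

lemma Al_of_mem {A : Approx} {e n i I : ℕ} (hi : i < I) (h : ∀ j, A.H (jx e n i j)) (b : ℕ) :
    Al (HH A) e n I b := by
  classical
  refine ⟨i, hi, fun j _ => ?_⟩
  unfold HH
  simpa using h j

/-- the candidate is good for ever -/
def TA (A : Approx) (e t : ℕ) : Prop :=
  St t ∧ ∀ b, Al (HH A) e (tx t) (tI t) b ∧ Al (HH A) e (ty t) (tI t) b

lemma TA.mem {A : Approx} {e t : ℕ} (h : TA A e t) : tx t ∈ X3 A e ∧ ty t ∈ X3 A e :=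
  ⟨mem_X3_of_Al (fun b => (h.2 b).1), mem_X3_of_Al (fun b => (h.2 b).2)⟩

lemma not_TA {A : Approx} {e t : ℕ} (h : ¬ TA A e t) : ∃ b₀, ∀ b, b₀ ≤ b →
    ¬ (St t ∧ Al (HH A) e (tx t) (tI t) b ∧ Al (HH A) e (ty t) (tI t) b) := by
  by_cases hs : St t
  · have : ∃ b, ¬ (Al (HH A) e (tx t) (tI t) b ∧ Al (HH A) e (ty t) (tI t) b) := by
      by_contra hc
      push Not at hc
      exact h ⟨hs, hc⟩
    obtain ⟨b₀, hb₀⟩ := this
    exact ⟨b₀, fun b hb hc => hb₀ ⟨Al_anti hb hc.2.1, Al_anti hb hc.2.2⟩⟩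
  · exact ⟨0, fun b _ hc => hs hc.1⟩

/-- the hypotheses on the set -/
structure Good3 (A : Approx) (e : ℕ) (X : Set ℕ) : Prop where
  inf : X.Infinite
  pos : ∀ x ∈ X, 0 < x
  fib : ∀ l, {x ∈ X | lo (bits x) = l}.Finite
  eq : X = X3 A e

lemma Good3.exists_TA {A : Approx} {e : ℕ} {X : Set ℕ} (h : Good3 A e X) (N : ℕ) :
    ∃ t, TA A e t ∧ N < ta t := by
  obtain ⟨x, hx, hNx, hx2⟩ := exists_next h.inf h.pos h.fib (N + 1)
  obtain ⟨y, hy, hxy, hy2⟩ := exists_next h.inf h.pos h.fib x
  have hx' : x ∈ X3 A e := h.eq ▸ hx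
  have hy' : y ∈ X3 A e := h.eq ▸ hy
  obtain ⟨i, hi₁⟩ := hx'
  obtain ⟨i', hi₂⟩ := hy'
  refine ⟨Nat.pair x (Nat.pair y (i + i' + 1)), ⟨⟨?_, ?_, ?_⟩, fun b => ⟨?_, ?_⟩⟩, ?_⟩
  · simpa [tx] using h.pos x hx
  · simpa [tx, ty] using hxy
  · simpa [tx, ty] using hy2
  · simp only [tx, tI, Nat.unpair_pair]
    exact Al_of_mem (by omega) hi₁ b
  · simp only [ty, tI, Nat.unpair_pair]
    exact Al_of_mem (by omega) hi₂ b
  · simp only [ta, tx, Nat.unpair_pair]
    have h1 : N + 1 ≤ lo (bits x) := (pow_dvd_iff (h.pos x hx)).mp (Nat.dvd_of_mod_eq_zero hx2)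
    have h2 : lo (bits x) ≤ hi (bits x) := lo_le (hi_mem (bits_ne_nil (h.pos x hx)))
    omega

lemma Good3.many {A : Approx} {e : ℕ} {X : Set ℕ} (h : Good3 A e X) (k : ℕ) :
    ∃ N, ∀ V : Finset ℕ, V.card ≤ k → ∃ t < N, TA A e t ∧ ta t ∉ V := by
  induction k with
  | zero =>
    obtain ⟨t, ht, -⟩ := h.exists_TA 0
    refine ⟨t + 1, fun V hV => ⟨t, Nat.lt_succ_self t, ht, ?_⟩⟩
    have : V = ∅ := Finset.card_eq_zero.mp (by omega)
    rw [this]
    exact Finset.notMem_empty _
  | succ k ih =>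
    obtain ⟨N, hN⟩ := ih
    obtain ⟨t', ht', hlt⟩ := h.exists_TA (∑ t ∈ Finset.range N, ta t)
    refine ⟨max N (t' + 1), fun V hV => ?_⟩
    by_cases hV' : ta t' ∈ V
    · obtain ⟨t, ht, hTA, hn⟩ := hN (V.erase (ta t')) (by
        rw [Finset.card_erase_of_mem hV']; omega)
      refine ⟨t, lt_of_lt_of_le ht (le_max_left _ _), hTA, fun hc => hn ?_⟩
      rw [Finset.mem_erase]
      refine ⟨?_, hc⟩
      have : ta t ≤ ∑ t ∈ Finset.range N, ta t :=
        Finset.single_le_sum (f := fun t => ta t) (fun _ _ => Nat.zero_le _)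
          (Finset.mem_range.mpr ht)
      omega
    · exact ⟨t', lt_of_lt_of_le (Nat.lt_succ_self _) (le_max_right _ _), ht', hV'⟩

lemma U_length (hh : ℕ → Bool) (b e : ℕ) : (U hh b e).length ≤ e := by
  induction e with
  | zero => simp [U]
  | succ e ih =>
    rw [U]
    cases ch hh b e (U hh b e) with
    | none => simp only; omega
    | some t => simp only [List.length_append, List.length_singleton]; omega

lemma U_prefix (hh : ℕ → Bool) (b e k : ℕ) : ∃ R, U hh b (e + k) = U hh b e ++ R := by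
  induction k with
  | zero => exact ⟨[], by simp⟩
  | succ k ih =>
    obtain ⟨R, hR⟩ := ih
    rw [← Nat.add_assoc, U]
    cases ch hh b (e + k) (U hh b (e + k)) with
    | none => exact ⟨R, hR⟩
    | some t => exact ⟨R ++ [t], by simp only [hR, List.append_assoc]⟩

/-- If the requirement `e` chooses `t` at stage `b` then `t` is picked for `ta t`. -/
lemma pick_of_ch {hh : ℕ → Bool} {b e t : ℕ} (he : e < b)
    (h : ch hh b e (U hh b e) = some t) : pick hh (ta t) b = some t := by
  classical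
  obtain ⟨k, rfl⟩ := Nat.exists_eq_add_of_lt he
  obtain ⟨R, hR⟩ := U_prefix hh (e + k + 1) (e + 1) k
  have h1 : U hh (e + k + 1) (e + 1) = U hh (e + k + 1) e ++ [t] := by
    rw [U, h]
  have h2 : ∀ v ∈ U hh (e + k + 1) e, ta v ≠ ta t := by
    unfold ch at h
    have := List.mem_of_mem_head? (Option.mem_def.mpr h)
    rw [List.mem_filter] at this
    exact (of_decide_eq_true this.2).2.2.2
  have h3 : U hh (e + k + 1) (e + k + 1) = U hh (e + k + 1) e ++ ([t] ++ R) := by
    rw [show e + k + 1 = e + 1 + k by omega] at hR h1 ⊢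
    rw [hR, h1, List.append_assoc]
  unfold pick
  rw [h3, List.filter_append]
  have h4 : (U hh (e + k + 1) e).filter (fun v => decide (ta v = ta t)) = [] := by
    rw [List.filter_eq_nil_iff]
    intro v hv
    simpa using h2 v hv
  rw [h4]
  simp

/-- The colouring of pairs is not prehomogeneous on the set. -/
lemma Good3.diag {A : Approx} {e : ℕ} {X : Set ℕ} (h : Good3 A e X) :
    ∃ x ∈ X, ∃ y ∈ X, ∃ z ∈ X, x < y ∧ 2 ^ x ∣ y ∧ y < z ∧ 2 ^ y ∣ z ∧
      ff (HH A) (hi (bits x)) (lo (bits z)) = !(ff (HH A) (hi (bits x)) (lo (bits y))) := by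
  classical
  obtain ⟨N, hN⟩ := h.many e
  -- a stage by which all bad candidates below `N` are dead
  have hb : ∃ b₀, ∀ t < N, ¬ TA A e t → ∀ b, b₀ ≤ b →
      ¬ (St t ∧ Al (HH A) e (tx t) (tI t) b ∧ Al (HH A) e (ty t) (tI t) b) := by
    clear hN
    induction N with
    | zero => exact ⟨0, fun t ht => by omega⟩
    | succ N ih =>
      obtain ⟨b₀, hb₀⟩ := ih
      by_cases hTA : TA A e N
      · refine ⟨b₀, fun t ht hn => ?_⟩
        rcases Nat.lt_succ_iff_lt_or_eq.mp ht with ht | rfl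
        · exact hb₀ t ht hn
        · exact absurd hTA hn
      · obtain ⟨b₁, hb₁⟩ := not_TA hTA
        refine ⟨max b₀ b₁, fun t ht hn b hb => ?_⟩
        rcases Nat.lt_succ_iff_lt_or_eq.mp ht with ht | rfl
        · exact hb₀ t ht hn b (le_trans (le_max_left _ _) hb)
        · exact hb₁ b (le_trans (le_max_right _ _) hb)
  obtain ⟨b₀, hb₀⟩ := hb
  obtain ⟨z, hz, hBz, hz2⟩ := exists_next h.inf h.pos h.fib (N + b₀ + e + 1)
  set b := lo (bits z) with hbdef
  have hBb : N + b₀ + e + 1 ≤ b := (pow_dvd_iff (h.pos z hz)).mp (Nat.dvd_of_mod_eq_zero hz2)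
  -- the requirement `e` chooses a good candidate
  have hty : ∀ t, ty t ≤ t := fun t =>
    le_trans (Nat.unpair_left_le _) (Nat.unpair_right_le t)
  have htb : ∀ t, tb t ≤ t := by
    intro t
    unfold tb
    rcases Nat.eq_zero_or_pos (ty t) with h0 | h0
    · rw [h0]
      simp [bits, lo]
    · exact le_trans (le_of_lt (lt_of_mem_bits Nat.lt_two_pow_self (lo_mem (bits_ne_nil h0))))
        (hty t)
  obtain ⟨t₀, ht₀, hTA₀, hn₀⟩ := hN ((U (HH A) b e).map ta).toFinset (by
    refine le_trans (List.toFinset_card_le _) ?_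
    rw [List.length_map]
    exact U_length _ _ _)
  have hok₀ : ok (HH A) b e (U (HH A) b e) t₀ := by
    refine ⟨⟨hTA₀.1, by have := htb t₀; omega⟩, (hTA₀.2 b).1, (hTA₀.2 b).2, fun v hv hc => hn₀ ?_⟩
    rw [List.mem_toFinset, List.mem_map]
    exact ⟨v, hv, hc⟩
  obtain ⟨t, ht, htN⟩ : ∃ t, ch (HH A) b e (U (HH A) b e) = some t ∧ t < N := by
    set F := (List.range b).filter (fun t => decide (ok (HH A) b e (U (HH A) b e) t)) with hF
    have hmem : t₀ ∈ F := by
      rw [hF, List.mem_filter]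
      exact ⟨List.mem_range.mpr (by omega), by simpa using hok₀⟩
    have hsort : F.Pairwise (· < ·) := List.Pairwise.filter _ List.pairwise_lt_range
    have hch : ch (HH A) b e (U (HH A) b e) = F.head? := rfl
    cases hF2 : F with
    | nil => rw [hF2] at hmem; exact absurd hmem List.not_mem_nil
    | cons t F' =>
      refine ⟨t, by rw [hch, hF2]; rfl, ?_⟩
      rw [hF2] at hmem hsort
      rw [List.pairwise_cons] at hsort
      rcases List.mem_cons.mp hmem with rfl | hm
      · exact ht₀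
      · have := hsort.1 t₀ hm
        omega
  have hokt : ok (HH A) b e (U (HH A) b e) t := by
    unfold ch at ht
    have := List.mem_of_mem_head? (Option.mem_def.mpr ht)
    rw [List.mem_filter] at this
    exact of_decide_eq_true this.2
  have hTAt : TA A e t := by
    by_contra hc
    exact hb₀ t htN hc b (by omega) ⟨hokt.1.1, hokt.2.1, hokt.2.2.1⟩
  have hm := hTAt.mem
  rw [← h.eq] at hm
  have hpick := pick_of_ch (by omega) ht
  have hf := ff_of_pick hpick
  refine ⟨tx t, hm.1, ty t, hm.2, z, hz, hTAt.1.2.1, Nat.dvd_of_mod_eq_zero hTAt.1.2.2, ?_, ?_, hf⟩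
  · have := hty t
    omega
  · exact (pow_dvd_pow 2 (by have := hty t; omega)).trans (Nat.dvd_of_mod_eq_zero hz2)

/-- No set on which the colour of the sums of at most three terms is constant is `Σ⁰₃`. -/
theorem not_sigma3 {A : Approx} {e : ℕ} {X : Set ℕ} (hX : X.Infinite) (hpos : ∀ x ∈ X, 0 < x)
    (hf : ∀ l, {x ∈ X | lo (bits x) = l}.Finite) {t : Bool}
    (h1 : ∀ x ∈ X, col (fun _ a b m => ff (A.Hs m) a b) x = t)
    (h2 : ∀ x ∈ X, ∀ y ∈ X, x < y → col (fun _ a b m => ff (A.Hs m) a b) (x + y) = t)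
    (h3 : ∀ x ∈ X, ∀ y ∈ X, ∀ z ∈ X, x < y → y < z →
      col (fun _ a b m => ff (A.Hs m) a b) (x + y + z) = t) : X ≠ X3 A e := by
  intro he
  have hg : Good3 A e X := ⟨hX, hpos, hf, he⟩
  obtain ⟨x, hx, y, hy, z, hz, hxy, dxy, hyz, dyz, hd⟩ := hg.diag
  obtain ⟨M₁, hM₁⟩ := ff_limit A (hi (bits x)) (lo (bits y))
  obtain ⟨M₂, hM₂⟩ := ff_limit A (hi (bits x)) (lo (bits z))
  obtain ⟨v, hv, hzv, hv2⟩ := exists_next hX hpos hf (z + M₁ + M₂)
  have dv : 2 ^ (z + M₁ + M₂) ∣ v := Nat.dvd_of_mod_eq_zero hv2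
  have hhi : z + M₁ + M₂ ≤ hi (bits v) :=
    le_trans ((pow_dvd_iff (hpos v hv)).mp dv) (lo_le (hi_mem (bits_ne_nil (hpos v hv))))
  have key : ∀ y' ∈ X, x < y' → 2 ^ x ∣ y' → y' ≤ z →
      ff (A.Hs (hi (bits v))) (hi (bits x)) (lo (bits y')) =
      ff (A.Hs (hi (bits v))) (hi (bits x)) (lo (bits v)) := by
    intro y' hy' hxy' dxy' hyz'
    have k := col_identity₃ (fun a b m => ff (A.Hs m) a b) (hpos x hx) (hpos y' hy') (hpos v hv)
      (Nat.lt_two_pow_self (n := x)) dxy' (Nat.lt_two_pow_self (n := y'))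
      ((pow_dvd_pow 2 (by omega)).trans dv) hxy'.le
    rw [h3 x hx y' hy' v hv hxy' (by omega), h2 x hx v hv (by omega), h2 y' hy' v hv (by omega),
      h1 v hv] at k
    have e : xor (xor t t) (xor t t) = false := by cases t <;> rfl
    rw [e] at k
    revert k
    generalize ff (A.Hs (hi (bits v))) (hi (bits x)) (lo (bits y')) = q1
    generalize ff (A.Hs (hi (bits v))) (hi (bits x)) (lo (bits v)) = q2
    revert q1 q2
    decide
  have k1 := key y hy hxy dxy hyz.le
  have k2 := key z hz (hxy.trans hyz) ((pow_dvd_pow 2 hxy.le).trans dyz) le_rfl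
  rw [hM₁ _ (by omega)] at k1
  rw [hM₂ _ (by omega)] at k2
  rw [← k1] at k2
  rw [k2] at hd
  revert hd
  generalize ff (HH A) (hi (bits x)) (lo (bits y)) = q
  revert q
  decide

end Pool.Agent.Work.MP_69fea5_lc.DJ
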