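import Pool.Agent.Work.MP_69fea5_lc.QDiag

set_option autoImplicit false

/-! The colouring used for the diagonalisation is primitive recursive. -/

namespace Pool.Agent.Work.MP_69fea5_lc.DJ

open Primrec

variable {γ : Type*} [Primcodable γ]

lemma pr_filter {f : γ → List ℕ} (hf : Primrec f) {p : γ → ℕ → Prop}
    (hp : PrimrecPred fun t : γ × ℕ => p t.1 t.2) [∀ a x, Decidable (p a x)] :
    Primrec fun a => (f a).filter (fun x => decide (p a x)) := by
  have hg : Primrec₂ fun (a : γ) (x : ℕ) => if p a x then some x else none :=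
    Primrec.ite (c := fun t : γ × ℕ => p t.1 t.2) hp (option_some.comp snd) (const none)
  refine (listFilterMap hf hg).of_eq (fun a => ?_)
  rw [← List.filterMap_eq_filter]
  congr 1
  funext x
  simp [Option.guard]

lemma pr_tx : Primrec tx := pr_u1

lemma pr_ty : Primrec ty := pr_u1.comp pr_u2

lemma pr_tI : Primrec tI := pr_u2.comp pr_u2

lemma pr_ta : Primrec ta := pr_hi.comp (pr_bits.comp pr_tx)

lemma pr_tb : Primrec tb := pr_lo.comp (pr_bits.comp pr_ty)

variable {A : Approx}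

lemma pr_Al (hA : PrimApprox A) {m e n I b : γ → ℕ} (hm : Primrec m) (he : Primrec e)
    (hn : Primrec n) (hI : Primrec I) (hb : Primrec b) :
    PrimrecPred fun t => Al (A.Hs (m t)) (e t) (n t) (I t) (b t) := by
  refine pp_exists (R := fun t i => ∀ j < b t, A.Hs (m t) (jx (e t) (n t) i j) = true) ?_ hI
  refine pp_forall (R := fun (t : γ × ℕ) j => A.Hs (m t.1) (jx (e t.1) (n t.1) t.2 j) = true) ?_
    (hb.comp fst)
  refine pr_Hs hA (hm.comp (fst.comp fst)) ?_
  exact Primrec₂.natPair.comp (he.comp (fst.comp fst)) (Primrec₂.natPair.comp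
    (hn.comp (fst.comp fst)) (Primrec₂.natPair.comp (snd.comp fst) snd))

lemma pr_St {t : γ → ℕ} (ht : Primrec t) : PrimrecPred fun c => St (t c) := by
  have x := pr_tx.comp ht
  have y := pr_ty.comp ht
  exact (nat_lt.comp (const 0) x).and ((nat_lt.comp x y).and
    (Primrec.eq.comp (nat_mod.comp y (pr_pow.comp (const 2) x)) (const 0)))

lemma pr_ok (hA : PrimApprox A) {m b e t : γ → ℕ} {V : γ → List ℕ} (hm : Primrec m)
    (hb : Primrec b) (he : Primrec e) (hV : Primrec V) (ht : Primrec t) :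
    PrimrecPred fun c => ok (A.Hs (m c)) (b c) (e c) (V c) (t c) := by
  have h1 : PrimrecRel fun (v : ℕ) (c : ℕ) => ta v ≠ ta c :=
    (Primrec.eq.comp (pr_ta.comp fst) (pr_ta.comp snd)).not
  have h2 : PrimrecPred fun c => ∀ v ∈ V c, ta v ≠ ta (t c) := h1.forall_mem_list.comp hV ht
  exact ((pr_St ht).and (nat_lt.comp (pr_tb.comp ht) hb)).and
    ((pr_Al hA hm he (pr_tx.comp ht) (pr_tI.comp ht) hb).and
      ((pr_Al hA hm he (pr_ty.comp ht) (pr_tI.comp ht) hb).and h2))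

lemma pr_ch (hA : PrimApprox A) {m b e : γ → ℕ} {V : γ → List ℕ} (hm : Primrec m)
    (hb : Primrec b) (he : Primrec e) (hV : Primrec V) :
    Primrec fun c => ch (A.Hs (m c)) (b c) (e c) (V c) := by
  classical
  have := pr_filter (f := fun c => List.range (b c))
    (p := fun c t => ok (A.Hs (m c)) (b c) (e c) (V c) t) (list_range.comp hb)
    (pr_ok hA (hm.comp fst) (hb.comp fst) (he.comp fst) (hV.comp fst) snd)
  refine (list_head?.comp this).of_eq (fun c => ?_)
  unfold ch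
  congr

lemma pr_U (hA : PrimApprox A) :
    Primrec₂ fun (c : ℕ × ℕ) (e : ℕ) => U (A.Hs c.1) c.2 e := by
  have hstep : Primrec₂ fun (c : ℕ × ℕ) (p : ℕ × List ℕ) =>
      (Option.casesOn (ch (A.Hs c.1) c.2 p.1 p.2) p.2 (fun t => p.2 ++ [t]) : List ℕ) := by
    refine option_casesOn ?_ (snd.comp snd) ?_
    · exact pr_ch hA (fst.comp fst) (snd.comp fst) (fst.comp snd) (snd.comp snd)
    · exact list_concat.comp (snd.comp (snd.comp fst)) snd
  have := nat_rec (f := fun _ : ℕ × ℕ => ([] : List ℕ)) (const []) hstep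
  refine this.of_eq (fun c e => ?_)
  induction e with
  | zero => rfl
  | succ e ih =>
    rw [U, ← ih]

lemma pr_pick (hA : PrimApprox A) :
    Primrec fun c : ℕ × ℕ × ℕ => pick (A.Hs c.1) c.2.1 c.2.2 := by
  classical
  have h1 : Primrec fun c : ℕ × ℕ × ℕ => U (A.Hs c.1) c.2.2 c.2.2 :=
    (pr_U hA).comp (fst.pair (snd.comp snd)) (snd.comp snd)
  have h2 := pr_filter (f := fun c : ℕ × ℕ × ℕ => U (A.Hs c.1) c.2.2 c.2.2)
    (p := fun c t => ta t = c.2.1) h1
    (Primrec.eq.comp (pr_ta.comp snd) (fst.comp (snd.comp fst)))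
  refine (list_head?.comp h2).of_eq (fun c => ?_)
  unfold pick
  congr

lemma pr_getDB : Primrec₂ fun (L : List Bool) (i : ℕ) => L.getD i false := Primrec.list_getD false

lemma pr_stp (hA : PrimApprox A) :
    Primrec fun c : (ℕ × ℕ) × ℕ × List Bool => stp (A.Hs c.1.1) c.1.2 c.2.1 c.2.2 := by
  refine option_casesOn ((pr_pick hA).comp ((fst.comp fst).pair ((snd.comp fst).pair
    (fst.comp snd)))) (const false) ?_
  exact Primrec.not.comp (pr_getDB.comp (snd.comp (snd.comp fst)) (pr_tb.comp snd))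

lemma pr_fl (hA : PrimApprox A) :
    Primrec₂ fun (c : ℕ × ℕ) (b : ℕ) => fl (A.Hs c.1) c.2 b := by
  have hstep : Primrec₂ fun (c : ℕ × ℕ) (p : ℕ × List Bool) =>
      p.2 ++ [stp (A.Hs c.1) c.2 p.1 p.2] :=
    list_concat.comp (snd.comp snd) ((pr_stp hA).comp
      ((fst.pair (((fst.comp snd)).pair (snd.comp snd)))))
  have := nat_rec (f := fun _ : ℕ × ℕ => ([] : List Bool)) (const []) hstep
  refine this.of_eq (fun c b => ?_)
  induction b with
  | zero => rfl
  | succ b ih =>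
    rw [fl, ← ih]

lemma pr_ff (hA : PrimApprox A) :
    Primrec fun c : ℕ × ℕ × ℕ => ff (A.Hs c.1) c.2.1 c.2.2 := by
  have h1 : Primrec fun c : ℕ × ℕ × ℕ => fl (A.Hs c.1) c.2.1 c.2.2 :=
    (pr_fl hA).comp (fst.pair (fst.comp snd)) (snd.comp snd)
  exact (pr_stp hA).comp ((fst.pair (fst.comp snd)).pair ((snd.comp snd).pair h1))

/-- The gap weight used for the diagonalisation. -/
noncomputable def WF (A : Approx) (_l a b m : ℕ) : Bool := ff (A.Hs m) a b

lemma pr_WF (hA : PrimApprox A) :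
    Primrec fun t : (ℕ × ℕ) × ℕ × ℕ => WF A t.1.1 t.2.1 t.2.2 t.1.2 :=
  (pr_ff hA).comp ((snd.comp fst).pair ((fst.comp snd).pair (snd.comp snd)))

/-- The colouring with six colours. -/
noncomputable def c6 (A : Approx) (n : ℕ) : ℕ := 2 * col3 (col A.WE) n + (col (WF A) n).toNat

lemma c6_lt (A : Approx) (n : ℕ) : c6 A n < 6 := by
  have h1 : col3 (col A.WE) n < 3 := Nat.mod_lt _ (by norm_num)
  have h2 := Bool.toNat_le (col (WF A) n)
  unfold c6
  omega

lemma pr_c6 (hA : PrimApprox A) : Primrec (c6 A) :=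
  nat_add.comp (nat_mul.comp (const 2) (pr_col3 (pr_col hA.WE)))
    ((Primrec.dom_bool Bool.toNat).comp (pr_col (pr_WF hA)))

lemma c6_inj {n m : ℕ} (h : c6 A n = c6 A m) :
    col3 (col A.WE) n = col3 (col A.WE) m ∧ col (WF A) n = col (WF A) m := by
  unfold c6 at h
  cases h1 : col (WF A) n <;> cases h2 : col (WF A) m <;> rw [h1, h2] at h <;>
    simp only [Bool.toNat_false, Bool.toNat_true] at h <;> first
      | exact ⟨by omega, rfl⟩
      | (exfalso; omega)

/-- Main theorem. -/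
theorem main6 {X : Set ℕ} (hX : X.Infinite) (hpos : ∀ x ∈ X, 0 < x)
    (hc : Mono4 (c6 A₀) X) :
    (∀ S : Set ℕ, (∃ R : ℕ → ℕ → ℕ → Bool, (Computable fun t : ℕ × ℕ × ℕ => R t.1 t.2.1 t.2.2) ∧
      ∀ n, n ∈ S ↔ ∃ s, ∀ t, R n s t = true) → Nat.RecursiveIn {chi X} (chi S)) ∧
    ¬ ∃ R : ℕ → ℕ → ℕ → ℕ → Bool,
      (Computable fun t : ℕ × ℕ × ℕ × ℕ => R t.1 t.2.1 t.2.2.1 t.2.2.2) ∧
      ∀ n, n ∈ X ↔ ∃ i, ∀ j, ∃ k, R n i j k = true := by
  classical
  obtain ⟨b, s1, s2, s3, s4⟩ := hc.sums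
  obtain ⟨x₀, hx₀⟩ := hX.nonempty
  have hb : c6 A₀ x₀ = b := s1 x₀ hx₀
  set t := col3 (col A₀.WE) x₀ with ht
  set r := col (WF A₀) x₀ with hr
  have g : ∀ n, c6 A₀ n = b → col3 (col A₀.WE) n = t ∧ col (WF A₀) n = r := fun n hn =>
    c6_inj (hn.trans hb.symm)
  have h1 : ∀ x ∈ X, col3 (col A₀.WE) x = t := fun x hx => (g _ (s1 x hx)).1
  have h2 : ∀ x ∈ X, ∀ y ∈ X, x < y → col3 (col A₀.WE) (x + y) = t :=
    fun x hx y hy hxy => (g _ (s2 x hx y hy hxy)).1
  have h3 : ∀ x ∈ X, ∀ y ∈ X, ∀ z ∈ X, x < y → y < z → col3 (col A₀.WE) (x + y + z) = t :=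
    fun x hx y hy z hz hxy hyz => (g _ (s3 x hx y hy z hz hxy hyz)).1
  have h4 : ∀ x ∈ X, ∀ y ∈ X, ∀ z ∈ X, ∀ w ∈ X, x < y → y < z → z < w →
      col3 (col A₀.WE) (x + y + z + w) = t :=
    fun x hx y hy z hz w hw hxy hyz hzw => (g _ (s4 x hx y hy z hz w hw hxy hyz hzw)).1
  constructor
  · rintro S ⟨R, hR, hS⟩
    obtain ⟨e, he⟩ := sigma_two_reduce hR hS
    have k1 := computesK4 A₀_prim hX hpos h1 h2 h3 h4
    have k2 := comp_rec k1 (g := fun n => Nat.pair e n)
      (Primrec₂.natPair.comp (const e) Primrec.id)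
    refine k2.of_eq (fun n => ?_)
    unfold chi
    simp only [he]
  · rintro ⟨R, hR, hXR⟩
    have hf := fiber_finite hpos h1 h2 h4
    have hg : Computable₂ fun (x k : ℕ) =>
        R x.unpair.1 x.unpair.2.unpair.1 x.unpair.2.unpair.2 k := by
      have c1 : Computable fun u : ℕ × ℕ =>
          (u.1.unpair.1, u.1.unpair.2.unpair.1, u.1.unpair.2.unpair.2, u.2) := by
        have g1 : Primrec fun u : ℕ × ℕ => u.1.unpair.1 := pr_u1.comp fst
        have g2 : Primrec fun u : ℕ × ℕ => u.1.unpair.2.unpair.1 := pr_u1.comp (pr_u2.comp fst)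
        have g3 : Primrec fun u : ℕ × ℕ => u.1.unpair.2.unpair.2 := pr_u2.comp (pr_u2.comp fst)
        exact (g1.pair (g2.pair (g3.pair snd))).to_comp
      exact Computable.comp (f := fun t : ℕ × ℕ × ℕ × ℕ => R t.1 t.2.1 t.2.2.1 t.2.2.2)
        (g := fun u : ℕ × ℕ =>
          (u.1.unpair.1, u.1.unpair.2.unpair.1, u.1.unpair.2.unpair.2, u.2)) hR c1
    obtain ⟨cd, hcd⟩ := exists_code_search hg
    have he : X = X3 A₀ (Encodable.encode cd) := by
      ext n
      rw [hXR]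
      unfold X3
      rw [Set.mem_ofPred_eq]
      refine exists_congr (fun i => forall_congr' (fun j => ?_))
      rw [A₀_H]
      unfold jx
      rw [Nat.unpair_pair, Denumerable.ofNat_encode, hcd]
      simp only [Nat.unpair_pair]
    exact not_sigma3 hX hpos hf (fun x hx => (g _ (s1 x hx)).2)
      (fun x hx y hy hxy => (g _ (s2 x hx y hy hxy)).2)
      (fun x hx y hy z hz hxy hyz => (g _ (s3 x hx y hy z hz hxy hyz)).2) he

end Pool.Agent.Work.MP_69fea5_lc.DJ
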