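import Pool.Agent.Work.MP_69fea5_lc.QBits
import Pool.Agent.Work.MP_69fea5_lc.DJCore

set_option autoImplicit false

/-! Apart sequences, and the core of the coding of the second jump with sums of at most four
terms. -/

namespace Pool.Agent.Work.MP_69fea5_lc.DJ

/-- The terms of the sequence are positive and the binary digits of a term come after those of the
preceding terms. -/
structure Apart (s : ℕ → ℕ) : Prop where
  pos : ∀ i, 0 < s i
  dvd : ∀ i, 2 ^ (s i) ∣ s (i + 1)

/-- highest position of the `i`-th term -/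
def top (s : ℕ → ℕ) (i : ℕ) : ℕ := hi (bits (s i))

/-- lowest position of the `i`-th term -/
def bot (s : ℕ → ℕ) (i : ℕ) : ℕ := lo (bits (s i))

namespace Apart

variable {s : ℕ → ℕ} (h : Apart s)

include h

lemma lt_succ (i : ℕ) : s i < s (i + 1) :=
  lt_of_lt_of_le Nat.lt_two_pow_self (Nat.le_of_dvd (h.pos _) (h.dvd i))

lemma strictMono : StrictMono s := strictMono_nat_of_lt_succ h.lt_succ

lemma dvd_of_lt {i j : ℕ} (hij : i < j) : 2 ^ (s i) ∣ s j := by
  obtain ⟨k, rfl⟩ := Nat.exists_eq_add_of_lt hij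
  exact (pow_dvd_pow 2 (h.strictMono.monotone (by omega))).trans (h.dvd (i + k))

lemma top_lt (i : ℕ) : top s i < s i :=
  lt_of_mem_bits Nat.lt_two_pow_self (hi_mem (bits_ne_nil (h.pos i)))

lemma bot_le_top (i : ℕ) : bot s i ≤ top s i :=
  lo_le (hi_mem (bits_ne_nil (h.pos i)))

lemma le_bot {i j : ℕ} (hij : i < j) : s i ≤ bot s j :=
  (pow_dvd_iff (h.pos j)).mp (h.dvd_of_lt hij)

lemma top_lt_bot {i j : ℕ} (hij : i < j) : top s i < bot s j :=
  lt_of_lt_of_le (h.top_lt i) (h.le_bot hij)

lemma id_le (i : ℕ) : i < s i := by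
  induction i with
  | zero => exact h.pos 0
  | succ i ih =>
    have := h.lt_succ i
    omega

lemma id_le_bot (i : ℕ) : i ≤ bot s i := by
  cases i with
  | zero => exact Nat.zero_le _
  | succ i =>
    have h1 : s i ≤ bot s (i + 1) := h.le_bot (Nat.lt_succ_self i)
    have h2 := h.id_le i
    show i + 1 ≤ bot s (i + 1)
    omega

lemma id_le_top (i : ℕ) : i ≤ top s i := le_trans (h.id_le_bot i) (h.bot_le_top i)

lemma top_mono {i j : ℕ} (hij : i ≤ j) : top s i ≤ top s j := by
  rcases Nat.eq_or_lt_of_le hij with rfl | hij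
  · exact le_rfl
  · exact (lt_of_lt_of_le (h.top_lt_bot hij) (h.bot_le_top j)).le

end Apart

/-- The double differences of the weight `W` vanish along the sequence. -/
def DD (W : ℕ → ℕ → ℕ → ℕ → Bool) (s : ℕ → ℕ) : Prop :=
  ∀ i j k r, i < j → j < k → k < r →
    xor (xor (W (bot s i) (top s j) (bot s k) (top s r))
        (W (bot s i) (top s i) (bot s k) (top s r)))
      (xor (W (bot s i) (top s j) (bot s r) (top s r))
        (W (bot s i) (top s i) (bot s r) (top s r))) = false

/-- If the colour of the sums of two, three and four terms depends only on the first term then the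
double differences vanish. -/
lemma Apart.dd {s : ℕ → ℕ} (h : Apart s) {W : ℕ → ℕ → ℕ → ℕ → Bool} {t : ℕ → Bool}
    (h2 : ∀ i j, i < j → col W (s i + s j) = t i)
    (h3 : ∀ i j k, i < j → j < k → col W (s i + s j + s k) = t i)
    (h4 : ∀ i j k r, i < j → j < k → k < r → col W (s i + s j + s k + s r) = t i) :
    DD W s := by
  intro i j k r hij hjk hkr
  have key := col_identity₄ W (h.pos i) (h.pos j) (h.pos k) (h.pos r)
    (Nat.lt_two_pow_self (n := s i)) (h.dvd_of_lt hij) (Nat.lt_two_pow_self (n := s j))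
    (h.dvd_of_lt hjk) (Nat.lt_two_pow_self (n := s k)) (h.dvd_of_lt hkr)
    (h.strictMono hij).le (h.strictMono hjk).le
  rw [h4 i j k r hij hjk hkr, h3 i j r hij (hjk.trans hkr), h3 i k r (hij.trans hjk) hkr,
    h2 i r (hij.trans (hjk.trans hkr))] at key
  unfold top bot
  rw [← key]
  cases t i <;> rfl

/-- Prehomogeneity, exact form. -/
lemma Apart.prehom {s : ℕ → ℕ} (h : Apart s) {w : ℕ → ℕ → ℕ → Bool} {t : Bool}
    (h1 : ∀ i, col (fun _ => w) (s i) = t)
    (h2 : ∀ i j, i < j → col (fun _ => w) (s i + s j) = t)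
    (h3 : ∀ i j k, i < j → j < k → col (fun _ => w) (s i + s j + s k) = t) :
    ∀ i j k, i < j → j < k →
      w (top s i) (bot s j) (top s k) = w (top s i) (bot s k) (top s k) := by
  intro i j k hij hjk
  have key := col_identity₃ w (h.pos i) (h.pos j) (h.pos k)
    (Nat.lt_two_pow_self (n := s i)) (h.dvd_of_lt hij) (Nat.lt_two_pow_self (n := s j))
    (h.dvd_of_lt hjk) (h.strictMono hij).le
  rw [h3 i j k hij hjk, h2 i k (hij.trans hjk), h2 j k hjk, h1 k] at key
  have e : xor (xor t t) (xor t t) = false := by cases t <;> rfl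
  rw [e] at key
  unfold top bot
  revert key
  generalize w (hi (bits (s i))) (lo (bits (s j))) (hi (bits (s k))) = q1
  generalize w (hi (bits (s i))) (lo (bits (s k))) (hi (bits (s k))) = q2
  revert q1 q2
  decide

namespace Approx

variable (A : Approx)

/-- The approximation of the join of `H` and `K` at stage `s`, with the guess at stage `m` about
`H` in the second half. -/
def Est (s m p : ℕ) : Bool := if p % 2 = 0 then A.Hs s (p / 2) else A.Kst s m (p / 2)

/-- The weight of the colouring: some element below `l` of the join is found between `a` and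
`b`. -/
def WE (l a b m : ℕ) : Bool := decide (∃ p < l, A.Est b m p = true ∧ ¬ A.Est a m p = true)

/-- The join of `H` and `K` at stage `s`. -/
def Ea (s p : ℕ) : Prop := if p % 2 = 0 then A.Hs s (p / 2) = true else A.Ka s (p / 2)

/-- The join of `H` and `K`. -/
def E (p : ℕ) : Prop := if p % 2 = 0 then A.H (p / 2) else A.K (p / 2)

lemma Ea_mono {s s' p : ℕ} (h : s ≤ s') (hp : A.Ea s p) : A.Ea s' p := by
  unfold Ea at *
  split_ifs at * with h2
  · exact A.mono s s' _ h hp
  · exact A.Ka_mono h hp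

lemma E_of_Ea {s p : ℕ} (hp : A.Ea s p) : A.E p := by
  unfold Ea at hp
  unfold E
  split_ifs at * with h2
  · exact ⟨s, hp⟩
  · exact A.K_of_Ka hp

lemma exists_Ea {p : ℕ} (hp : A.E p) : ∃ s, A.Ea s p := by
  unfold Ea
  unfold E at hp
  split_ifs at * with h2
  · exact hp
  · obtain ⟨s, hs⟩ := hp
    exact ⟨s + 1, s, Nat.lt_succ_self s, hs⟩

lemma Est_of_Ea {s p : ℕ} (m : ℕ) (hp : A.Ea s p) : A.Est s m p = true := by
  unfold Ea at hp
  unfold Est
  split_ifs at * with h2
  · exact hp
  · obtain ⟨s', hs', h⟩ := hp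
    unfold Kst
    rw [decide_eq_true_eq]
    exact ⟨s', hs', fun hH => h ⟨m, hH⟩⟩

lemma Est_limit (l s : ℕ) : ∃ M, ∀ m, M ≤ m → ∀ p < l, A.Est s m p = true → A.Ea s p := by
  obtain ⟨N, hN⟩ := A.ix_bound l s
  obtain ⟨M, hM⟩ := A.settle N
  refine ⟨M, fun m hm p hp h => ?_⟩
  unfold Est at h
  unfold Ea
  split_ifs at * with h2
  · exact h
  · unfold Kst at h
    rw [decide_eq_true_eq] at h
    obtain ⟨s', hs', h⟩ := h
    exact ⟨s', hs', fun hH => h (hM m hm _ (hN _ (by omega) s' hs') hH)⟩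

lemma Ea_limit (l : ℕ) : ∃ N, ∀ s, N ≤ s → ∀ p < l, A.E p → A.Ea s p := by
  induction l with
  | zero => exact ⟨0, fun _ _ p hp => by omega⟩
  | succ l ih =>
    obtain ⟨N, hN⟩ := ih
    by_cases hl : A.E l
    · obtain ⟨N', hN'⟩ := A.exists_Ea hl
      refine ⟨max N N', fun s hs p hp hE => ?_⟩
      rcases Nat.lt_succ_iff_lt_or_eq.mp hp with hp | rfl
      · exact hN s (le_trans (le_max_left _ _) hs) p hp hE
      · exact A.Ea_mono (le_trans (le_max_right _ _) hs) hN'
    · refine ⟨N, fun s hs p hp hE => ?_⟩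
      rcases Nat.lt_succ_iff_lt_or_eq.mp hp with hp | rfl
      · exact hN s hs p hp hE
      · exact absurd hE hl

end Approx

variable {A : Approx} {s : ℕ → ℕ}

/-- A change followed by a clean junction certifies the second candidate. -/
lemma Apart.cert (h : Apart s) (hd : DD A.WE s) {i j k : ℕ} (hij : i < j) (hjk : j < k)
    (hch : ∃ p < bot s i, A.Ea (top s j) p ∧ ¬ A.Ea (top s i) p)
    (hst : ∀ p < bot s i, A.Ea (bot s k) p → A.Ea (top s j) p) :
    ∀ p < bot s i, A.E p → A.Ea (top s j) p := by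
  set l := bot s i with hl
  obtain ⟨M₁, hM₁⟩ := A.Est_limit l (top s i)
  obtain ⟨M₂, hM₂⟩ := A.Est_limit l (top s j)
  obtain ⟨M₃, hM₃⟩ := A.Est_limit l (bot s k)
  obtain ⟨N, hN⟩ := A.Ea_limit l
  set r := max (max (k + 1) N) (max (max M₁ M₂) M₃) with hr
  have r1 : k + 1 ≤ r := le_trans (le_max_left _ _) (le_max_left _ _)
  have r2 : N ≤ r := le_trans (le_max_right _ _) (le_max_left _ _)
  have r3 : M₁ ≤ r := le_trans (le_trans (le_max_left _ _) (le_max_left _ _)) (le_max_right _ _)
  have r4 : M₂ ≤ r := le_trans (le_trans (le_max_right _ _) (le_max_left _ _)) (le_max_right _ _)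
  have r5 : M₃ ≤ r := le_trans (le_max_right _ _) (le_max_right _ _)
  have hkr : k < r := r1
  have hm : r ≤ top s r := h.id_le_top r
  have hb : r ≤ bot s r := h.id_le_bot r
  have key := hd i j k r hij hjk hkr
  rw [← hl] at key
  obtain ⟨p₀, hp₀, hc1, hc2⟩ := hch
  have t1 : top s j ≤ bot s k := (h.top_lt_bot hjk).le
  have t2 : top s j ≤ bot s r := (h.top_lt_bot (hjk.trans hkr)).le
  have w1 : A.WE l (top s j) (bot s k) (top s r) = false := by
    unfold Approx.WE
    rw [decide_eq_false_iff_not]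
    rintro ⟨p, hp, h1, h2⟩
    exact h2 (A.Est_of_Ea _ (hst p hp (hM₃ _ (r5.trans hm) p hp h1)))
  have w2 : A.WE l (top s i) (bot s k) (top s r) = true := by
    unfold Approx.WE
    rw [decide_eq_true_eq]
    exact ⟨p₀, hp₀, A.Est_of_Ea _ (A.Ea_mono t1 hc1),
      fun h1 => hc2 (hM₁ _ (r3.trans hm) p₀ hp₀ h1)⟩
  have w3 : A.WE l (top s i) (bot s r) (top s r) = true := by
    unfold Approx.WE
    rw [decide_eq_true_eq]
    exact ⟨p₀, hp₀, A.Est_of_Ea _ (A.Ea_mono t2 hc1),
      fun h1 => hc2 (hM₁ _ (r3.trans hm) p₀ hp₀ h1)⟩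
  rw [w1, w2, w3] at key
  have w4 : A.WE l (top s j) (bot s r) (top s r) = false := by
    revert key
    generalize A.WE l (top s j) (bot s r) (top s r) = q
    revert q
    decide
  intro p hp hE
  by_contra hn
  unfold Approx.WE at w4
  rw [decide_eq_false_iff_not] at w4
  refine w4 ⟨p, hp, A.Est_of_Ea _ (hN _ (r2.trans hb) p hp hE), fun h1 => hn ?_⟩
  exact hM₂ _ (r4.trans hm) p hp h1

open Classical in
/-- The number of elements below `l` at stage `t`. -/
noncomputable def cnt (A : Approx) (l t : ℕ) : ℕ :=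
  ((Finset.range l).filter (fun p => A.Ea t p)).card

lemma cnt_le (A : Approx) (l t : ℕ) : cnt A l t ≤ l := by
  classical
  unfold cnt
  exact le_trans (Finset.card_filter_le _ _) (by simp)

lemma cnt_lt {l t t' : ℕ} (ht : t ≤ t') (h : ∃ p < l, A.Ea t' p ∧ ¬ A.Ea t p) :
    cnt A l t < cnt A l t' := by
  classical
  obtain ⟨p, hp, h1, h2⟩ := h
  unfold cnt
  apply Finset.card_lt_card
  rw [Finset.ssubset_iff_of_subset]
  · refine ⟨p, ?_, ?_⟩
    · simp [hp, h1]
    · simp [h2]
  · intro q hq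
    rw [Finset.mem_filter] at hq ⊢
    exact ⟨hq.1, A.Ea_mono ht hq.2⟩

/-- After a change, the first `l + 1` junctions contain a clean one, so that everything is
found. -/
lemma Apart.final (h : Apart s) (hd : DD A.WE s) {i j : ℕ} (hij : i < j)
    (hch : ∃ p < bot s i, A.Ea (top s j) p ∧ ¬ A.Ea (top s i) p) :
    ∀ p < bot s i, A.E p → A.Ea (top s (j + bot s i)) p := by
  set l := bot s i with hl
  -- some junction is clean
  have hclean : ∃ t ≤ l, ∀ p < l, A.Ea (bot s (j + t + 1)) p → A.Ea (top s (j + t)) p := by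
    by_contra hc
    push Not at hc
    have hcount : ∀ t ≤ l + 1, t ≤ cnt A l (top s (j + t)) := by
      intro t
      induction t with
      | zero => intro _; exact Nat.zero_le _
      | succ t ih =>
        intro ht
        have h1 := ih (by omega)
        obtain ⟨p, hp, h2, h3⟩ := hc t (by omega)
        have h4 : top s (j + t) ≤ top s (j + (t + 1)) := h.top_mono (by omega)
        have h5 : bot s (j + t + 1) ≤ top s (j + (t + 1)) := h.bot_le_top _
        have := cnt_lt (A := A) (l := l) h4 ⟨p, hp, A.Ea_mono h5 h2, h3⟩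
        omega
    have h6 := hcount (l + 1) le_rfl
    have h7 := cnt_le A l (top s (j + (l + 1)))
    omega
  obtain ⟨t, ht, hcl⟩ := hclean
  intro p hp hE
  obtain ⟨p₀, hp₀, hc1, hc2⟩ := hch
  have h1 := h.cert hd (i := i) (j := j + t) (k := j + t + 1) (by omega) (by omega)
    ⟨p₀, hp₀, A.Ea_mono (h.top_mono (by omega)) hc1, hc2⟩ hcl p hp hE
  exact A.Ea_mono (h.top_mono (by omega)) h1

end Pool.Agent.Work.MP_69fea5_lc.DJ
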